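import Pool.Agent.H72.ONE1.Nmc
import Pool.Agent.H45.EXA.ExvB
import Pool.Agent.H45.EXA.Nbc
import Pool.Agent.H54.PRC.Ipr

/-!
# One hop in a class

`NfU`: the row of the height of the target over the context, for the labels of a class. `few_cls`:
one hop in a class: the digits of the own velocity of the target at the third window are few bits.
-/

set_option autoImplicit false

namespace Pool.ONE72

open Finset Real
open Pool.Agent.H49.Ent Pool.Agent.H32.Dense Pool.STK Pool.KA Pool.KSAT Pool.K2S Pool.PB Pool.GEN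
open Pool.S6C Pool.LA91 Pool.RCD Pool.OWN72
open Pool.GRW (bas_part)

/-- The time behind a window. -/
theorem tm_cls {m : ℕ} {S : PCl m} {C₀ : ℝ} (htm : TmC S C₀) {w : ℝ} (hw : w ≤ 1) {ψ : ℝ}
    (hψ : 0 < ψ) : Bas S (fun J F A => 0 < Pe F.p A ∧ ((J : ℝ) - ⌊w * J⌋₊) * Real.log 2 - ψ * J ≤
      CH (Pool.Agent.H49.Ent.cond F.p A True) F.T (slam F ⌊w * J⌋₊)) := by
  refine (Pool.GRW.TmC.wn htm w ψ hψ).mono 0 fun J _ F A hh => ⟨hh.1, ?_⟩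
  have hwJ : ⌊w * (J : ℝ)⌋₊ ≤ J := by
    refine Nat.floor_le_of_le ?_
    have : (0 : ℝ) ≤ J := Nat.cast_nonneg J
    calc w * J ≤ 1 * J := mul_le_mul_of_nonneg_right hw this
      _ = J := one_mul _
  have h1 := hh.2 (J - ⌊w * (J : ℝ)⌋₊) (by omega)
  have e1 : ⌊w * (J : ℝ)⌋₊ + (J - ⌊w * (J : ℝ)⌋₊) = J := by omega
  rw [e1] at h1
  have e2 : F.T1 J = F.T := by
    funext ω
    unfold Fam.T1
    rw [Nat.sub_self, pow_zero, Nat.div_one]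
  rw [e2, Nat.cast_sub hwJ] at h1
  exact h1

/-- **The row of the height of the target**, for the labels of the class. -/
def NfU (S : PCl 4) (y u v t : Fin 4) (κ : ∀ (J : ℕ) (F : Fam 4 J), PtT F → Fin 4 → ℝ)
    (w Nu Nv Nn : Fin 3 → ℝ) (Nl E mr Mr e s h ϖ dr : ℝ) : Prop :=
  Bas S (fun J F A => ∀ (f : PtT F → ℝ) (γ γc : Fin 3 → Fin 3 → PtT F → ℝ),
    LbD F A y u v t f (fun p => κ J F p u) (fun p => κ J F p v) γ γc (WJ w J)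
      (LJ Nu Nv Nn e J) (sJ E s J) ⌊s * J⌋₊ →
    ∀ (V₁ : Type) (z₁ : F.Ω → V₁), RcD F A y u v t f (fun p => κ J F p u) (fun p => κ J F p v)
      γ γc (WJ w J 1) 1 (LJ Nu Nv Nn e J) ⌊s * J⌋₊ z₁ →
    ∀ (𝒵 : Type) (z : F.Ω → 𝒵), Cl2 (ptr F J) (slam F (WJ w J 0)) A z →
    (∀ ω ω', A ω → A ω' → z ω = z ω' →
      lb0 F f (fun p => κ J F p u) (fun p => κ J F p v) γ γc ω =
        lb0 F f (fun p => κ J F p u) (fun p => κ J F p v) γ γc ω') →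
    ∀ X : ℕ, X = ⌊Nl * J⌋₊ - LJ Nu Nv Nn e J 0 2 →
    ∀ i : ℕ, i ≤ ⌊Mr * J⌋₊ → ∀ G : F.Ω → Prop,
      ϖ ≤ Pe (Pool.Agent.H49.Ent.cond F.p A True) G →
      CH (Pool.Agent.H49.Ent.cond (Pool.Agent.H49.Ent.cond F.p A True) G True)
        (fun ω => ⌊(2 : ℝ) ^ (WJ w J 0 + LJ Nu Nv Nn e J 0 2 + ⌊Mr * J⌋₊) *
          oh F y (h3v F u v t f (fun p => κ J F p u) (fun p => κ J F p v) 2) (γ 0 2)
            (γc 0 2) ω⌋)
        (fun ω => (⌊(2 : ℝ) ^ (WJ w J 0 + LJ Nu Nv Nn e J 0 2 + i) *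
          oh F y (h3v F u v t f (fun p => κ J F p u) (fun p => κ J F p v) 2) (γ 0 2)
            (γc 0 2) ω⌋,
          ctxK F y z
            (oh F y (h3v F u v t f (fun p => κ J F p u) (fun p => κ J F p v) 0) (γ 0 0) (γc 0 0))
            (oh F y (h3v F u v t f (fun p => κ J F p u) (fun p => κ J F p v) 1) (γ 0 1) (γc 0 1))
            (WJ w J 0) X (WJ w J 0 + LJ Nu Nv Nn e J 0 0) (WJ w J 0 + LJ Nu Nv Nn e J 0 1)
            ⌊mr * J⌋₊ ω)) ≤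
      (1 - h) * ((⌊Mr * J⌋₊ : ℝ) - i) * Real.log 2 + dr * J)

/-- **The labels of the class.** -/
def LbU (S : PCl 4) (y u v t : Fin 4) (κ : ∀ (J : ℕ) (F : Fam 4 J), PtT F → Fin 4 → ℝ)
    (w Nu Nv Nn : Fin 3 → ℝ) (E e s : ℝ) : Prop :=
  Bas S (fun J F A => ∃ B : F.Ω → Prop, Sub B A ∧ Pe F.p A ≤ 2 * Pe F.p B ∧
    ∃ (f : PtT F → ℝ) (γ γc : Fin 3 → Fin 3 → PtT F → ℝ),
      LbD F B y u v t f (fun p => κ J F p u) (fun p => κ J F p v) γ γc (WJ w J)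
        (LJ Nu Nv Nn e J) (sJ E s J) ⌊s * J⌋₊)

/-- The velocity of the modified target. -/
noncomputable def gk (u v t : Fin 4) (κ : ∀ (J : ℕ) (F : Fam 4 J), PtT F → Fin 4 → ℝ) (J : ℕ)
    (F : Fam 4 J) (ω : F.Ω) : ℝ :=
  F.d ω t - κ J F (ptr F J ω) u * F.d ω u - κ J F (ptr F J ω) v * F.d ω v

/-- **The record of the ball does not see the own velocity**, at the windows `w`, `w'`, `l`. -/
def IpU (S : PCl 4) (y : Fin 4) (g : ∀ (J : ℕ) (F : Fam 4 J), F.Ω → ℝ) (N : ℚ → ℝ)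
    (w w' l P : ℚ) (θ η : ℝ) : Prop :=
  ∃ k : ℝ, 0 < k ∧ ∃ e₀ : ℝ, 0 < e₀ ∧ Bas S (fun J F A =>
    ∀ (V₁ V₂ : Type) (z : F.Ω → V₁) (zj : F.Ω → V₂),
    Mx (fun J F => ptr F J) (vg (w : ℝ)) k F A z →
    Mx (fun J F => ptr F J) (vg (w' : ℝ)) k F A zj → ∀ a b : F.Ω → ℤ,
    (mQ y g N w w').P 0 e₀ J F A a → (mQ y g N w l).P 0 e₀ J F A b →
    CH (Pool.Agent.H49.Ent.cond F.p A True) b
        (fun ω => (a ω, (z ω, (F.D ⌊(P : ℝ) * J⌋₊ ω y, F.W ω)))) ≤ (θ + η) * J ∧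
    (θ - η) * J ≤ CH (Pool.Agent.H49.Ent.cond F.p A True) b
        (fun ω => (a ω, (zj ω, (z ω, (F.D ⌊(P : ℝ) * J⌋₊ ω y, F.W ω))))))

/-- **One hop in a class.** -/
theorem few_cls (h ε c : ℝ) (hh0 : 0 < h) (hh1 : h ≤ 1) (hε : 0 < ε) (hc : 0 < c) :
    ∃ κ' ϖ : ℝ, 0 < κ' ∧ 0 < ϖ ∧ ∀ {S : PCl 4} {C₀ : ℝ}, TmC S C₀ → ∀ {y u v t : Fin 4}
    {κ : ∀ (J : ℕ) (F : Fam 4 J), PtT F → Fin 4 → ℝ} {N : ℚ → ℝ} {w : Fin 3 → ℚ} {l P : ℚ}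
    {Nu Nv : Fin 3 → ℝ} {E mr Mr M' e e2 s q av ηI dr θ b η₀ η₂ : ℝ},
    NumC (fun i => (w i : ℝ)) Nu Nv (fun i => N (w i)) (N l) P E mr Mr M' e e2 s q av →
    (∀ e' : ℝ, 0 < e' → e' ≤ e →
      LbU S y u v t κ (fun i => (w i : ℝ)) Nu Nv (fun i => N (w i)) E e' s) →
    RNum S (fun J F => ptr F J) (vg (w 0 : ℝ)) η₀ → RNum S (fun J F => ptr F J) (vg (w 2 : ℝ)) η₂ →
    0 < ηI → IpU S y (gk u v t κ) N (w 0) (w 2) l P θ ηI →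
    (∀ e' : ℝ, 0 < e' → e' ≤ e →
      NfU S y u v t κ (fun i => (w i : ℝ)) Nu Nv (fun i => N (w i)) (N l) E mr Mr e' s h ϖ dr) →
    0 < dr → 3 * ηI + 6 * e2 + q ≤ dr → dr + q ≤ κ' * (N l - N (w 0)) →
    6 * e2 + ε * (N l - N (w 0) + e) + c * Mr + q ≤ b →
    Bas S (fun J F A => ∃ B : F.Ω → Prop, Sub B A ∧ 1 / (2 * 17 ^ 8) * Pe F.p A ≤ Pe F.p B ∧
      ∃ γ γc : PtT F → ℝ, MLb F B y (gk u v t κ J F) ⌊(w 2 : ℝ) * J⌋₊ ⌊(N (w 2) - e) * J⌋₊ γ γc ∧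
      ∃ (V : Type) (z : F.Ω → V), Cl2 (ptr F J) (slam F ⌊(w 2 : ℝ) * J⌋₊) B z ∧
        CH (Pool.Agent.H49.Ent.cond F.p B True) (fun ω => ⌊(2 : ℝ) ^ ⌊M' * J⌋₊ *
          ov F y (gk u v t κ J F) γ γc ω⌋)
          (fun ω => (F.D ⌊(P : ℝ) * J⌋₊ ω y, (z ω, F.W ω))) ≤ b * J) := by
  obtain ⟨κ', ϖ, hκ, hϖ, X₀, key⟩ := ev_few h ε c hh0 hh1 hε hc
  refine ⟨κ', ϖ, hκ, hϖ, ?_⟩
  intro S C₀ htm y u v t κ N w l P Nu Nv E mr Mr M' e e2 s q av ηI dr θ b η₀ η₂ hn hlb hR0 hR2 hηI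
    hI hnf hdr hd1 hd2 hb
  obtain ⟨k, hk, e₀, he₀, hI⟩ := hI
  obtain ⟨e', he'⟩ : ∃ e', e' = min e e₀ := ⟨_, rfl⟩
  have e'0 : 0 < e' := by rw [he']; exact lt_min hn.e0 he₀
  have e'1 : e' ≤ e := by rw [he']; exact min_le_left _ _
  have e'2 : e' ≤ e₀ := by rw [he']; exact min_le_right _ _
  have hn' := hn.loss e'0 e'1
  have hpos : ∀ (τ : ℝ) (J : ℕ) (F : Fam 4 J) (A : F.Ω → Prop), S.St τ J F A →
      0 < Pe F.p A := fun τ J F A h1 =>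
    (htm (max τ 1) J F A (lt_max_of_lt_right one_pos) (S.mono (le_max_left _ _) h1)).1
  obtain ⟨K, hK⟩ : ∃ K : ℝ, K = 2 * 17 ^ 8 := ⟨_, rfl⟩
  have hK0 : 0 < K := by rw [hK]; norm_num
  have w2J : (w 2 : ℝ) ≤ 1 := by linarith [hn.w21, hn.q0]
  have w0J : (w 0 : ℝ) ≤ 1 := by linarith [hn.w01, hn.w12, hn.w21, hn.q0]
  have b1 := bas_part (mx_ex hpos hR0 k hk) hK0
  have b2 := bas_part (mx_ex hpos hR2 k hk) hK0
  have b3 := bas_part hI hK0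
  have b4 := bas_part (hnf e' e'0 e'1) hK0
  have b5 := bas_part (tm_cls htm w0J hηI) hK0
  -- large families
  have q0 := hn.q0
  have hN0 : 0 < N l - N (w 0) := by
    have h1 := hn.MX
    have h2 := hn.M0
    linarith
  obtain ⟨J₁, hJ₁⟩ := exists_nat_ge ((12 + ε + 3 * c + 60 + κ') / q)
  obtain ⟨J₂, hJ₂⟩ := exists_nat_ge (((X₀ : ℝ) + 1) / (N l - N (w 0)))
  obtain ⟨J₃, hJ₃⟩ := exists_nat_ge (3 * Real.log 33 / dr)
  refine Bas.mono (max J₁ (max J₂ J₃)) ((hlb e' e'0 e'1).and (b1.and (b2.and (b3.and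
    (b4.and b5))))) ?_
  rintro J hJ F A ⟨⟨B₁, hB1A, hPB1, f, γ, γc, hL⟩, c1, c2, c3, c4, c5⟩
  have j1 : (J₁ : ℝ) ≤ J := by exact_mod_cast (le_max_left _ _).trans hJ
  have j2 : (J₂ : ℝ) ≤ J := by
    exact_mod_cast (le_max_left _ _).trans ((le_max_right _ _).trans hJ)
  have j3 : (J₃ : ℝ) ≤ J := by
    exact_mod_cast (le_max_right _ _).trans ((le_max_right _ _).trans hJ)
  have hJ0 : (0 : ℝ) ≤ J := Nat.cast_nonneg J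
  have g1 : 12 + ε + 3 * c + 60 + κ' ≤ q * J := by
    have := hJ₁.trans j1
    rw [div_le_iff₀ q0] at this
    linarith
  have g2 : (X₀ : ℝ) + 1 ≤ (N l - N (w 0)) * J := by
    have := hJ₂.trans j2
    rw [div_le_iff₀ hN0] at this
    linarith
  have g3 : 3 * Real.log 33 ≤ dr * J := by
    have := hJ₃.trans j3
    rw [div_le_iff₀ hdr] at this
    linarith
  obtain ⟨X, hX⟩ : ∃ X, X = ⌊N l * J⌋₊ - LJ Nu Nv (fun i => N (w i)) e' J 0 2 := ⟨_, rfl⟩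
  obtain ⟨nn, hX1, hX2, hX3⟩ := numN_of hn' (J := J) (by linarith) hX
  obtain ⟨W, hW⟩ : ∃ W, W = WJ (fun i => (w i : ℝ)) J := ⟨_, rfl⟩
  obtain ⟨L, hLe⟩ : ∃ L, L = LJ Nu Nv (fun i => N (w i)) e' J := ⟨_, rfl⟩
  obtain ⟨sz, hsz⟩ : ∃ sz, sz = sJ E s J := ⟨_, rfl⟩
  rw [← hW, ← hLe, ← hsz] at nn hL
  rw [← hLe] at hX1 hX
  -- the records
  obtain ⟨B₂, hB21, hPB2, V₁, z₁, hR1⟩ := rcd_ex hL 1 nn.w01 nn.w1J nn.r1 nn.ss nn.seL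
  obtain ⟨B, hB2, hPB, V₂, z₂, hR2'⟩ := rcd_ex (hL.sub hB21) 2 nn.w02 nn.w2J nn.r2 nn.ss nn.seL
  have hBA : Sub B A := fun ω hω => hB1A ω (hB21 ω (hB2 ω hω))
  have hLB := hL.sub (fun ω hω => hB21 ω (hB2 ω hω))
  have hR1B := hR1.sub hB2
  have hPA : Pe F.p A ≤ K * Pe F.p B := by
    rw [hK]
    calc Pe F.p A ≤ 2 * Pe F.p B₁ := hPB1
      _ ≤ 2 * (17 ^ 4 * Pe F.p B₂) := by linarith
      _ ≤ 2 * (17 ^ 4 * (17 ^ 4 * Pe F.p B)) := by linarith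
      _ = 2 * 17 ^ 8 * Pe F.p B := by ring
  obtain ⟨V₃, z₃, m3⟩ := c1 B hBA hPA
  obtain ⟨V₄, z₄, m4⟩ := c2 B hBA hPA
  have i3 := c3 B hBA hPA
  have n4 := c4 B hBA hPA
  obtain ⟨hB0, t5⟩ := c5 B hBA hPA
  obtain ⟨p, hp⟩ : ∃ p, p = Pool.Agent.H49.Ent.cond F.p B True := ⟨_, rfl⟩
  have hpl : IsLaw p := by rw [hp]; exact isLaw_cond F.isLaw hB0
  have hpB : ∀ ω, 0 < p ω → B ω := by
    rw [hp]
    intro ω hω
    by_contra hcon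
    refine absurd hω (not_lt.2 (le_of_eq ?_))
    unfold Pool.Agent.H49.Ent.cond
    rw [if_neg]
    intro h1
    exact hcon (of_eq_true h1)
  -- the record of the first window
  obtain ⟨z, hz⟩ : ∃ z : F.Ω → V₃ × (((ℝ × (ℝ × ℝ)) × F.ζ) × (Fin 3 → ℝ × ℝ)), z = fun ω =>
    (z₃ ω, lb0 F f (fun p => κ J F p u) (fun p => κ J F p v) γ γc ω) := ⟨_, rfl⟩
  have hW0 : WJ (fun i => (w i : ℝ)) J 0 = ⌊(w 0 : ℝ) * J⌋₊ := rfl
  have hW2 : WJ (fun i => (w i : ℝ)) J 2 = ⌊(w 2 : ℝ) * J⌋₊ := rfl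
  have hlc := lb0_cl hLB
  rw [hW, hW0] at hlc
  have mz : Mx (fun J F => ptr F J) (vg (w 0 : ℝ)) k F B z := by
    rw [hz]
    exact m3.lb hB0 hlc
  have cz : Cl2 (ptr F J) (slam F (W 0)) B z := by
    rw [hW, hW0]
    exact mz.1
  have cz2 : Cl2 (ptr F J) (vg (w 2 : ℝ) J F) B z := by
    obtain ⟨φ, hφ⟩ := vg_mono (m := 4) (show (w 0 : ℝ) ≤ w 2 by linarith [hn.w01, hn.w12]) w2J J F
    exact mz.1.mono ⟨id, fun ω _ => rfl⟩ ⟨φ, fun ω _ => hφ ω⟩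
  have cz2' : Cl2 (ptr F J) (vg (w 2 : ℝ) J F) B z₂ := by
    have := hR2'.cl
    rw [hW, hW2] at this
    exact this
  obtain ⟨zj, hzj⟩ : ∃ zj : F.Ω → (V₄ × (V₃ × (((ℝ × (ℝ × ℝ)) × F.ζ) × (Fin 3 → ℝ × ℝ)))) × V₂,
    zj = fun ω => ((z₄ ω, z ω), z₂ ω) := ⟨_, rfl⟩
  have mzj : Mx (fun J F => ptr F J) (vg (w 2 : ℝ)) k F B zj := by
    rw [hzj]
    exact (m4.lb hB0 cz2).lb hB0 cz2'
  -- the digits of the own velocity
  obtain ⟨go, hgo⟩ : ∃ go : F.Ω → ℝ, go = ov F y (g3v F u v t f (fun p => κ J F p u)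
    (fun p => κ J F p v) 2) (γ 0 2) (γc 0 2) := ⟨_, rfl⟩
  have hlab : ∀ i : Fin 3, MLb F B y (gk u v t κ J F) (W i) (L i 2) (γ i 2) (γc i 2) := fun i => by
    refine ⟨hLB.ca i 2, hLB.cc i 2, fun ω hω => ?_⟩
    have h1 := hLB.rep i 2 ω hω
    rw [le_div_iff₀ (by positivity)]
    exact h1
  obtain ⟨i1, i2⟩ := i3 _ _ z zj mz mzj
    (fun ω => ⌊(2 : ℝ) ^ ⌊N (w 2) * J⌋₊ * go ω⌋) (fun ω => ⌊(2 : ℝ) ^ ⌊N l * J⌋₊ * go ω⌋)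
    (by
      refine ⟨γ 0 2, γc 0 2, ?_, fun ω _ => by rw [hgo]; rfl⟩
      have h1 := hlab 0
      rw [hW, hLe] at h1
      exact h1.anti (Nat.floor_le_floor (mul_le_mul_of_nonneg_right (by linarith) hJ0)))
    (by
      refine ⟨γ 0 2, γc 0 2, ?_, fun ω _ => by rw [hgo]; rfl⟩
      have h1 := hlab 0
      rw [hW, hLe] at h1
      exact h1.anti (Nat.floor_le_floor (mul_le_mul_of_nonneg_right (by linarith) hJ0)))
  rw [← hp] at i1 i2 t5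
  rw [hX1] at i1 i2
  have hl2 : Real.log 2 ≤ 1 := by
    have := Real.log_le_sub_one_of_pos (show (0 : ℝ) < 2 by norm_num)
    linarith
  have hl20 : 0 < Real.log 2 := Real.log_pos one_lt_two
  have he2 : (0 : ℝ) ≤ e2 := by linarith [hn.se, hn.s0]
  have f1 : ((⌊e2 * J⌋₊ : ℕ) : ℝ) ≤ e2 * J := Nat.floor_le (by positivity)
  have f2 : ((⌊Mr * J⌋₊ : ℕ) : ℝ) ≤ Mr * J := Nat.floor_le (mul_nonneg hn.M0 hJ0)
  have f3 : 6 * (((⌊e2 * J⌋₊ : ℝ) + 4) * Real.log 2) ≤ 6 * e2 * J + 24 := by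
    have h1 : (0 : ℝ) ≤ (⌊e2 * J⌋₊ : ℝ) + 4 := by positivity
    have h2 : ((⌊e2 * J⌋₊ : ℝ) + 4) * Real.log 2 ≤ ((⌊e2 * J⌋₊ : ℝ) + 4) * 1 :=
      mul_le_mul_of_nonneg_left hl2 h1
    linarith
  have m1 := mul_le_mul_of_nonneg_right hd1 hJ0
  have m2 := mul_le_mul_of_nonneg_right hd2 hJ0
  have m3 := mul_le_mul_of_nonneg_right hb hJ0
  have hX0 : (X₀ : ℝ) ≤ X := by linarith
  have hκX : dr * J ≤ κ' * X := by
    have h1 : κ' * ((N l - N (w 0)) * J) ≤ κ' * (X + 1) := mul_le_mul_of_nonneg_left hX2 hκ.le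
    linarith
  have hk := key hLB hR2' hpl hpB nn.wX nn.w2J nn.mX nn.MX nn.mP nn.MP nn.see nn.seL nn.LL nn.na
    nn.na2 nn.u3 nn.v3 nn.nn (z := z) (z' := zj) (θ := (θ + ηI) * J) (θ' := (θ - ηI) * J)
    (ψ := ηI * J) (d := dr * J)
    (fun ω ω' a b e => by
      obtain ⟨-, ψ, hψ⟩ := cz
      rw [hψ ω (hpB ω a), hψ ω' (hpB ω' b), e])
    (fun ω ω' _ _ e => by
      rw [hzj] at e
      exact (Prod.mk.inj (Prod.mk.inj e).1).2)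
    (fun ω ω' _ _ e => by
      rw [hzj] at e
      exact (Prod.mk.inj e).2)
    (by rw [hgo] at i1; exact i1) (by rw [hgo] at i2; exact i2) (by linarith)
    (by
      rw [hW]
      exact t5) (by linarith [mul_nonneg hηI.le hJ0, mul_nonneg he2 hJ0]) g3
    (by
      intro i hi G hG
      rw [hp] at hG ⊢
      rw [hW, hLe, hsz] at hLB
      rw [hW, hLe] at hR1B
      rw [hW] at cz
      have := n4 f γ γc hLB V₁ z₁ hR1B _ z cz (fun ω ω' _ _ e => by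
        rw [hz] at e
        exact (Prod.mk.inj e).2) X (by rw [hX, hLe]) i hi G hG
      rw [hW, hLe]
      exact this) (by exact_mod_cast hX0) hκX
  refine ⟨B, hBA, ?_, γ 2 2, γc 2 2, ?_, _, zj, mzj.1, ?_⟩
  · rw [hK] at hPA
    rw [one_div, inv_mul_le_iff₀ (by norm_num)]
    exact hPA
  · have h1 := hlab 2
    rw [hW, hLe] at h1
    exact h1.anti (Nat.floor_le_floor (mul_le_mul_of_nonneg_right (by linarith) hJ0))
  · rw [← hp]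
    refine le_trans hk ?_
    have h1 : (ε * X + c * ((⌊Mr * J⌋₊ : ℕ) + 3) + 8) * Real.log 2 ≤
        (ε * X + c * ((⌊Mr * J⌋₊ : ℕ) + 3) + 8) * 1 :=
      mul_le_mul_of_nonneg_left hl2 (by positivity)
    have h2 : ε * X ≤ ε * ((N l - N (w 0) + e') * J + 1) := mul_le_mul_of_nonneg_left hX3 hε.le
    have h3 : c * (⌊Mr * J⌋₊ : ℕ) ≤ c * (Mr * J) := mul_le_mul_of_nonneg_left f2 hc.le
    have h4 : ε * (e' * J) ≤ ε * (e * J) :=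
      mul_le_mul_of_nonneg_left (mul_le_mul_of_nonneg_right e'1 hJ0) hε.le
    linarith

end Pool.ONE72
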