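import Pool.Agent.H54.PRC.Ipr
import Pool.Agent.H72.OWN.Cfl

/-!
# Labels of a modified velocity over the active velocity

`MLb`: an affine label of the function `g` over the velocity of `y`, closed at the window `w`.
`MNum`: the thresholds of such labels in a class. `mQ`: the digits of the own velocity of `g`.
-/

set_option autoImplicit false

namespace Pool.ONE72

open Finset Real
open Pool.Agent.H49.Ent Pool.Agent.H32.Dense Pool.STK Pool.KA Pool.KSAT Pool.K2S Pool.PB Pool.GEN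
open Pool.S6C Pool.LA91 Pool.RCD Pool.OWN72

variable {m J : ℕ}

/-- The own velocity of `g`. -/
noncomputable def ov (F : Fam m J) (y : Fin m) (g : F.Ω → ℝ) (γ γc : PtT F → ℝ) (ω : F.Ω) : ℝ :=
  g ω - γc (ptr F J ω) - γ (ptr F J ω) * F.d ω y

/-- **An affine label over the velocity of** `y`, closed at the window `w`. -/
structure MLb (F : Fam m J) (A : F.Ω → Prop) (y : Fin m) (g : F.Ω → ℝ) (w M : ℕ)
    (γ γc : PtT F → ℝ) : Prop where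
  ca : Cl1 F A w γ
  cc : Cl1 F A w γc
  rep : ∀ ω, A ω → |ov F y g γ γc ω| ≤ 1 / 2 ^ M

theorem MLb.sub {F : Fam m J} {A B : F.Ω → Prop} {y : Fin m} {g : F.Ω → ℝ} {w M : ℕ}
    {γ γc : PtT F → ℝ} (h : MLb F A y g w M γ γc) (hB : Sub B A) : MLb F B y g w M γ γc :=
  ⟨h.ca.sub hB, h.cc.sub hB, fun ω hω => h.rep ω (hB ω hω)⟩

theorem MLb.anti {F : Fam m J} {A : F.Ω → Prop} {y : Fin m} {g : F.Ω → ℝ} {w M M' : ℕ}
    {γ γc : PtT F → ℝ} (h : MLb F A y g w M γ γc) (hM : M' ≤ M) : MLb F A y g w M' γ γc :=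
  ⟨h.ca, h.cc, fun ω hω => (h.rep ω hω).trans
    (one_div_le_one_div_of_le (by positivity) (pow_le_pow_right₀ (by norm_num) hM))⟩

theorem MLb.win {F : Fam m J} {A : F.Ω → Prop} {y : Fin m} {g : F.Ω → ℝ} {w w' M : ℕ}
    {γ γc : PtT F → ℝ} (h : MLb F A y g w M γ γc) (hw : w ≤ w') (hw' : w' ≤ J) :
    MLb F A y g w' M γ γc := ⟨h.ca.win hw hw', h.cc.win hw hw', h.rep⟩

/-- **The thresholds** of the labels of `g` over the velocity of `y` at the rational windows of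
`(A, B)`. -/
structure MNum (S : PCl m) (y : Fin m) (g : ∀ (J : ℕ) (F : Fam m J), F.Ω → ℝ) (A B : ℝ)
    (N : ℚ → ℝ) : Prop where
  n0 : ∀ w : ℚ, A < w → (w : ℝ) < B → 0 ≤ N w
  n1 : ∀ w : ℚ, A < w → (w : ℝ) < B → N w ≤ 1
  mono : ∀ w v : ℚ, A < w → w ≤ v → (v : ℝ) < B → N w ≤ N v
  att : ∀ w : ℚ, A < w → (w : ℝ) < B → ∀ e : ℝ, 0 < e → e < N w → Bas S (fun J F A' =>
    ∃ γ γc : PtT F → ℝ, MLb F A' y (g J F) ⌊(w : ℝ) * J⌋₊ ⌊(N w - e) * J⌋₊ γ γc)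
  no : ∀ w : ℚ, A < w → (w : ℝ) < B → ∀ e : ℝ, 0 < e → N w + e ≤ 1 → Bas S (fun J F A' =>
    ¬ ∃ γ γc : PtT F → ℝ, MLb F A' y (g J F) ⌊(w : ℝ) * J⌋₊ ⌊(N w + e) * J⌋₊ γ γc)

theorem MNum.subc {S S' : PCl m} {y : Fin m} {g : ∀ (J : ℕ) (F : Fam m J), F.Ω → ℝ} {A B : ℝ}
    {N : ℚ → ℝ} (h : MNum S y g A B N)
    (hs : ∀ (τ : ℝ) (J : ℕ) (F : Fam m J) (A : F.Ω → Prop), S'.St τ J F A → S.St τ J F A) :
    MNum S' y g A B N :=
  ⟨h.n0, h.n1, h.mono, fun w a b e c d => (h.att w a b e c d).sub hs,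
    fun w a b e c d => (h.no w a b e c d).sub hs⟩

/-- **The digits of the own velocity** of `g` over the labels of the window `w`, to the natural
digits of the window `o`. -/
noncomputable def mQ (y : Fin m) (g : ∀ (J : ℕ) (F : Fam m J), F.Ω → ℝ) (N : ℚ → ℝ) (w o : ℚ) :
    Qt m ℤ where
  P _ e J F A u := ∃ γ γc : PtT F → ℝ,
    MLb F A y (g J F) ⌊(w : ℝ) * J⌋₊ ⌊(N w - e) * J⌋₊ γ γc ∧
    ∀ ω, A ω → u ω = ⌊(2 : ℝ) ^ ⌊N o * J⌋₊ * ov F y (g J F) γ γc ω⌋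
  sub := by
    rintro K e J F A B u hB ⟨γ, γc, h1, h2⟩
    exact ⟨γ, γc, h1.sub hB, fun ω hω => h2 ω (hB ω hω)⟩
  mono := by
    rintro K K' e e' J F A u - he ⟨γ, γc, h1, h2⟩
    refine ⟨γ, γc, h1.anti (Nat.floor_le_floor ?_), h2⟩
    exact mul_le_mul_of_nonneg_right (by linarith) (Nat.cast_nonneg J)

/-- The digits of the active velocity. -/
noncomputable def dQ (y : Fin m) (P : ℝ) : Qt m ℤ := Qt.fn fun J F ω => F.D ⌊P * J⌋₊ ω y

end Pool.ONE72
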