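import Pool.Agent.H72.ONE1.Nrf

/-!
# One hop for one event

`Rp`: a height and its velocity are affine over the active coordinate, with coefficients which are
functions of a record. `one_ev`: the conclusion of one hop for the law of an event.
-/

set_option autoImplicit false

namespace Pool.ONE72

open Finset Real
open Pool.Agent.H49.Ent Pool.Agent.H32.Dense Pool.STK Pool.KA Pool.KSAT Pool.K2S Pool.PB Pool.GEN
open Pool.LPX Pool.ONE17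
open Pool.S6C (cnt)

variable {m J : ℕ} {F : Fam m J} {A : F.Ω → Prop} {𝒵 𝒵' φ : Type} {p : F.Ω → ℝ}

/-- **Affine over the active coordinate**, with coefficients which are functions of the record. -/
structure Rp (F : Fam m J) (A : F.Ω → Prop) (y : Fin m) (h g : F.Ω → ℝ) (z : F.Ω → 𝒵)
    (ℓ L Lq : ℕ) (C : ℝ) : Prop where
  ex : ∃ a q c : F.Ω → ℝ,
    (∀ ω ω', A ω → A ω' → z ω = z ω' → a ω = a ω' ∧ q ω = q ω' ∧ c ω = c ω') ∧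
    (∀ ω, A ω → |g ω - a ω - q ω * F.d ω y| * 2 ^ L ≤ C) ∧
    (∀ ω, A ω → |h ω - c ω - q ω * F.x ω y - a ω * F.t ω| * 2 ^ ℓ ≤ C) ∧
    ∀ ω, A ω → |q ω| * 2 ^ Lq ≤ 1

theorem D_eq (F : Fam m J) (j : ℕ) (ω : F.Ω) (k : Fin m) : F.D j ω k = ⌊(2 : ℝ) ^ j * F.d ω k⌋ :=
  rfl

section few

variable {y : Fin m} {h g : F.Ω → ℝ} {z : F.Ω → 𝒵} {ℓ L Lq : ℕ} {C : ℝ}

/-- **The digits of the height are few bits** given the record, the time and the digits of the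
active coordinate. -/
theorem Rp.few_h (hp : IsLaw p) (hpA : ∀ ω, 0 < p ω → A ω) (H : Rp F A y h g z ℓ L Lq C)
    {W : Type} {w : F.Ω → W} (hz : Det p w z) (ht : Det p w F.T) {k n e : ℕ}
    (hy : Det p w (fun ω => F.X k ω y)) (h1 : 2 * C * 2 ^ n ≤ 2 ^ (ℓ + e)) (h2 : n ≤ Lq + k + e) :
    CH p (fun ω => ⌊(2 : ℝ) ^ n * h ω⌋) w ≤ ((e : ℝ) + 4) * Real.log 2 := by
  obtain ⟨a, q, c, e1, -, e3, e4⟩ := H.ex
  have k1 := few_x hp (fun ω => (2 : ℝ) ^ n * h ω) w (e + 1) (by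
    intro ω ω' x x' ew
    have hA := hpA ω x
    have hA' := hpA ω' x'
    obtain ⟨f1, f2, f3⟩ := e1 ω ω' hA hA' (hz ω ω' x x' ew)
    have f4 : F.T ω = F.T ω' := ht ω ω' x x' ew
    have f5 : F.t ω = F.t ω' := by
      unfold Fam.t
      rw [f4]
    have g1 := e3 ω hA
    have g2 := e3 ω' hA'
    rw [← f1, ← f2, ← f3, ← f5] at g2
    have g3 := x_near (hy ω ω' x x' ew)
    have g4 := e4 ω hA
    have pn : (0 : ℝ) < 2 ^ n := by positivity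
    have pl : (0 : ℝ) < 2 ^ ℓ := by positivity
    have pq : (0 : ℝ) < 2 ^ Lq := by positivity
    have pk : (0 : ℝ) < 2 ^ k := by positivity
    obtain ⟨r, hr⟩ : ∃ r, r = h ω - c ω - q ω * F.x ω y - a ω * F.t ω := ⟨_, rfl⟩
    obtain ⟨r', hr'⟩ : ∃ r', r' = h ω' - c ω - q ω * F.x ω' y - a ω * F.t ω := ⟨_, rfl⟩
    rw [← hr] at g1
    rw [← hr'] at g2
    have g5 : h ω - h ω' = (r - r') + q ω * (F.x ω y - F.x ω' y) := by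
      rw [hr, hr']
      ring
    have g6 : |r - r'| * 2 ^ ℓ ≤ 2 * C := by
      have := mul_le_mul_of_nonneg_right (abs_sub r r') pl.le
      linarith
    have g7 : |r - r'| * 2 ^ n ≤ 2 ^ e := by
      have t1 : |r - r'| * 2 ^ ℓ * 2 ^ n ≤ 2 * C * 2 ^ n := mul_le_mul_of_nonneg_right g6 pn.le
      have t2 : |r - r'| * 2 ^ n * 2 ^ ℓ ≤ 2 ^ e * 2 ^ ℓ := by
        rw [← pow_add, add_comm e ℓ]
        linarith
      exact le_of_mul_le_mul_right t2 pl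
    have g8 : |q ω * (F.x ω y - F.x ω' y)| * 2 ^ n ≤ 2 ^ e := by
      rw [abs_mul]
      have t1 : |F.x ω y - F.x ω' y| * 2 ^ k ≤ 1 := by
        rw [le_div_iff₀ pk] at g3
        exact g3
      have t2 : |q ω| * |F.x ω y - F.x ω' y| * (2 ^ Lq * 2 ^ k) ≤ 1 := by
        have : |q ω| * |F.x ω y - F.x ω' y| * (2 ^ Lq * 2 ^ k) =
          (|q ω| * 2 ^ Lq) * (|F.x ω y - F.x ω' y| * 2 ^ k) := by ring
        rw [this]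
        exact mul_le_one₀ g4 (by positivity) t1
      have t3 : (2 : ℝ) ^ n ≤ 2 ^ Lq * 2 ^ k * 2 ^ e := by
        rw [← pow_add, ← pow_add]
        exact pow_le_pow_right₀ (by norm_num) h2
      calc |q ω| * |F.x ω y - F.x ω' y| * 2 ^ n ≤
          |q ω| * |F.x ω y - F.x ω' y| * (2 ^ Lq * 2 ^ k * 2 ^ e) :=
            mul_le_mul_of_nonneg_left t3 (by positivity)
        _ = |q ω| * |F.x ω y - F.x ω' y| * (2 ^ Lq * 2 ^ k) * 2 ^ e := by ring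
        _ ≤ 1 * 2 ^ e := mul_le_mul_of_nonneg_right t2 (by positivity)
        _ = 2 ^ e := one_mul _
    rw [← mul_sub, abs_mul, abs_of_pos pn, g5, mul_comm]
    have g9 := mul_le_mul_of_nonneg_right (abs_add_le (r - r') (q ω * (F.x ω y - F.x ω' y))) pn.le
    rw [pow_succ]
    linarith)
  push_cast at k1
  linarith

/-- **The digits of the velocity are few bits** given the record and the digits of the active
velocity. -/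
theorem Rp.few_g (hp : IsLaw p) (hpA : ∀ ω, 0 < p ω → A ω) (H : Rp F A y h g z ℓ L Lq C)
    {W : Type} {w : F.Ω → W} (hz : Det p w z) {k n e : ℕ}
    (hy : Det p w (fun ω => F.D k ω y)) (h1 : 2 * C * 2 ^ n ≤ 2 ^ (L + e)) (h2 : n ≤ Lq + k + e) :
    CH p (fun ω => ⌊(2 : ℝ) ^ n * g ω⌋) w ≤ ((e : ℝ) + 4) * Real.log 2 := by
  obtain ⟨a, q, c, e1, e3, -, e4⟩ := H.ex
  have k1 := few_x hp (fun ω => (2 : ℝ) ^ n * g ω) w (e + 1) (by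
    intro ω ω' x x' ew
    have hA := hpA ω x
    have hA' := hpA ω' x'
    obtain ⟨f1, f2, f3⟩ := e1 ω ω' hA hA' (hz ω ω' x x' ew)
    have g1 := e3 ω hA
    have g2 := e3 ω' hA'
    rw [← f1, ← f2] at g2
    have e5 : F.D k ω y = F.D k ω' y := hy ω ω' x x' ew
    rw [D_eq, D_eq] at e5
    have g3 := fl_near e5
    have g4 := e4 ω hA
    have pn : (0 : ℝ) < 2 ^ n := by positivity
    have pl : (0 : ℝ) < 2 ^ L := by positivity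
    have pq : (0 : ℝ) < 2 ^ Lq := by positivity
    have pk : (0 : ℝ) < 2 ^ k := by positivity
    obtain ⟨r, hr⟩ : ∃ r, r = g ω - a ω - q ω * F.d ω y := ⟨_, rfl⟩
    obtain ⟨r', hr'⟩ : ∃ r', r' = g ω' - a ω - q ω * F.d ω' y := ⟨_, rfl⟩
    rw [← hr] at g1
    rw [← hr'] at g2
    have g5 : g ω - g ω' = (r - r') + q ω * (F.d ω y - F.d ω' y) := by
      rw [hr, hr']
      ring
    have g6 : |r - r'| * 2 ^ L ≤ 2 * C := by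
      have := mul_le_mul_of_nonneg_right (abs_sub r r') pl.le
      linarith
    have g7 : |r - r'| * 2 ^ n ≤ 2 ^ e := by
      have t1 : |r - r'| * 2 ^ L * 2 ^ n ≤ 2 * C * 2 ^ n := mul_le_mul_of_nonneg_right g6 pn.le
      have t2 : |r - r'| * 2 ^ n * 2 ^ L ≤ 2 ^ e * 2 ^ L := by
        rw [← pow_add, add_comm e L]
        linarith
      exact le_of_mul_le_mul_right t2 pl
    have g8 : |q ω * (F.d ω y - F.d ω' y)| * 2 ^ n ≤ 2 ^ e := by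
      rw [abs_mul]
      have t2 : |q ω| * |F.d ω y - F.d ω' y| * (2 ^ Lq * 2 ^ k) ≤ 1 := by
        have : |q ω| * |F.d ω y - F.d ω' y| * (2 ^ Lq * 2 ^ k) =
          (|q ω| * 2 ^ Lq) * (|F.d ω y - F.d ω' y| * 2 ^ k) := by ring
        rw [this]
        exact mul_le_one₀ g4 (by positivity) g3
      have t3 : (2 : ℝ) ^ n ≤ 2 ^ Lq * 2 ^ k * 2 ^ e := by
        rw [← pow_add, ← pow_add]
        exact pow_le_pow_right₀ (by norm_num) h2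
      calc |q ω| * |F.d ω y - F.d ω' y| * 2 ^ n ≤
          |q ω| * |F.d ω y - F.d ω' y| * (2 ^ Lq * 2 ^ k * 2 ^ e) :=
            mul_le_mul_of_nonneg_left t3 (by positivity)
        _ = |q ω| * |F.d ω y - F.d ω' y| * (2 ^ Lq * 2 ^ k) * 2 ^ e := by ring
        _ ≤ 1 * 2 ^ e := mul_le_mul_of_nonneg_right t2 (by positivity)
        _ = 2 ^ e := one_mul _
    rw [← mul_sub, abs_mul, abs_of_pos pn, g5, mul_comm]
    have g9 := mul_le_mul_of_nonneg_right (abs_add_le (r - r') (q ω * (F.d ω y - F.d ω' y))) pn.le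
    rw [pow_succ]
    linarith)
  push_cast at k1
  linarith

end few

/-- The digits of the active coordinate behind a window. -/
theorem few_y (hp : IsLaw p) (y : Fin m) {W : Type} {w : F.Ω → W} {k n : ℕ} (hkn : k ≤ n)
    (hy : Det p w (fun ω => F.X k ω y)) :
    CH p (fun ω => F.X n ω y) w ≤ (((n : ℝ) - k) + 3) * Real.log 2 := by
  have k1 := few_x hp (fun ω => (2 : ℝ) ^ n * F.x ω y) w (n - k) (by
    intro ω ω' x x' ew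
    have g3 := x_near (hy ω ω' x x' ew)
    have pn : (0 : ℝ) < 2 ^ n := by positivity
    have pk : (0 : ℝ) < 2 ^ k := by positivity
    rw [← mul_sub, abs_mul, abs_of_pos pn]
    rw [le_div_iff₀ pk] at g3
    have e1 : (2 : ℝ) ^ n = 2 ^ k * 2 ^ (n - k) := by
      rw [← pow_add]
      congr 1
      omega
    rw [e1]
    calc (2 : ℝ) ^ k * 2 ^ (n - k) * |F.x ω y - F.x ω' y| =
        |F.x ω y - F.x ω' y| * 2 ^ k * 2 ^ (n - k) := by ring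
      _ ≤ 1 * 2 ^ (n - k) := mul_le_mul_of_nonneg_right g3 (by positivity)
      _ = 2 ^ (n - k) := one_mul _)
  have e2 : ((n - k : ℕ) : ℝ) = (n : ℝ) - k := Nat.cast_sub hkn
  rw [e2] at k1
  exact k1

/-- **The finer digits of the ball.** -/
noncomputable def bf (F : Fam m J) (y : Fin m) (z : F.Ω → 𝒵) (hu hv hn gu gv gn : F.Ω → ℝ)
    (w X mm Na Lu Lv Ln : ℕ) (ω : F.Ω) : 𝒵 × (ℤ × (ℤ × (ℤ × (ℤ × (ℤ × (ℤ × (ℤ × ℤ))))))) :=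
  (z ω, (⌊(2 : ℝ) ^ Na * gn ω⌋, (⌊(2 : ℝ) ^ (w + (Ln + X)) * hn ω⌋,
    (⌊(2 : ℝ) ^ (w + mm) * F.x ω y⌋, (⌊(2 : ℝ) ^ mm * F.d ω y⌋,
    (⌊(2 : ℝ) ^ (w + Lu + mm) * hu ω⌋, (⌊(2 : ℝ) ^ (Lu + mm) * gu ω⌋,
    (⌊(2 : ℝ) ^ (w + Lv + mm) * hv ω⌋, ⌊(2 : ℝ) ^ (Lv + mm) * gv ω⌋))))))))

/-- **The finer digits of the ball are few bits.** -/
theorem bf_few (hp : IsLaw p) (hpA : ∀ ω, 0 < p ω → A ω) {y : Fin m} {z : F.Ω → 𝒵}
    {z' : F.Ω → 𝒵'} {hu hv hn gu gv gn : F.Ω → ℝ} {w w' X mm P Na Lu Lv Ln e : ℕ}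
    {ℓu' ℓv' ℓn' Lu' Lv' Ln' su sv sn : ℕ} {C : ℝ} (hzz : Det p z' z)
    (hy : Det p z' (fun ω => F.X w' ω y)) (hmP : mm ≤ P) (hmw : w + mm ≤ w')
    (ru : Rp F A y hu gu z' ℓu' Lu' su C) (rv : Rp F A y hv gv z' ℓv' Lv' sv C)
    (rn : Rp F A y hn gn z' ℓn' Ln' sn C)
    (n1 : 2 * C * 2 ^ Na ≤ 2 ^ (Ln' + e)) (n2 : Na ≤ sn + P + e)
    (n3 : 2 * C * 2 ^ (w + (Ln + X)) ≤ 2 ^ (ℓn' + e)) (n4 : w + (Ln + X) ≤ sn + w' + e)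
    (u1 : 2 * C * 2 ^ (w + Lu + mm) ≤ 2 ^ (ℓu' + e)) (u2 : w + Lu + mm ≤ su + w' + e)
    (u3 : 2 * C * 2 ^ (Lu + mm) ≤ 2 ^ (Lu' + e)) (u4 : Lu + mm ≤ su + P + e)
    (v1 : 2 * C * 2 ^ (w + Lv + mm) ≤ 2 ^ (ℓv' + e)) (v2 : w + Lv + mm ≤ sv + w' + e)
    (v3 : 2 * C * 2 ^ (Lv + mm) ≤ 2 ^ (Lv' + e)) (v4 : Lv + mm ≤ sv + P + e) :
    CH p (bf F y z hu hv hn gu gv gn w X mm Na Lu Lv Ln)
      (fun ω => (F.D P ω y, (z' ω, F.W ω))) ≤ 6 * (((e : ℝ) + 4) * Real.log 2) := by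
  have h0 := hp.nonneg
  obtain ⟨W, hW⟩ : ∃ W : F.Ω → ℤ × (𝒵' × (ℕ × F.ζ)), W = fun ω =>
    (F.D P ω y, (z' ω, F.W ω)) := ⟨_, rfl⟩
  have dz : Det p W z' := fun ω ω' _ _ e => by
    rw [hW] at e
    exact (Prod.mk.inj (Prod.mk.inj e).2).1
  have dt : Det p W F.T := fun ω ω' _ _ e => by
    rw [hW] at e
    exact congrArg Prod.fst (Prod.mk.inj (Prod.mk.inj e).2).2
  have dd : Det p W (fun ω => F.D P ω y) := fun ω ω' _ _ e => by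
    rw [hW] at e
    exact (Prod.mk.inj e).1
  have dy : Det p W (fun ω => F.X w' ω y) := fun ω ω' a b e => hy ω ω' a b (dz ω ω' a b e)
  rw [← hW]
  have a1 := rn.few_g hp hpA dz dd n1 n2
  have a2 := rn.few_h hp hpA dz dt dy n3 n4
  have a3 : CH p (fun ω => ⌊(2 : ℝ) ^ (w + mm) * F.x ω y⌋) W ≤ 0 := by
    refine le_of_eq (CH_eq_zero h0 fun ω ω' a b e => ?_)
    have e1 := dy ω ω' a b e
    exact Pool.MM97.fl_coarse hmw e1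
  have a4 : CH p (fun ω => ⌊(2 : ℝ) ^ mm * F.d ω y⌋) W ≤ 0 := by
    refine le_of_eq (CH_eq_zero h0 fun ω ω' a b e => ?_)
    have e1 := dd ω ω' a b e
    exact Pool.MM97.fl_coarse hmP e1
  have a5 := ru.few_h hp hpA dz dt dy u1 u2
  have a6 := ru.few_g hp hpA dz dd u3 u4
  have a7 := rv.few_h hp hpA dz dt dy v1 v2
  have a8 := rv.few_g hp hpA dz dd v3 v4
  have a0 : CH p z W ≤ 0 := by
    refine le_of_eq (CH_eq_zero h0 fun ω ω' a b e => hzz ω ω' a b (dz ω ω' a b e))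
  unfold bf
  have s1 := CH_subadd h0 z (fun ω => (⌊(2 : ℝ) ^ Na * gn ω⌋, (⌊(2 : ℝ) ^ (w + (Ln + X)) * hn ω⌋,
    (⌊(2 : ℝ) ^ (w + mm) * F.x ω y⌋, (⌊(2 : ℝ) ^ mm * F.d ω y⌋,
    (⌊(2 : ℝ) ^ (w + Lu + mm) * hu ω⌋, (⌊(2 : ℝ) ^ (Lu + mm) * gu ω⌋,
    (⌊(2 : ℝ) ^ (w + Lv + mm) * hv ω⌋, ⌊(2 : ℝ) ^ (Lv + mm) * gv ω⌋)))))))) W
  have s2 := CH_subadd h0 (fun ω => ⌊(2 : ℝ) ^ Na * gn ω⌋)
    (fun ω => (⌊(2 : ℝ) ^ (w + (Ln + X)) * hn ω⌋,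
    (⌊(2 : ℝ) ^ (w + mm) * F.x ω y⌋, (⌊(2 : ℝ) ^ mm * F.d ω y⌋,
    (⌊(2 : ℝ) ^ (w + Lu + mm) * hu ω⌋, (⌊(2 : ℝ) ^ (Lu + mm) * gu ω⌋,
    (⌊(2 : ℝ) ^ (w + Lv + mm) * hv ω⌋, ⌊(2 : ℝ) ^ (Lv + mm) * gv ω⌋))))))) W
  have s3 := CH_subadd h0 (fun ω => ⌊(2 : ℝ) ^ (w + (Ln + X)) * hn ω⌋)
    (fun ω => (⌊(2 : ℝ) ^ (w + mm) * F.x ω y⌋, (⌊(2 : ℝ) ^ mm * F.d ω y⌋,
    (⌊(2 : ℝ) ^ (w + Lu + mm) * hu ω⌋, (⌊(2 : ℝ) ^ (Lu + mm) * gu ω⌋,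
    (⌊(2 : ℝ) ^ (w + Lv + mm) * hv ω⌋, ⌊(2 : ℝ) ^ (Lv + mm) * gv ω⌋)))))) W
  have s4 := CH_subadd h0 (fun ω => ⌊(2 : ℝ) ^ (w + mm) * F.x ω y⌋)
    (fun ω => (⌊(2 : ℝ) ^ mm * F.d ω y⌋,
    (⌊(2 : ℝ) ^ (w + Lu + mm) * hu ω⌋, (⌊(2 : ℝ) ^ (Lu + mm) * gu ω⌋,
    (⌊(2 : ℝ) ^ (w + Lv + mm) * hv ω⌋, ⌊(2 : ℝ) ^ (Lv + mm) * gv ω⌋))))) W
  have s5 := CH_subadd h0 (fun ω => ⌊(2 : ℝ) ^ mm * F.d ω y⌋)
    (fun ω => (⌊(2 : ℝ) ^ (w + Lu + mm) * hu ω⌋, (⌊(2 : ℝ) ^ (Lu + mm) * gu ω⌋,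
    (⌊(2 : ℝ) ^ (w + Lv + mm) * hv ω⌋, ⌊(2 : ℝ) ^ (Lv + mm) * gv ω⌋)))) W
  have s6 := CH_subadd h0 (fun ω => ⌊(2 : ℝ) ^ (w + Lu + mm) * hu ω⌋)
    (fun ω => (⌊(2 : ℝ) ^ (Lu + mm) * gu ω⌋,
    (⌊(2 : ℝ) ^ (w + Lv + mm) * hv ω⌋, ⌊(2 : ℝ) ^ (Lv + mm) * gv ω⌋))) W
  have s7 := CH_subadd h0 (fun ω => ⌊(2 : ℝ) ^ (Lu + mm) * gu ω⌋)
    (fun ω => (⌊(2 : ℝ) ^ (w + Lv + mm) * hv ω⌋, ⌊(2 : ℝ) ^ (Lv + mm) * gv ω⌋)) W
  have s8 := CH_subadd h0 (fun ω => ⌊(2 : ℝ) ^ (w + Lv + mm) * hv ω⌋)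
    (fun ω => ⌊(2 : ℝ) ^ (Lv + mm) * gv ω⌋) W
  linarith

end Pool.ONE72
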