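import Pool.Agent.H28.ONE.Gn
import Pool.Agent.H27.TOP.Rt

/-!
# The thresholds of the modified target from above

`num_up`: the threshold of the own velocity of the modified target is at most the one of the
target.
-/

set_option autoImplicit false

namespace Pool.ONE72

open Finset Real
open Pool.Agent.H49.Ent Pool.Agent.H32.Dense Pool.STK Pool.KA Pool.KSAT Pool.K2S Pool.PB Pool.GEN
open Pool.S6C Pool.LA91 Pool.RCD Pool.OWN72
open Pool.LBT (ThrOf)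
open Pool.ONE (tgs)

variable {m : ℕ}

/-- **The thresholds from above.** -/
theorem num_up {S : PCl m} (hS : S.Ne) {C₀ : ℝ} (htm : TmC S C₀) {y u v t : Fin m}
    (hyu : y ≠ u) (hyv : y ≠ v) (hyt : y ≠ t) (huv : u ≠ v) (hut : u ≠ t) (hvt : v ≠ t)
    (hactF : Pool.MIC6.ActF S y) {Pt : ℝ → ℝ → ℝ} (hT : ThrOf (tgs t) S (fun _ => Pt))
    {κ : ∀ (J : ℕ) (F : Fam m J), PtT F → Fin m → ℝ} {A₀ E : ℝ}
    (hκ : Bas S (fun J F A => ∀ k ∈ ({u, v} : Finset (Fin m)),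
      Cl1 F A ⌊A₀ * J⌋₊ (fun s => κ J F s k) ∧
      ∀ ω, A ω → |κ J F (ptr F J ω) k| ≤ 2 ^ ⌊E * J⌋₊))
    {A B : ℝ} {N : ℚ → ℝ} (hN : MNum S y (fun J F ω => F.d ω t - κ J F (ptr F J ω) u * F.d ω u -
      κ J F (ptr F J ω) v * F.d ω v) A B N) {w : ℚ} (hw0 : (0 : ℝ) < w) (hA₀ : A₀ ≤ w)
    (hAw : A < w) (hwB : (w : ℝ) < B) (hE0 : 0 ≤ E) {a' : ℝ} (hwa : (w : ℝ) < a') (ha' : a' ≤ 1)
    (hPE : Pt a' a' + E < 1) : N w ≤ Pt a' a' - w := by
  classical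
  by_contra hcon
  push Not at hcon
  have hlow : a' ≤ Pt a' a' := hT.low () a' a' (by linarith) le_rfl ha'
  obtain ⟨δ, hδ⟩ : ∃ δ, δ = min ((N w - (Pt a' a' - w)) / 2) ((1 - Pt a' a' - E) / 4) := ⟨_, rfl⟩
  have hδ0 : 0 < δ := by
    rw [hδ]
    exact lt_min (by linarith) (by linarith)
  have hδ1 : 2 * δ ≤ N w - (Pt a' a' - w) := by
    have : δ ≤ (N w - (Pt a' a' - w)) / 2 := by rw [hδ]; exact min_le_left _ _
    linarith
  have hδ2 : 4 * δ ≤ 1 - Pt a' a' - E := by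
    have : δ ≤ (1 - Pt a' a' - E) / 4 := by rw [hδ]; exact min_le_right _ _
    linarith
  obtain ⟨M, hM⟩ : ∃ M, M = Pt a' a' - w + δ := ⟨_, rfl⟩
  have hM0 : 0 < M := by linarith
  have hatt := hN.att w hAw hwB δ hδ0 (by linarith)
  obtain ⟨s, hs⟩ : ∃ s, s = δ / 2 := ⟨_, rfl⟩
  have hs0 : 0 < s := by linarith
  have hcf := cf_zero htm hactF w s (1 / 4) hs0 (by norm_num)
  obtain ⟨J₀, hJ₀⟩ := exists_nat_ge (8 / δ)
  have htI : t ∉ ({y, u, v} : Finset (Fin m)) := by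
    simp only [Finset.mem_insert, Finset.mem_singleton, not_or]
    exact ⟨hyt.symm, hut.symm, hvt.symm⟩
  have hnl := nlb_tgs hT htI hw0 hwa ha' (M := M) (e := E + δ) (κ₀ := 3 / 4)
    (by rw [hM]; linarith) (by linarith) (by rw [hM]; linarith) (by norm_num)
  refine Pool.TOP.bas_no hS (Bas.mono J₀ (((hatt.and hcf).and hnl).and hκ) ?_)
  rintro J hJ F A' ⟨⟨⟨⟨γ, γc, hlb⟩, hc⟩, hno⟩, hkap⟩
  have hJr : (J₀ : ℝ) ≤ J := by exact_mod_cast hJ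
  have hJ0 : (0 : ℝ) ≤ J := Nat.cast_nonneg J
  have hsJ : 8 ≤ δ * J := by
    have h1 : 8 / δ ≤ (J : ℝ) := hJ₀.trans hJr
    rw [div_le_iff₀ hδ0] at h1
    linarith
  have f1 : (⌊(0 + s) * (J : ℝ)⌋₊ : ℝ) ≤ s * J := by
    rw [zero_add]
    exact Nat.floor_le (by positivity)
  have f5 : (⌊E * (J : ℝ)⌋₊ : ℝ) ≤ E * J := Nat.floor_le (by positivity)
  have f6 : (E + δ) * (J : ℝ) - 1 < ⌊(E + δ) * (J : ℝ)⌋₊ := Nat.sub_one_lt_floor _
  have g2 : ⌊(0 + s) * (J : ℝ)⌋₊ + ⌊E * (J : ℝ)⌋₊ + 2 ≤ ⌊(E + δ) * (J : ℝ)⌋₊ := by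
    have h2 : ((⌊(0 + s) * (J : ℝ)⌋₊ + ⌊E * (J : ℝ)⌋₊ + 2 : ℕ) : ℝ) ≤
        ((⌊(E + δ) * (J : ℝ)⌋₊ : ℕ) : ℝ) := by
      push_cast
      have : s * J = δ * J / 2 := by rw [hs]; ring
      linarith
    exact_mod_cast h2
  have g3 : ⌊M * (J : ℝ)⌋₊ ≤ ⌊(N w - δ) * (J : ℝ)⌋₊ :=
    Nat.floor_le_floor (mul_le_mul_of_nonneg_right (by rw [hM]; linarith) hJ0)
  have g7 : ⌊A₀ * J⌋₊ ≤ ⌊(w : ℝ) * J⌋₊ :=
    Nat.floor_le_floor (mul_le_mul_of_nonneg_right hA₀ hJ0)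
  have g6 : ⌊(w : ℝ) * J⌋₊ ≤ J :=
    Nat.floor_le_of_le (mul_le_of_le_one_left hJ0 (by linarith))
  obtain ⟨gf, hgf⟩ : ∃ gf : F.Ω → ℝ, gf = fun ω => F.d ω t - κ J F (ptr F J ω) u * F.d ω u -
    κ J F (ptr F J ω) v * F.d ω v := ⟨_, rfl⟩
  rw [← hgf] at hlb
  -- the sizes
  have hrel : ∀ ω, A' ω → |γc (ptr F J ω) + ∑ k ∈ ({y} : Finset (Fin m)),
      γ (ptr F J ω) * F.d ω k| ≤ 4 * 2 ^ ⌊E * (J : ℝ)⌋₊ := by
    intro ω hω
    have r2 := hlb.rep ω hω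
    have r3 : (1 : ℝ) / 2 ^ ⌊(N w - δ) * (J : ℝ)⌋₊ ≤ 1 := by
      rw [div_le_one (by positivity)]
      exact one_le_pow₀ (by norm_num)
    unfold ov at r2
    rw [Finset.sum_singleton]
    have k1 := (hkap u (by simp)).2 ω hω
    have k2 := (hkap v (by simp)).2 ω hω
    have d1 : |κ J F (ptr F J ω) u * F.d ω u| ≤ 2 ^ ⌊E * (J : ℝ)⌋₊ := by
      rw [abs_mul]
      exact (mul_le_of_le_one_right (abs_nonneg _) (F.dir ω u)).trans k1
    have d2 : |κ J F (ptr F J ω) v * F.d ω v| ≤ 2 ^ ⌊E * (J : ℝ)⌋₊ := by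
      rw [abs_mul]
      exact (mul_le_of_le_one_right (abs_nonneg _) (F.dir ω v)).trans k2
    have d3 := F.dir ω t
    have d4 : (1 : ℝ) ≤ 2 ^ ⌊E * (J : ℝ)⌋₊ := one_le_pow₀ (by norm_num)
    have d5 : |gf ω| ≤ 1 + 2 * 2 ^ ⌊E * (J : ℝ)⌋₊ := by
      rw [hgf]
      refine (abs_sub _ _).trans ?_
      have := abs_sub (F.d ω t) (κ J F (ptr F J ω) u * F.d ω u)
      linarith
    have e1 : γc (ptr F J ω) + γ (ptr F J ω) * F.d ω y =
        gf ω - (gf ω - γc (ptr F J ω) - γ (ptr F J ω) * F.d ω y) := by ring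
    rw [e1]
    refine (abs_sub _ _).trans ?_
    linarith
  obtain ⟨B, hB1, hB2, hB3⟩ := hc (fun p _ => γ p) γc (4 * 2 ^ ⌊E * (J : ℝ)⌋₊) (by positivity)
    (fun k _ => hlb.ca) hlb.cc hrel
  have big : ∀ r : ℝ, |r| ≤ 4 * 2 ^ ⌊E * (J : ℝ)⌋₊ * 2 ^ ⌊(0 + s) * (J : ℝ)⌋₊ →
      |r| ≤ 2 ^ ⌊(E + δ) * (J : ℝ)⌋₊ := by
    intro r hr
    refine hr.trans ?_
    have h3 : (2 : ℝ) ^ (⌊(0 + s) * (J : ℝ)⌋₊ + ⌊E * (J : ℝ)⌋₊ + 2) ≤ 2 ^ ⌊(E + δ) * (J : ℝ)⌋₊ :=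
      pow_le_pow_right₀ (by norm_num) g2
    rw [pow_add, pow_add] at h3
    linarith
  have hEE' : (2 : ℝ) ^ ⌊E * (J : ℝ)⌋₊ ≤ 2 ^ ⌊(E + δ) * (J : ℝ)⌋₊ :=
    pow_le_pow_right₀ (by norm_num) (by omega)
  obtain ⟨a, ha⟩ : ∃ a : PtT F → Fin m → ℝ, a = fun s k => if k = y then γ s else κ J F s k :=
    ⟨_, rfl⟩
  have hcl : ∀ k ∈ ({y, u, v} : Finset (Fin m)), Cl1 F A' ⌊(w : ℝ) * J⌋₊ (fun p => a p k) := by
    intro k hk
    by_cases hky : k = y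
    · have e1 : (fun s => a s k) = γ := by
        funext s
        rw [ha]
        exact if_pos hky
      rw [e1]
      exact hlb.ca
    · have e1 : (fun s => a s k) = fun s => κ J F s k := by
        funext s
        rw [ha]
        exact if_neg hky
      rw [e1]
      have hk' : k ∈ ({u, v} : Finset (Fin m)) := by
        simp only [Finset.mem_insert, Finset.mem_singleton] at hk ⊢
        tauto
      exact ((hkap k hk').1).win g7 g6
  choose! f hf using hcl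
  refine hno B a γc (fun s k => f k s) hB1 (by linarith) ?_ ?_
  · intro ω hω
    refine ⟨fun k hk => ?_, big _ (hB3 ω hω).2, ?_⟩
    · by_cases hky : k = y
      · have e1 : a (ptr F J ω) k = γ (ptr F J ω) := by
          rw [ha]
          exact if_pos hky
        rw [e1]
        exact big _ ((hB3 ω hω).1 y (by simp))
      · have e1 : a (ptr F J ω) k = κ J F (ptr F J ω) k := by
          rw [ha]
          exact if_neg hky
        rw [e1]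
        have hk' : k ∈ ({u, v} : Finset (Fin m)) := by
          simp only [Finset.mem_insert, Finset.mem_singleton] at hk ⊢
          tauto
        exact ((hkap k hk').2 ω (hB1 ω hω)).trans hEE'
    · have r2 := hlb.rep ω (hB1 ω hω)
      have r3 : (1 : ℝ) / 2 ^ ⌊(N w - δ) * (J : ℝ)⌋₊ ≤ 1 / 2 ^ ⌊M * (J : ℝ)⌋₊ :=
        one_div_le_one_div_of_le (by positivity) (pow_le_pow_right₀ (by norm_num) g3)
      have how : F.d ω t - γc (ptr F J ω) - ∑ k ∈ ({y, u, v} : Finset (Fin m)),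
          a (ptr F J ω) k * F.d ω k = ov F y gf γ γc ω := by
        unfold ov
        rw [Finset.sum_insert (by simp [hyu, hyv]), Finset.sum_insert (by simp [huv]),
          Finset.sum_singleton, ha, hgf]
        simp only [if_true, if_neg hyu.symm, if_neg hyv.symm]
        ring
      rw [how]
      exact r2.trans r3
  · intro ω hω k hk
    have h1 := hf k hk ω (hB1 ω hω)
    simp only at h1
    rw [h1, sub_self, abs_zero]
    positivity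

end Pool.ONE72
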