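import Pool.Agent.H72.ONE1.Loc0
import Pool.Agent.H72.ONE1.Nup
import Pool.Agent.H55.ONE.Nfd
import Pool.Agent.H91.ONE.LvT

/-!
# The windows with a tie in the base above the target are void

`one_loc`: the local statement `OneLoc`. `lVoT`: `LVoX BtT 4`.
-/

set_option autoImplicit false

namespace Pool.ONE72

open Finset Real
open Pool.Agent.H49.Ent Pool.Agent.H32.Dense Pool.STK Pool.KA Pool.KSAT Pool.K2S Pool.PB Pool.GEN
open Pool.S6C Pool.LA91 Pool.RCD Pool.OWN72 Pool.MM97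

/-- **A window with a tie in the base above the target is impossible.** -/
theorem one_loc : Pool.ONE63.OneLoc := by
  intro Sl σ h c₀ hσ hSl hS2 hh hh1 hc₀
  obtain ⟨e₁, he₁, ϖ, hϖ, key⟩ := one_loc0 hσ hSl hS2 hh hh1 hc₀
  refine ⟨e₁, he₁, ?_⟩
  intro S C₀ x₀ y u v t Wd d1 d2 Pt rr g ρ₀ E E₀ a₀ M₀ κ κc N hS htm hpos hyu hyv hyt huv hut hvt
    hactF hx₀ hact hT hr hrd hrD hX hρ₀ hd1 hd12 hd2 hE₀ hPE hex ha₀ _ haρ hag hM₀ hM₁ hκ hN hR
    hI hF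
  have hκb : Bas S (fun J F A => ∀ k ∈ ({u, v} : Finset (Fin 4)),
      Cl1 F A ⌊a₀ * J⌋₊ (fun s => κ J F s k) ∧
      ∀ ω, A ω → |κ J F (ptr F J ω) k| ≤ 2 ^ ⌊E₀ * J⌋₊) := by
    refine ⟨1, one_pos, 0, fun J _ F A hA k hk => ?_⟩
    have h1 := hκ 1 J F A hA
    have hk' : k ∈ ({y, u, v} : Finset (Fin 4)) := by
      simp only [Finset.mem_insert, Finset.mem_singleton] at hk ⊢
      tauto
    exact ⟨h1.ca k hk', fun ω hω => (h1.dp ω hω).1 k hk'⟩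
  refine key hS htm hpos hyu hyv hyt huv hut hvt hactF hx₀ hact hT hrd hrD hX hρ₀ hd1 hd12 hd2 hE₀
    hPE (fun a ha haρ' ρ η hρ hη => ?_) ha₀ haρ hag hM₀ hM₁ hκ hN (fun w a' h1 h2 h3 h4 h5 => ?_) hR
    hI hF
  · have ha1 : a ≤ 1 := by linarith [(abs_le.1 haρ').2, hX.one]
    refine Bas.mono 0 (Pool.ONE55.nfb_cls htm hyu hyv hyt huv hut hvt hr ha1 one_pos hϖ hη
      (hex a ha haρ' ρ hρ)) fun J _ F A h => ?_
    exact h A (fun _ h => h) (by rw [one_mul])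
  · have h6 := hX.pos
    exact num_up hS htm hyu hyv hyt huv hut hvt hactF hT hκb hN (by linarith) h1.le h1 h2 hE₀ h3 h4
      h5

/-- **The windows** `BtT` **are void in dimension four.** -/
theorem lVoT : Pool.ASM.LVoX Pool.ASM.BtT 4 := Pool.ONE91.lVoT_loc one_loc

end Pool.ONE72

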