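import Pool.Agent.H32.Dense.EntX
import Pool.Agent.H91.LA.Fml

/-!
# The row over a matched context: entropies

`ch_tr`: transitivity. `row_law`: the row of `N₁` over the digits `N₀` and the context `K` from the
row over the exact positions `X` and the time `T`; the positions are free given the record `Z` and
the time, the context is few bits given the record, the time and some more digits `Y`.
`CH_fl`: an integer which is near a function of `W`, off a small event.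
-/

set_option autoImplicit false

namespace Pool.ONE72

open Finset Real
open Pool.Agent.H49.Ent Pool.Agent.H32.Dense Pool.STK

section law

variable {Ω 𝒩₀ 𝒩₁ 𝒳 𝒯 𝒦 𝒵 𝒴 α β γ : Type} [Fintype Ω] {p : Ω → ℝ}

/-- **Transitivity.** -/
theorem ch_tr (hp : ∀ ω, 0 ≤ p ω) (X : Ω → α) (Y : Ω → β) (W : Ω → γ) :
    CH p X W ≤ CH p X Y + CH p Y W := by
  have h1 := CH_le_add hp X Y W
  have h2 : CH p X (fun ω => (Y ω, W ω)) ≤ CH p X Y :=
    CH_mono_cond hp fun ω ω' _ _ h => (Prod.mk.inj h).1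
  linarith

/-- **The row over a matched context.** -/
theorem row_law (hp : IsLaw p) (N₀ : Ω → 𝒩₀) (N₁ : Ω → 𝒩₁) (X : Ω → 𝒳) (T : Ω → 𝒯) (K : Ω → 𝒦)
    (Z : Ω → 𝒵) (Y : Ω → 𝒴) {Ex₀ δ s τ d row : ℝ} (h01 : Det p N₁ N₀)
    (ha : Ex₀ ≤ CH p X (fun ω => (Z ω, T ω)))
    (hb : CH p (fun ω => (N₁ ω, K ω)) (fun ω => (Y ω, (Z ω, T ω))) ≤ δ)
    (hs : CH p Y (fun ω => (Z ω, T ω)) ≤ s)
    (hc : τ ≤ CH p T (fun ω => (N₁ ω, K ω)))
    (hd : CH p (fun ω => (X ω, T ω)) (fun ω => (N₀ ω, K ω)) ≤ d)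
    (he : CH p N₁ (fun ω => (N₀ ω, (X ω, (T ω, K ω)))) ≤ row) :
    CH p N₁ (fun ω => (N₀ ω, K ω)) ≤ row + d - τ - (Ex₀ - s - δ) := by
  have h0 := hp.nonneg
  -- the pair
  have a1 := CH_chain h0 N₁ (fun ω => (X ω, T ω)) (fun ω => (N₀ ω, K ω))
  have a2 := CH_chain h0 (fun ω => (X ω, T ω)) N₁ (fun ω => (N₀ ω, K ω))
  have a3 : CH p (fun ω => (N₁ ω, (X ω, T ω))) (fun ω => (N₀ ω, K ω)) =
      CH p (fun ω => ((X ω, T ω), N₁ ω)) (fun ω => (N₀ ω, K ω)) :=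
    CH_congr h0 (fun ω ω' _ _ h => by simp only [Prod.mk.injEq] at h ⊢; tauto)
      (fun ω ω' _ _ h => by simp only [Prod.mk.injEq] at h ⊢; tauto)
      (fun ω ω' _ _ h => h) (fun ω ω' _ _ h => h)
  have a4 : CH p N₁ (fun ω => ((X ω, T ω), (N₀ ω, K ω))) ≤ row := by
    refine le_trans (CH_mono_cond h0 fun ω ω' _ _ h => ?_) he
    simp only [Prod.mk.injEq] at h ⊢
    tauto
  have a5 : CH p (fun ω => (X ω, T ω)) (fun ω => (N₁ ω, K ω)) ≤
      CH p (fun ω => (X ω, T ω)) (fun ω => (N₁ ω, (N₀ ω, K ω))) := by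
    refine CH_mono_cond h0 fun ω ω' x y h => ?_
    simp only [Prod.mk.injEq] at h ⊢
    exact ⟨h.1, h01 ω ω' x y h.1, h.2⟩
  have a6 := CH_chain h0 X T (fun ω => (N₁ ω, K ω))
  -- the positions
  have b1 : CH p X (fun ω => ((N₁ ω, K ω), (Y ω, (Z ω, T ω)))) ≤
      CH p X (fun ω => (T ω, (N₁ ω, K ω))) :=
    CH_mono_cond h0 fun ω ω' _ _ h => by simp only [Prod.mk.injEq] at h ⊢; tauto
  have b2 := CH_le_add h0 X (fun ω => (N₁ ω, K ω)) (fun ω => (Y ω, (Z ω, T ω)))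
  have b3 := CH_le_add h0 X Y (fun ω => (Z ω, T ω))
  linarith

end law

section near

open Pool.BFL (Pb)
open Pool.LA91 (CH_near)
open Pool.S6C (cnt)
open Pool.RCD (cset cset_card)

variable {Ω γ : Type} [Fintype Ω] {p : Ω → ℝ}

/-- The number of values of a bounded integer. -/
theorem cnt_bd (X : Ω → ℤ) {R : ℝ} (hR : 0 ≤ R)
    (h : ∀ ω, 0 < p ω → |(X ω : ℝ)| ≤ R) : (cnt p X (fun _ => True) : ℝ) ≤ 2 * R + 1 := by
  classical
  rw [← cset_card]
  have h1 : cset p X (fun _ => True) ⊆ Finset.Icc ⌈-R⌉ ⌊R⌋ := by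
    intro x hx
    obtain ⟨ω, h2, -, h3⟩ := Pool.RCD.of_mem_cset hx
    have h4 := abs_le.1 (h ω h2)
    rw [Finset.mem_Icc]
    subst h3
    exact ⟨Int.ceil_le.2 h4.1, Int.le_floor.2 h4.2⟩
  have h2 : ((cset p X (fun _ => True)).card : ℝ) ≤ (Finset.Icc ⌈-R⌉ ⌊R⌋).card := by
    exact_mod_cast Finset.card_le_card h1
  refine h2.trans ?_
  rw [Int.card_Icc]
  have h5 : (⌊R⌋ : ℝ) ≤ R := Int.floor_le R
  have h6 : (-R : ℝ) ≤ ⌈-R⌉ := Int.le_ceil _
  have h7 : (0 : ℤ) ≤ ⌊R⌋ + 1 - ⌈-R⌉ := by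
    have h8 : ⌈-R⌉ ≤ 0 := Int.ceil_le.2 (by push_cast; linarith)
    have h9 : 0 ≤ ⌊R⌋ := Int.floor_nonneg.2 hR
    omega
  have h10 : (((⌊R⌋ + 1 - ⌈-R⌉).toNat : ℕ) : ℝ) = ((⌊R⌋ + 1 - ⌈-R⌉ : ℤ) : ℝ) := by
    have := Int.toNat_of_nonneg h7
    exact_mod_cast congrArg (Int.cast (R := ℝ)) this
  rw [h10]
  push_cast
  linarith

/-- **The floor of a number which is near a function of** `W`, off a small event. -/
theorem CH_fl (hp : IsLaw p) (x : Ω → ℝ) (W : Ω → γ) (φ : γ → ℝ) (Bad : Ω → Prop) {η R D : ℝ}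
    (hη : Pb p Bad ≤ η) (hR : 0 ≤ R) (hD : 0 ≤ D) (hx : ∀ ω, 0 < p ω → |x ω| ≤ R)
    (hg : ∀ ω, 0 < p ω → ¬ Bad ω → |x ω - φ (W ω)| ≤ D) :
    CH p (fun ω => ⌊x ω⌋) W ≤ Real.log 2 + Real.log (2 * D + 3) +
      η * Real.log (2 * R + 3) := by
  have h1 := CH_near hp (fun ω => ⌊x ω⌋) W φ Bad (η := η) (M := Real.log (2 * R + 3))
    (D := D + 1) hη (Real.log_nonneg (by linarith)) (by linarith) (by
      rw [Real.exp_log (by linarith)]
      have h2 := cnt_bd (p := p) (fun ω => ⌊x ω⌋) (R := R + 1) (by linarith) (fun ω hω => by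
        have h3 := abs_le.1 (hx ω hω)
        have h4 := Int.floor_le (x ω)
        have h5 := Int.lt_floor_add_one (x ω)
        rw [abs_le]
        constructor <;> linarith)
      linarith) (fun ω a b => by
      have h3 := abs_le.1 (hg ω a b)
      have h4 := Int.floor_le (x ω)
      have h5 := Int.lt_floor_add_one (x ω)
      rw [abs_le]
      constructor <;> linarith)
  have e1 : 2 * (D + 1) + 1 = 2 * D + 3 := by ring
  rw [e1] at h1
  exact h1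

end near

end Pool.ONE72
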