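import Pool.Agent.H72.ONE1.Nok

/-!
# The constants of one hop and the windows

`Kn`: the constants. `small_ex`: a small number. `win_ex`: the windows.
-/

set_option autoImplicit false

namespace Pool.ONE72

open Finset Real

/-- **The constants of one hop.** -/
structure Kn (Sl σ lam tau cr cm cM : ℝ) : Prop where
  ht : tau = Sl - 1
  t0 : 0 < tau
  t1 : tau ≤ 1
  l0 : 0 < lam
  l1 : lam ≤ 1 / 2
  scr : Sl * cr = cm
  σcr : σ * cr = cM
  cr0 : 0 < cr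
  cme : cm = tau - tau * lam / 2
  mM : cM ≤ cm
  gain : σ - 1 + lam / 2 ≤ cM
  rM : cr ≤ cM
  m1 : cm ≤ 1 - lam / 2

theorem kn_ex {Sl σ : ℝ} (hσ : 1 < σ) (hSl : σ < Sl) (hS2 : Sl ≤ 2) :
    ∃ lam tau cr cm cM : ℝ, Kn Sl σ lam tau cr cm cM := by
  have hS0 : 0 < Sl := by linarith
  obtain ⟨lam, hlam⟩ : ∃ lam, lam = 1 - σ / Sl := ⟨_, rfl⟩
  obtain ⟨tau, htau⟩ : ∃ tau, tau = Sl - 1 := ⟨_, rfl⟩
  obtain ⟨cm, hcm⟩ : ∃ cm, cm = tau - tau * lam / 2 := ⟨_, rfl⟩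
  obtain ⟨cr, hcr⟩ : ∃ cr, cr = cm / Sl := ⟨_, rfl⟩
  have e1 : σ = Sl * (1 - lam) := by
    rw [hlam]
    field_simp
    ring
  have l0 : 0 < lam := by
    rw [hlam]
    have : σ / Sl < 1 := by
      rw [div_lt_one hS0]
      exact hSl
    linarith
  have l1 : lam ≤ 1 / 2 := by
    rw [hlam]
    have : 1 / 2 ≤ σ / Sl := by
      rw [le_div_iff₀ hS0]
      linarith
    linarith
  have t0 : 0 < tau := by linarith
  have t1 : tau ≤ 1 := by linarith
  have scr : Sl * cr = cm := by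
    rw [hcr]
    field_simp
  have cm0 : 0 < cm := by
    rw [hcm]
    nlinarith [mul_pos t0 l0]
  have cr0 : 0 < cr := by
    rw [hcr]
    positivity
  have σcr : σ * cr = cm * (1 - lam) := by
    rw [e1, ← scr]
    ring
  refine ⟨lam, tau, cr, cm, σ * cr, htau, t0, t1, l0, l1, scr, rfl, cr0, hcm, ?_, ?_, ?_, ?_⟩
  · rw [← scr]
    exact mul_le_mul_of_nonneg_right hSl.le cr0.le
  · rw [σcr, hcm]
    have e2 : σ = (1 + tau) * (1 - lam) := by
      rw [e1, htau]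
      ring
    rw [e2]
    have h1 : 0 ≤ lam * (1 - tau) := mul_nonneg l0.le (by linarith)
    have h2 : 0 ≤ tau * lam * lam := by positivity
    nlinarith
  · have := mul_le_mul_of_nonneg_right hσ.le cr0.le
    linarith
  · rw [hcm]
    nlinarith [mul_nonneg (show (0 : ℝ) ≤ 1 - tau by linarith) (show (0 : ℝ) ≤ 1 - lam / 2 by
      linarith)]

/-- A small number. -/
theorem small_ex (L : List ℝ) (h : ∀ m ∈ L, 0 < m) : ∃ r : ℝ, 0 < r ∧ ∀ m ∈ L, r ≤ m := by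
  induction L with
  | nil => exact ⟨1, one_pos, by simp⟩
  | cons m L ih =>
    obtain ⟨r, hr, h1⟩ := ih fun k hk => h k (List.mem_cons_of_mem _ hk)
    refine ⟨min m r, lt_min (h m List.mem_cons_self) hr, fun k hk => ?_⟩
    rcases List.mem_cons.1 hk with h2 | h2
    · rw [h2]
      exact min_le_left _ _
    · exact (min_le_right _ _).trans (h1 k h2)

/-- **The windows.** -/
theorem win_ex {Wd : Set ℝ} {g ρ₀ e a R : ℝ}
    (hden : ∀ x z, |x - g| ≤ ρ₀ → |z - g| ≤ ρ₀ → x < z → e * max |x - g| |z - g| ≤ z - x →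
      ∃ b ∈ Wd, x < b ∧ b < z) (ha : 0 < a) (he : 0 ≤ e) (hR0 : 0 ≤ R) (hR : R + 2 * a ≤ ρ₀)
    (hea : e * (R + 2 * a) ≤ a) {x : Fin 3 → ℝ} (hx0 : ∀ i, 0 ≤ x i) (hxR : ∀ i, x i ≤ R) :
    ∃ (w : Fin 3 → ℚ) (b : Fin 3 → ℝ) (av : ℝ),
      (∀ i, g + x i < w i ∧ (w i : ℝ) < g + x i + a) ∧
      (∀ i, b i ∈ Wd ∧ (w i : ℝ) - a < b i ∧ b i < w i) ∧ av ∈ Wd ∧ (w 1 : ℝ) < av ∧
      av < w 1 + a := by
  have h1 : ∀ i, ∃ q : ℚ, g + x i < q ∧ (q : ℝ) < g + x i + a := fun i =>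
    exists_rat_btwn (by linarith)
  choose w hw using h1
  have hd : ∀ s s' : ℝ, g - a ≤ s → s' ≤ g + R + 2 * a → s' = s + a → ∃ b ∈ Wd, s < b ∧ b < s' := by
    intro s s' k1 k2 k3
    have m1 : |s - g| ≤ R + 2 * a := by
      rw [abs_le]
      constructor <;> linarith
    have m2 : |s' - g| ≤ R + 2 * a := by
      rw [abs_le]
      constructor <;> linarith
    refine hden s s' (m1.trans hR) (m2.trans hR) (by linarith) ?_
    calc e * max |s - g| |s' - g| ≤ e * (R + 2 * a) := mul_le_mul_of_nonneg_left (max_le m1 m2) he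
      _ ≤ a := hea
      _ = s' - s := by linarith
  have h2 : ∀ i, ∃ b ∈ Wd, (w i : ℝ) - a < b ∧ b < w i := fun i =>
    hd _ _ (by linarith [(hw i).1, hx0 i]) (by linarith [(hw i).2, hxR i]) (by ring)
  choose b hbW hb using h2
  obtain ⟨av, hav, h3, h4⟩ := hd (w 1) (w 1 + a) (by linarith [(hw 1).1, hx0 1])
    (by linarith [(hw 1).2, hxR 1]) rfl
  exact ⟨w, b, av, hw, fun i => ⟨hbW i, hb i⟩, hav, h3, h4⟩

end Pool.ONE72
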