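import Pool.Agent.H72.ONE1.Evt

/-!
# One hop for one event: the conclusion

`one_ev`: the digits of the own velocity of the target are few bits given the digits of the active
velocity, the record at the larger window and the time.
-/

set_option autoImplicit false

namespace Pool.ONE72

open Finset Real
open Pool.Agent.H49.Ent Pool.Agent.H32.Dense Pool.STK Pool.KA Pool.KSAT Pool.K2S Pool.PB Pool.GEN
open Pool.LPX Pool.ONE17
open Pool.S6C (cnt)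

/-- **One hop for one event.** -/
theorem one_ev (h ε c : ℝ) (hh0 : 0 < h) (hh1 : h ≤ 1) (hε : 0 < ε) (hc : 0 < c) :
    ∃ κ' ϖ : ℝ, 0 < κ' ∧ 0 < ϖ ∧ ∃ X₀ : ℕ, ∀ {m J : ℕ} {F : Fam m J} {A : F.Ω → Prop}
    {p : F.Ω → ℝ} {𝒵 𝒵' : Type} {w X mm M P Na Lu Lv Ln : ℕ} {y : Fin m} {z : F.Ω → 𝒵}
    {z' : F.Ω → 𝒵'} {hu hv hn gu gv gn : F.Ω → ℝ} {δ θ θ' ψ d : ℝ},
    IsLaw p → (∀ ω, 0 < p ω → A ω) → w + X ≤ J → mm ≤ X → M ≤ X →
    Lin F A w hu gu → Lin F A w hv gv → Lin F A w hn gn →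
    (∀ ω, A ω → |gu ω| * 2 ^ Lu ≤ 1) → (∀ ω, A ω → |gv ω| * 2 ^ Lv ≤ 1) →
    (∀ ω, A ω → |gn ω| * 2 ^ Ln ≤ 1) → Det p (slam F w) z →
    CH p (bf F y z hu hv hn gu gv gn w X mm Na Lu Lv Ln)
      (fun ω => (F.D P ω y, (z' ω, F.W ω))) ≤ δ →
    CH p (fun ω => ⌊(2 : ℝ) ^ (Ln + X) * gn ω⌋)
      (fun ω => (⌊(2 : ℝ) ^ Na * gn ω⌋, (z ω, (F.D P ω y, F.W ω)))) ≤ θ →
    θ' ≤ CH p (fun ω => ⌊(2 : ℝ) ^ (Ln + X) * gn ω⌋)
      (fun ω => (⌊(2 : ℝ) ^ Na * gn ω⌋, (z' ω, (z ω, (F.D P ω y, F.W ω))))) →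
    θ - θ' + δ + ψ ≤ d → ((J : ℝ) - w) * Real.log 2 - ψ ≤ CH p F.T (slam F w) → ψ ≤ d →
    3 * Real.log 33 ≤ d →
    (∀ i : ℕ, i ≤ M → ∀ G : F.Ω → Prop, ϖ ≤ Pe p G →
      CH (cond p G True) (fun ω => ⌊(2 : ℝ) ^ (w + Ln + M) * hn ω⌋)
        (fun ω => (⌊(2 : ℝ) ^ (w + Ln + i) * hn ω⌋,
          ctxK F y z hu hv w X (w + Lu) (w + Lv) mm ω)) ≤
      (1 - h) * ((M : ℝ) - i) * Real.log 2 + d) → X₀ ≤ X → d ≤ κ' * X →
    CH p (fun ω => ⌊(2 : ℝ) ^ (Ln + M) * gn ω⌋) (fun ω => (F.D P ω y, (z' ω, F.W ω))) ≤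
      δ + (ε * X + c * (M + 3) + 4) * Real.log 2 := by
  obtain ⟨κ', ϖ, hκ, hϖ, X₀, key⟩ := one_near 3 h ε c (by norm_num) hh0 hh1 hε hc
  refine ⟨κ', ϖ, hκ, hϖ, X₀, ?_⟩
  intro m J F A p 𝒵 𝒵' w X mm M P Na Lu Lv Ln y z z' hu hv hn gu gv gn δ θ θ' ψ d hp hpA hwX hmX
    hMX lu lv ln bu bv bn hz few iu il hθ hT hψ hd3 nf hX hdX
  have h0 := hp.nonneg
  have hl2 : 0 < Real.log 2 := Real.log_pos (by norm_num)
  have hI := one_fam hp hpA hwX hmX hMX (y := y) (z := z) (z' := z') lu lv ln bu bv bn hz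
    (Bf := bf F y z hu hv hn gu gv gn w X mm Na Lu Lv Ln)
    (fun ω ω' _ _ e => by unfold bf at e; simp only [Prod.mk.injEq] at e; exact e.1)
    (fun ω ω' _ _ e => by unfold bf at e; simp only [Prod.mk.injEq] at e; exact e.2.1)
    (fun ω ω' _ _ e => by unfold bf at e; simp only [Prod.mk.injEq] at e; exact e.2.2.1)
    (fun ω ω' _ _ e => by unfold bf at e; simp only [Prod.mk.injEq] at e; exact e.2.2.2.1)
    (fun ω ω' _ _ e => by unfold bf at e; simp only [Prod.mk.injEq] at e; exact e.2.2.2.2.1)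
    (fun ω ω' _ _ e => by unfold bf at e; simp only [Prod.mk.injEq] at e; exact e.2.2.2.2.2.1)
    (fun ω ω' _ _ e => by unfold bf at e; simp only [Prod.mk.injEq] at e; exact e.2.2.2.2.2.2.1)
    (fun ω ω' _ _ e => by
      unfold bf at e; simp only [Prod.mk.injEq] at e; exact e.2.2.2.2.2.2.2.1)
    (fun ω ω' _ _ e => by
      unfold bf at e; simp only [Prod.mk.injEq] at e; exact e.2.2.2.2.2.2.2.2)
    few iu il hθ hT hψ hd3 nf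
  have hd0 : 0 ≤ d := by
    have : 0 ≤ Real.log 33 := Real.log_nonneg (by norm_num)
    linarith
  have k1 := key hI.of hX hd0 hdX
  obtain ⟨B, hB⟩ : ∃ B : F.Ω → ℤ × (𝒵' × ((ℕ × F.ζ) ×
      (𝒵 × (ℤ × (ℤ × (ℤ × (ℤ × (ℤ × (ℤ × (ℤ × ℤ)))))))))), B = fun ω =>
    (F.D P ω y, (z' ω, (F.W ω, bf F y z hu hv hn gu gv gn w X mm Na Lu Lv Ln ω))) := ⟨_, rfl⟩
  rw [← hB] at k1
  -- the first digits
  have hR0 : (0 : ℝ) ≤ 2 ^ (ε * X) := by positivity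
  have k2 : Ex (dbl p B) (fun q => if |((⌊(2 : ℝ) ^ (Ln + M) * gn q.1⌋ : ℤ) : ℝ) -
      ⌊(2 : ℝ) ^ (Ln + M) * gn q.2⌋| ≤ (2 : ℝ) ^ (ε * X) + 1 then (0 : ℝ) else 1) ≤ c := by
    refine le_trans (Ex_mono (dbl_nonneg h0) fun q _ => ?_) k1
    by_cases h1 : |((⌊(2 : ℝ) ^ (Ln + X) * gn q.1⌋ : ℤ) : ℝ) - ⌊(2 : ℝ) ^ (Ln + X) * gn q.2⌋| ≤
        (2 : ℝ) ^ (ε * X) * 2 ^ (X - M)
    · have h2 := tp_near X M ⌊(2 : ℝ) ^ (Ln + X) * gn q.1⌋ ⌊(2 : ℝ) ^ (Ln + X) * gn q.2⌋ h1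
      rw [tp_fl hMX, tp_fl hMX] at h2
      push_cast at h2
      rw [if_pos h2]
      split_ifs <;> norm_num
    · rw [if_neg h1]
      split_ifs <;> norm_num
  have hcnt : (cnt p (fun ω => ⌊(2 : ℝ) ^ (Ln + M) * gn ω⌋) (fun _ => True) : ℝ) ≤
      Real.exp (((M : ℝ) + 3) * Real.log 2) := by
    have h2 := cnt_bd (p := p) (fun ω => ⌊(2 : ℝ) ^ (Ln + M) * gn ω⌋) (R := 2 ^ M + 1)
      (by positivity) (fun ω hω => by
        have h3 := bn ω (hpA ω hω)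
        have h4 : |(2 : ℝ) ^ (Ln + M) * gn ω| ≤ 2 ^ M := by
          rw [abs_mul, abs_of_pos (by positivity : (0 : ℝ) < 2 ^ (Ln + M)), pow_add]
          calc (2 : ℝ) ^ Ln * 2 ^ M * |gn ω| = |gn ω| * 2 ^ Ln * 2 ^ M := by ring
            _ ≤ 1 * 2 ^ M := mul_le_mul_of_nonneg_right h3 (by positivity)
            _ = 2 ^ M := one_mul _
        have h5 := abs_le.1 h4
        have h6 := Int.floor_le ((2 : ℝ) ^ (Ln + M) * gn ω)
        have h7 := Int.lt_floor_add_one ((2 : ℝ) ^ (Ln + M) * gn ω)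
        rw [abs_le]
        constructor <;> linarith)
    refine h2.trans ?_
    rw [mul_comm ((M : ℝ) + 3), ← Real.rpow_def_of_pos (by norm_num : (0 : ℝ) < 2)]
    have e1 : (2 : ℝ) ^ ((M : ℝ) + 3) = 2 ^ M * 8 := by
      rw [Real.rpow_add (by norm_num), Real.rpow_natCast]
      norm_num
    rw [e1]
    have : (1 : ℝ) ≤ 2 ^ M := one_le_pow₀ (by norm_num)
    linarith
  have hM3 : 0 ≤ ((M : ℝ) + 3) * Real.log 2 := by positivity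
  have k3 := near_few hp B (fun ω => ⌊(2 : ℝ) ^ (Ln + M) * gn ω⌋) (by positivity) hM3 k2 hcnt
  have k4 : Real.log (2 * ((2 : ℝ) ^ (ε * X) + 1) + 1) ≤ (ε * X + 3) * Real.log 2 := by
    have e0 : (1 : ℝ) ≤ 2 ^ (ε * X) := Real.one_le_rpow (by norm_num) (by positivity)
    have e1 : 2 * ((2 : ℝ) ^ (ε * X) + 1) + 1 ≤ 2 ^ (ε * X + 3) := by
      rw [Real.rpow_add (by norm_num)]
      have : (2 : ℝ) ^ (3 : ℝ) = 8 := by norm_num
      rw [this]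
      linarith
    have e2 := Real.log_le_log (by positivity) e1
    rwa [Real.log_rpow (by norm_num)] at e2
  -- the ball
  have k5 := ch_tr h0 (fun ω => ⌊(2 : ℝ) ^ (Ln + M) * gn ω⌋) B
    (fun ω => (F.D P ω y, (z' ω, F.W ω)))
  have k6 : CH p B (fun ω => (F.D P ω y, (z' ω, F.W ω))) ≤ δ := by
    refine le_trans (CH_mono_left h0 fun ω ω' _ _ e => ?_) few
    rw [hB]
    simp only [Prod.mk.injEq] at e ⊢
    obtain ⟨e1, e2, e3, e4⟩ := e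
    exact ⟨e2, e3, e4, e1⟩
  have e7 : (ε * X + c * (M + 3) + 4) * Real.log 2 = Real.log 2 + (ε * X + 3) * Real.log 2 +
    c * (((M : ℝ) + 3) * Real.log 2) := by ring
  rw [e7]
  linarith

end Pool.ONE72
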