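import Pool.Agent.H72.ONE1.Rcd
import Pool.Agent.H72.ONE1.Oev

/-!
# One hop for the event of the labels

`tri_of`: the own heights are a triangular system over the record of the labels. `ev_few`: the
digits of the own velocity of the target at the third window are few bits.
-/

set_option autoImplicit false

namespace Pool.ONE72

open Finset Real
open Pool.Agent.H49.Ent Pool.Agent.H32.Dense Pool.STK Pool.KA Pool.KSAT Pool.K2S Pool.PB Pool.GEN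
open Pool.S6C Pool.LA91 Pool.RCD Pool.OWN72
open Pool.LPX Pool.ONE17

variable {m J : ℕ} {F : Fam m J} {A : F.Ω → Prop} {y u v t : Fin m} {f κu κv : PtT F → ℝ}

/-- **The labels of the first window.** -/
noncomputable def lb0 (F : Fam m J) (f κu κv : PtT F → ℝ) (γ γc : Fin 3 → Fin 3 → PtT F → ℝ) (ω : F.Ω) :
    ((ℝ × (ℝ × ℝ)) × F.ζ) × (Fin 3 → ℝ × ℝ) :=
  (((f (ptr F J ω), (κu (ptr F J ω), κv (ptr F J ω))), F.Z ω),
    fun j => (γ 0 j (ptr F J ω), γc 0 j (ptr F J ω)))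

theorem lb0_eq {γ γc : Fin 3 → Fin 3 → PtT F → ℝ} {ω ω' : F.Ω}
    (e : lb0 F f κu κv γ γc ω = lb0 F f κu κv γ γc ω') :
    f (ptr F J ω) = f (ptr F J ω') ∧ κu (ptr F J ω) = κu (ptr F J ω') ∧
      κv (ptr F J ω) = κv (ptr F J ω') ∧ F.Z ω = F.Z ω' ∧
      ∀ j, γ 0 j (ptr F J ω) = γ 0 j (ptr F J ω') ∧ γc 0 j (ptr F J ω) = γc 0 j (ptr F J ω') := by
  unfold lb0 at e
  obtain ⟨e1, e2⟩ := Prod.mk.inj e
  obtain ⟨e3, e4⟩ := Prod.mk.inj e1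
  obtain ⟨e5, e6⟩ := Prod.mk.inj e3
  obtain ⟨e7, e8⟩ := Prod.mk.inj e6
  refine ⟨e5, e7, e8, e4, fun j => ?_⟩
  have e9 := congrFun e2 j
  exact ⟨congrArg Prod.fst e9, congrArg Prod.snd e9⟩

/-- The labels of the first window are closed. -/
theorem lb0_cl {γ γc : Fin 3 → Fin 3 → PtT F → ℝ} {W : Fin 3 → ℕ} {L : Fin 3 → Fin 3 → ℕ}
    {sz : Fin 3 → ℕ} {se : ℕ} (h : LbD F A y u v t f κu κv γ γc W L sz se) :
    Cl2 (ptr F J) (slam F (W 0)) A (lb0 F f κu κv γ γc) := by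
  have := fam_ne F
  refine cl2_det (fun ω ω' _ _ e => ?_) fun ω ω' hω hω' e => ?_
  · have e2 : F.Z ω = F.Z ω' := congrArg (fun x => x.2.2) e
    unfold lb0
    rw [e, e2]
  · obtain ⟨-, -, e2, -⟩ := slam_eq e
    have k1 := cn_cl1 h.cf ω ω' hω hω' e
    have k2 := cn_cl1 h.cu ω ω' hω hω' e
    have k3 := cn_cl1 h.cv ω ω' hω hω' e
    have k4 := fun j => cn_cl1 (h.ca 0 j) ω ω' hω hω' e
    have k5 := fun j => cn_cl1 (h.cc 0 j) ω ω' hω hω' e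
    unfold lb0
    exact Prod.ext (Prod.ext (Prod.ext k1 (Prod.ext k2 k3)) e2)
      (funext fun j => Prod.ext (k4 j) (k5 j))

/-- **The own heights are a triangular system.** -/
theorem tri_of {γ γc : Fin 3 → Fin 3 → PtT F → ℝ} {W : Fin 3 → ℕ} {L : Fin 3 → Fin 3 → ℕ}
    {sz : Fin 3 → ℕ} {se : ℕ} (h : LbD F A y u v t f κu κv γ γc W L sz se) {𝒵 : Type}
    {z : F.Ω → 𝒵} (hz : ∀ ω ω', A ω → A ω' → z ω = z ω' →
      lb0 F f κu κv γ γc ω = lb0 F f κu κv γ γc ω') {nt : ℕ} (hnt : nt + sz 2 ≤ J)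
    (hse : se ≤ sz 1) (hs0 : sz 0 ≤ sz 1) :
    Tri F A y u v t z (oh F y (h3v F u v t f κu κv 0) (γ 0 0) (γc 0 0))
      (oh F y (h3v F u v t f κu κv 1) (γ 0 1) (γc 0 1))
      (oh F y (h3v F u v t f κu κv 2) (γ 0 2) (γc 0 2)) (2 * 2 ^ sz 1 + 3) nt := by
  have hJ : (0 : ℝ) < 2 ^ J := by positivity
  have hp1 : (1 : ℝ) ≤ 2 ^ sz 1 := one_le_pow₀ (by norm_num)
  have hp0 : (2 : ℝ) ^ sz 0 ≤ 2 ^ sz 1 := pow_le_pow_right₀ (by norm_num) hs0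
  have hpe : (2 : ℝ) ^ se ≤ 2 ^ sz 1 := pow_le_pow_right₀ (by norm_num) hse
  have hT : ∀ {ω ω' : F.Ω}, F.W ω = F.W ω' → F.t ω = F.t ω' := fun {ω ω'} e => by
    have e1 : F.T ω = F.T ω' := congrArg Prod.fst e
    unfold Fam.t
    rw [e1]
  have hmul : ∀ {k x : ℝ} {a n : ℕ}, |k| ≤ 2 ^ a → |x| ≤ 1 / 2 ^ J →
      |k * x| * 2 ^ n ≤ 2 ^ a * (2 ^ n / 2 ^ J) := by
    intro k x a n hk hx
    rw [abs_mul]
    calc |k| * |x| * 2 ^ n ≤ 2 ^ a * (1 / 2 ^ J) * 2 ^ n := by gcongr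
      _ = 2 ^ a * (2 ^ n / 2 ^ J) := by ring
  refine ⟨?_, ?_, ?_⟩
  · intro ω ω' hω hω' e eW ey
    obtain ⟨f1, f2, f3, f4, f5⟩ := lb0_eq (hz ω ω' hω hω' e)
    obtain ⟨g1, g2⟩ := f5 0
    have e1 : oh F y (h3v F u v t f κu κv 0) (γ 0 0) (γc 0 0) ω -
        oh F y (h3v F u v t f κu κv 0) (γ 0 0) (γc 0 0) ω' - (F.x ω u - F.x ω' u) =
        -(γ 0 0 (ptr F J ω) * (F.x ω y - F.x ω' y)) := by
      show F.x ω u - γc 0 0 (ptr F J ω) * F.t ω - γ 0 0 (ptr F J ω) * F.x ω y -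
        (F.x ω' u - γc 0 0 (ptr F J ω') * F.t ω' - γ 0 0 (ptr F J ω') * F.x ω' y) -
        (F.x ω u - F.x ω' u) = _
      rw [← g1, ← g2, hT eW]
      ring
    rw [e1, abs_neg]
    have a1 := hmul (n := J) (h.siz 0 0 ω hω) (x_near ey)
    rw [div_self hJ.ne', mul_one] at a1
    linarith
  · intro ω ω' hω hω' e eW ey eu
    obtain ⟨f1, f2, f3, f4, f5⟩ := lb0_eq (hz ω ω' hω hω' e)
    obtain ⟨g1, g2⟩ := f5 1
    have e1 : oh F y (h3v F u v t f κu κv 1) (γ 0 1) (γc 0 1) ω -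
        oh F y (h3v F u v t f κu κv 1) (γ 0 1) (γc 0 1) ω' - (F.x ω v - F.x ω' v) =
        -(f (ptr F J ω) * (F.x ω u - F.x ω' u) +
          γ 0 1 (ptr F J ω) * (F.x ω y - F.x ω' y)) := by
      show F.x ω v - f (ptr F J ω) * F.x ω u - γc 0 1 (ptr F J ω) * F.t ω -
        γ 0 1 (ptr F J ω) * F.x ω y -
        (F.x ω' v - f (ptr F J ω') * F.x ω' u - γc 0 1 (ptr F J ω') * F.t ω' -
          γ 0 1 (ptr F J ω') * F.x ω' y) - (F.x ω v - F.x ω' v) = _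
      rw [← f1, ← g1, ← g2, hT eW]
      ring
    rw [e1, abs_neg]
    have a1 := hmul (n := J) (h.siz 0 1 ω hω) (x_near ey)
    have a2 := hmul (n := J) (h.sf ω hω) (x_near eu)
    rw [div_self hJ.ne', mul_one] at a1 a2
    have a3 := mul_le_mul_of_nonneg_right (abs_add_le (f (ptr F J ω) * (F.x ω u - F.x ω' u))
      (γ 0 1 (ptr F J ω) * (F.x ω y - F.x ω' y))) hJ.le
    linarith
  · intro ω ω' hω hω' e eW ey eu ev
    obtain ⟨f1, f2, f3, f4, f5⟩ := lb0_eq (hz ω ω' hω hω' e)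
    obtain ⟨g1, g2⟩ := f5 2
    have e1 : oh F y (h3v F u v t f κu κv 2) (γ 0 2) (γc 0 2) ω -
        oh F y (h3v F u v t f κu κv 2) (γ 0 2) (γc 0 2) ω' - (F.x ω t - F.x ω' t) =
        -((κu (ptr F J ω) * (F.x ω u - F.x ω' u) + κv (ptr F J ω) * (F.x ω v - F.x ω' v)) +
          γ 0 2 (ptr F J ω) * (F.x ω y - F.x ω' y)) := by
      show F.x ω t - κu (ptr F J ω) * F.x ω u - κv (ptr F J ω) * F.x ω v -
        γc 0 2 (ptr F J ω) * F.t ω - γ 0 2 (ptr F J ω) * F.x ω y -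
        (F.x ω' t - κu (ptr F J ω') * F.x ω' u - κv (ptr F J ω') * F.x ω' v -
          γc 0 2 (ptr F J ω') * F.t ω' -
          γ 0 2 (ptr F J ω') * F.x ω' y) - (F.x ω t - F.x ω' t) = _
      rw [← f2, ← f3, ← g1, ← g2, hT eW]
      ring
    rw [e1, abs_neg]
    have hn : (0 : ℝ) < 2 ^ nt := by positivity
    have hone : (2 : ℝ) ^ sz 2 * (2 ^ nt / 2 ^ J) ≤ 1 := by
      rw [mul_div_assoc', div_le_one hJ, ← pow_add]
      exact pow_le_pow_right₀ (by norm_num) (by omega)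
    have a1 := hmul (n := nt) (h.siz 0 2 ω hω) (x_near ey)
    have a2 := hmul (n := nt) (h.su ω hω) (x_near eu)
    have a3 := hmul (n := nt) (h.sv ω hω) (x_near ev)
    have a4 := mul_le_mul_of_nonneg_right (abs_add_le
      (κu (ptr F J ω) * (F.x ω u - F.x ω' u) + κv (ptr F J ω) * (F.x ω v - F.x ω' v))
      (γ 0 2 (ptr F J ω) * (F.x ω y - F.x ω' y))) hn.le
    have a5 := mul_le_mul_of_nonneg_right (abs_add_le
      (κu (ptr F J ω) * (F.x ω u - F.x ω' u)) (κv (ptr F J ω) * (F.x ω v - F.x ω' v))) hn.le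
    linarith

/-- Powers of two. -/
theorem pw14 {a b : ℕ} (h : a + 4 ≤ b) : 2 * (7 : ℝ) * 2 ^ a ≤ 2 ^ b := by
  have h1 : (2 : ℝ) ^ (a + 4) ≤ 2 ^ b := pow_le_pow_right₀ (by norm_num) h
  rw [pow_add] at h1
  have h2 : (0 : ℝ) < 2 ^ a := by positivity
  norm_num at h1
  linarith

/-- **One hop for the event of the labels.** -/
theorem ev_few (h ε c : ℝ) (hh0 : 0 < h) (hh1 : h ≤ 1) (hε : 0 < ε) (hc : 0 < c) :
    ∃ κ' ϖ : ℝ, 0 < κ' ∧ 0 < ϖ ∧ ∃ X₀ : ℕ, ∀ {m J : ℕ} {F : Fam m J} {A : F.Ω → Prop}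
    {y u v t : Fin m} {f κu κv : PtT F → ℝ} {γ γc : Fin 3 → Fin 3 → PtT F → ℝ}
    {W : Fin 3 → ℕ} {L : Fin 3 → Fin 3 → ℕ} {sz : Fin 3 → ℕ} {se : ℕ} {p : F.Ω → ℝ}
    {𝒵 𝒵' V₂ : Type} {z : F.Ω → 𝒵} {z' : F.Ω → 𝒵'} {z₂ : F.Ω → V₂}
    {X mm M P Na n' e : ℕ} {θ θ' ψ d : ℝ},
    LbD F A y u v t f κu κv γ γc W L sz se →
    RcD F A y u v t f κu κv γ γc (W 2) 2 L se z₂ →
    IsLaw p → (∀ ω, 0 < p ω → A ω) → W 0 + X ≤ W 2 → W 2 ≤ J → mm ≤ X → M ≤ X →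
    mm ≤ P → M + se ≤ P → se + 4 ≤ e → (∀ j, se ≤ L 0 j) → (∀ j, L 0 j ≤ L 2 j) →
    Na + 4 ≤ L 2 2 + e → Na ≤ L 0 2 + P → L 0 0 + mm + 4 ≤ L 2 0 + e →
    L 0 1 + mm + 4 ≤ L 2 1 + e → n' ≤ L 0 2 + M →
    Det p (slam F (W 0)) z → Det p z' z → Det p z' z₂ →
    CH p (fun ω => ⌊(2 : ℝ) ^ (L 0 2 + X) *
        ov F y (g3v F u v t f κu κv 2) (γ 0 2) (γc 0 2) ω⌋)
      (fun ω => (⌊(2 : ℝ) ^ Na * ov F y (g3v F u v t f κu κv 2) (γ 0 2) (γc 0 2) ω⌋,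
        (z ω, (F.D P ω y, F.W ω)))) ≤ θ →
    θ' ≤ CH p (fun ω => ⌊(2 : ℝ) ^ (L 0 2 + X) *
        ov F y (g3v F u v t f κu κv 2) (γ 0 2) (γc 0 2) ω⌋)
      (fun ω => (⌊(2 : ℝ) ^ Na * ov F y (g3v F u v t f κu κv 2) (γ 0 2) (γc 0 2) ω⌋,
        (z' ω, (z ω, (F.D P ω y, F.W ω))))) →
    θ - θ' + 6 * (((e : ℝ) + 4) * Real.log 2) + ψ ≤ d →
    ((J : ℝ) - W 0) * Real.log 2 - ψ ≤ CH p F.T (slam F (W 0)) → ψ ≤ d →
    3 * Real.log 33 ≤ d →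
    (∀ i : ℕ, i ≤ M → ∀ G : F.Ω → Prop, ϖ ≤ Pe p G →
      CH (cond p G True) (fun ω => ⌊(2 : ℝ) ^ (W 0 + L 0 2 + M) *
          oh F y (h3v F u v t f κu κv 2) (γ 0 2) (γc 0 2) ω⌋)
        (fun ω => (⌊(2 : ℝ) ^ (W 0 + L 0 2 + i) *
          oh F y (h3v F u v t f κu κv 2) (γ 0 2) (γc 0 2) ω⌋,
          ctxK F y z (oh F y (h3v F u v t f κu κv 0) (γ 0 0) (γc 0 0))
            (oh F y (h3v F u v t f κu κv 1) (γ 0 1) (γc 0 1)) (W 0) X (W 0 + L 0 0)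
            (W 0 + L 0 1) mm ω)) ≤
      (1 - h) * ((M : ℝ) - i) * Real.log 2 + d) → X₀ ≤ X → d ≤ κ' * X →
    CH p (fun ω => ⌊(2 : ℝ) ^ n' * ov F y (g3v F u v t f κu κv 2) (γ 2 2) (γc 2 2) ω⌋)
      (fun ω => (F.D P ω y, (z' ω, F.W ω))) ≤
      6 * (((e : ℝ) + 4) * Real.log 2) + (ε * X + c * (M + 3) + 8) * Real.log 2 := by
  obtain ⟨κ', ϖ, hκ, hϖ, X₀, key⟩ := one_ev h ε c hh0 hh1 hε hc
  refine ⟨κ', ϖ, hκ, hϖ, X₀, ?_⟩
  intro m J F A y u v t f κu κv γ γc W L sz se p 𝒵 𝒵' V₂ z z' z₂ X mm M P Na n' e θ θ' ψ d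
    hL hR hp hpA hWX hWJ hmX hMX hmP hMP he hse hLL hNa hNa2 hu3 hv3 hn' hz hzz hz2 iu il hθ hT hψ
    hd3 nf hX hdX
  have h0 := hp.nonneg
  have hW0J : W 0 ≤ J := by omega
  have lin : ∀ j, Lin F A (W 0) (oh F y (h3v F u v t f κu κv j) (γ 0 j) (γc 0 j))
      (ov F y (g3v F u v t f κu κv j) (γ 0 j) (γc 0 j)) := fun j =>
    oh_lin (h3v_lin hL.cf hL.cu hL.cv j) (hL.ca 0 j) (hL.cc 0 j)
  have hy : Det p z' (fun ω => F.X (W 2) ω y) := fun ω ω' a b e =>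
    hR.dx ω ω' (hpA ω a) (hpA ω' b) (hz2 ω ω' a b e)
  have rp : ∀ j, Rp F A y (oh F y (h3v F u v t f κu κv j) (γ 0 j) (γc 0 j))
      (ov F y (g3v F u v t f κu κv j) (γ 0 j) (γc 0 j)) z₂ (W 2 + L 2 j) (L 2 j)
      (L 0 j - se) 7 := hR.rp
  -- the record on the support
  obtain ⟨A', hA'⟩ : ∃ A' : F.Ω → Prop, A' = fun ω => 0 < p ω := ⟨_, rfl⟩
  have hAA : Sub A' A := fun ω hω => hpA ω (by rw [hA'] at hω; exact hω)
  have hpA' : ∀ ω, 0 < p ω → A' ω := fun ω hω => by rw [hA']; exact hω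
  have rp' : ∀ j, Rp F A' y (oh F y (h3v F u v t f κu κv j) (γ 0 j) (γc 0 j))
      (ov F y (g3v F u v t f κu κv j) (γ 0 j) (γc 0 j)) z' (W 2 + L 2 j) (L 2 j)
      (L 0 j - se) 7 := fun j => ((rp j).sub hAA).det fun ω ω' a b e => by
    rw [hA'] at a b
    exact hz2 ω ω' a b e
  have s0 := hse 0
  have s1 := hse 1
  have s2 := hse 2
  have l0 := hLL 0
  have l1 := hLL 1
  have l2 := hLL 2
  have few := bf_few hp hpA' (y := y) (z := z) (z' := z') (w := W 0) (w' := W 2) (X := X)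
    (mm := mm) (P := P) (Na := Na) (Lu := L 0 0) (Lv := L 0 1) (Ln := L 0 2) (e := e) hzz hy hmP
    (by omega) (rp' 0) (rp' 1) (rp' 2) (pw14 (by omega)) (by omega) (pw14 (by omega)) (by omega)
    (pw14 (by omega)) (by omega) (pw14 (by omega)) (by omega) (pw14 (by omega)) (by omega)
    (pw14 (by omega)) (by omega)
  have k1 := key hp hpA (show W 0 + X ≤ J by omega) hmX hMX (y := y) (z := z) (z' := z')
    (P := P) (Na := Na) (Lu := L 0 0) (Lv := L 0 1) (Ln := L 0 2) (lin 0) (lin 1) (lin 2)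
    (hL.rep 0 0) (hL.rep 0 1) (hL.rep 0 2) hz few iu il hθ hT hψ hd3 nf hX hdX
  -- the velocity at the third window
  have k2 : CH p (fun ω => ⌊(2 : ℝ) ^ n' * ov F y (g3v F u v t f κu κv 2) (γ 2 2) (γc 2 2) ω⌋)
      (fun ω => (F.D P ω y, (z' ω, F.W ω))) ≤
      CH p (fun ω => ⌊(2 : ℝ) ^ (L 0 2 + M) *
        ov F y (g3v F u v t f κu κv 2) (γ 2 2) (γc 2 2) ω⌋)
      (fun ω => (F.D P ω y, (z' ω, F.W ω))) :=
    CH_mono_left h0 fun ω ω' _ _ e => Pool.MM97.fl_coarse hn' (Prod.mk.inj e).1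
  have k3 := CH_le_add h0 (fun ω => ⌊(2 : ℝ) ^ (L 0 2 + M) *
        ov F y (g3v F u v t f κu κv 2) (γ 2 2) (γc 2 2) ω⌋)
      (fun ω => ⌊(2 : ℝ) ^ (L 0 2 + M) *
        ov F y (g3v F u v t f κu κv 2) (γ 0 2) (γc 0 2) ω⌋)
      (fun ω => (F.D P ω y, (z' ω, F.W ω)))
  have k4 := few_x hp (fun ω => (2 : ℝ) ^ (L 0 2 + M) *
        ov F y (g3v F u v t f κu κv 2) (γ 2 2) (γc 2 2) ω)
      (fun ω => (⌊(2 : ℝ) ^ (L 0 2 + M) *
        ov F y (g3v F u v t f κu κv 2) (γ 0 2) (γc 0 2) ω⌋,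
        (F.D P ω y, (z' ω, F.W ω)))) 1 (by
    intro ω ω' a b e
    obtain ⟨e1, e2⟩ := Prod.mk.inj e
    obtain ⟨e3, e4⟩ := Prod.mk.inj e2
    obtain ⟨e5, e6⟩ := Prod.mk.inj e4
    obtain ⟨f1, f2, f3, f4⟩ := hR.dl ω ω' (hpA ω a) (hpA ω' b) (hz2 ω ω' a b e5) 2
    have g1 := fl_near (j := L 0 2 + M) e1
    rw [D_eq, D_eq] at e3
    have g2 := fl_near (j := P) e3
    have hn : (0 : ℝ) < 2 ^ (L 0 2 + M) := by positivity
    have hq := hL.nat 2 2 ω (hpA ω a)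
    have e7 : ov F y (g3v F u v t f κu κv 2) (γ 2 2) (γc 2 2) ω -
        ov F y (g3v F u v t f κu κv 2) (γ 2 2) (γc 2 2) ω' =
        (ov F y (g3v F u v t f κu κv 2) (γ 0 2) (γc 0 2) ω -
        ov F y (g3v F u v t f κu κv 2) (γ 0 2) (γc 0 2) ω') -
        (γ 2 2 (ptr F J ω) - γ 0 2 (ptr F J ω)) * (F.d ω y - F.d ω' y) := by
      unfold ov
      rw [← f1, ← f2, ← f3, ← f4]
      ring
    have g3 : |(γ 2 2 (ptr F J ω) - γ 0 2 (ptr F J ω)) * (F.d ω y - F.d ω' y)| *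
        2 ^ (L 0 2 + M) ≤ 1 := by
      rw [abs_mul]
      have h1 : |γ 2 2 (ptr F J ω) - γ 0 2 (ptr F J ω)| * 2 ^ L 0 2 * (|F.d ω y - F.d ω' y| * 2 ^ P) ≤
          2 ^ se * 1 := by gcongr
      have hse0 : (0 : ℝ) < 2 ^ se := by positivity
      have h2 : (2 : ℝ) ^ M * 2 ^ se ≤ 2 ^ P := by
        rw [← pow_add]
        exact pow_le_pow_right₀ (by norm_num) hMP
      have h3 : |γ 2 2 (ptr F J ω) - γ 0 2 (ptr F J ω)| * |F.d ω y - F.d ω' y| *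
          2 ^ (L 0 2 + M) * 2 ^ se ≤ 1 * 2 ^ se := by
        rw [pow_add]
        calc |γ 2 2 (ptr F J ω) - γ 0 2 (ptr F J ω)| * |F.d ω y - F.d ω' y| *
            (2 ^ L 0 2 * 2 ^ M) * 2 ^ se =
            |γ 2 2 (ptr F J ω) - γ 0 2 (ptr F J ω)| * 2 ^ L 0 2 *
              (|F.d ω y - F.d ω' y| * (2 ^ M * 2 ^ se)) := by ring
          _ ≤ |γ 2 2 (ptr F J ω) - γ 0 2 (ptr F J ω)| * 2 ^ L 0 2 *
              (|F.d ω y - F.d ω' y| * 2 ^ P) := by gcongr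
          _ ≤ 2 ^ se * 1 := h1
          _ = 1 * 2 ^ se := by ring
      exact le_of_mul_le_mul_right h3 hse0
    rw [← mul_sub, abs_mul, abs_of_pos hn, e7, mul_comm]
    have g4 := mul_le_mul_of_nonneg_right (abs_sub
      (ov F y (g3v F u v t f κu κv 2) (γ 0 2) (γc 0 2) ω -
        ov F y (g3v F u v t f κu κv 2) (γ 0 2) (γc 0 2) ω')
      ((γ 2 2 (ptr F J ω) - γ 0 2 (ptr F J ω)) * (F.d ω y - F.d ω' y))) hn.le
    norm_num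
    linarith)
  norm_num at k4
  have e8 : (ε * X + c * (M + 3) + 8) * Real.log 2 = (ε * X + c * (M + 3) + 4) * Real.log 2 +
    4 * Real.log 2 := by ring
  rw [e8]
  linarith

end Pool.ONE72
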