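import Pool.Agent.H17.ONE.Hop
import Pool.Agent.H92.GN.Vis
import Pool.Agent.H72.OWN.Cfl

/-!
# Heights which are linear along the line in the window

`Lin`: the height `h` is linear along the line in the window, with the velocity `g`. `tq`: the time
digits behind the window. `crd_lin`, `path_lin`: the digits of such heights are coordinates in the
sense of `Pool.LPX.Crd` and `Pool.ONE17.PathN`.
-/

set_option autoImplicit false

namespace Pool.ONE72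

open Finset Real
open Pool.Agent.H49.Ent Pool.Agent.H32.Dense Pool.STK Pool.KA Pool.KSAT Pool.K2S Pool.PB Pool.GEN
open Pool.LPX Pool.ONE17

variable {m J : ℕ} {F : Fam m J} {A : F.Ω → Prop} {w w' X N : ℕ} {h g h' g' c : F.Ω → ℝ}

/-- **Linear along the line in the window.** -/
def Lin (F : Fam m J) (A : F.Ω → Prop) (w : ℕ) (h g : F.Ω → ℝ) : Prop :=
  ∀ ω ω', A ω → A ω' → slam F w ω = slam F w ω' →
    g ω = g ω' ∧ h ω' - h ω = (F.t ω' - F.t ω) * g ω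

/-- A function of the line and of the window. -/
def Cn (F : Fam m J) (A : F.Ω → Prop) (w : ℕ) (c : F.Ω → ℝ) : Prop :=
  ∀ ω ω', A ω → A ω' → slam F w ω = slam F w ω' → c ω = c ω'

theorem Lin.sub (H : Lin F A w h g) {B : F.Ω → Prop} (hB : Sub B A) : Lin F B w h g :=
  fun ω ω' a b e => H ω ω' (hB ω a) (hB ω' b) e

theorem slam_win (hw : w ≤ w') (hw' : w' ≤ J) {ω ω' : F.Ω} (e : slam F w' ω = slam F w' ω') :
    slam F w ω = slam F w ω' := by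
  rw [slam_coarse F hw hw' ω, slam_coarse F hw hw' ω', e]

theorem Lin.win (H : Lin F A w h g) (hw : w ≤ w') (hw' : w' ≤ J) : Lin F A w' h g :=
  fun ω ω' a b e => H ω ω' a b (slam_win hw hw' e)

theorem Cn.win (H : Cn F A w c) (hw : w ≤ w') (hw' : w' ≤ J) : Cn F A w' c :=
  fun ω ω' a b e => H ω ω' a b (slam_win hw hw' e)

theorem slam_eq {ω ω' : F.Ω} (e : slam F w ω = slam F w ω') :
    F.u ω = F.u ω' ∧ F.d ω = F.d ω' ∧ F.Z ω = F.Z ω' ∧ F.T1 w ω = F.T1 w ω' := by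
  unfold slam Fam.l at e
  simp only [Prod.mk.injEq] at e
  exact ⟨e.1.1, e.1.2, e.2.1, e.2.2⟩

/-- The coordinates of the position. -/
theorem lin_x (k : Fin m) : Lin F A w (fun ω => F.x ω k) (fun ω => F.d ω k) := by
  intro ω ω' _ _ e
  obtain ⟨e1, e2, -, -⟩ := slam_eq e
  refine ⟨congrFun e2 k, ?_⟩
  show F.u ω' k + F.t ω' * F.d ω' k - (F.u ω k + F.t ω * F.d ω k) = _
  rw [← e1, ← e2]
  ring

/-- The time. -/
theorem lin_t : Lin F A w (fun ω => F.t ω) (fun _ => 1) := fun ω ω' _ _ _ => ⟨rfl, by ring⟩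

theorem Lin.sub' (H : Lin F A w h g) (H' : Lin F A w h' g') :
    Lin F A w (fun ω => h ω - h' ω) (fun ω => g ω - g' ω) := by
  intro ω ω' a b e
  obtain ⟨k1, k2⟩ := H ω ω' a b e
  obtain ⟨k3, k4⟩ := H' ω ω' a b e
  refine ⟨show g ω - g' ω = g ω' - g' ω' by rw [k1, k3], ?_⟩
  show h ω' - h' ω' - (h ω - h' ω) = (F.t ω' - F.t ω) * (g ω - g' ω)
  have : h ω' - h' ω' - (h ω - h' ω) = (h ω' - h ω) - (h' ω' - h' ω) := by ring
  rw [this, k2, k4]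
  ring

theorem Lin.mul (H : Lin F A w h g) (hc : Cn F A w c) :
    Lin F A w (fun ω => c ω * h ω) (fun ω => c ω * g ω) := by
  intro ω ω' a b e
  obtain ⟨k1, k2⟩ := H ω ω' a b e
  have k3 := hc ω ω' a b e
  refine ⟨show c ω * g ω = c ω' * g ω' by rw [k1, k3], ?_⟩
  show c ω' * h ω' - c ω * h ω = (F.t ω' - F.t ω) * (c ω * g ω)
  rw [← k3]
  have : c ω * h ω' - c ω * h ω = c ω * (h ω' - h ω) := by ring
  rw [this, k2]
  ring

/-! ### The time digits -/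

/-- **The time digits** behind the window. -/
def tq (F : Fam m J) (w X : ℕ) (ω : F.Ω) : ℤ := ((F.T1 (w + X) ω : ℕ) : ℤ) - 2 ^ X * (F.T1 w ω : ℕ)

theorem tq_bd (F : Fam m J) {w X : ℕ} (hw : w + X ≤ J) (ω : F.Ω) :
    0 ≤ tq F w X ω ∧ tq F w X ω < 2 ^ X := by
  have h1 := T1_div F hw ω
  have h2 := Nat.div_add_mod (F.T1 (w + X) ω) (2 ^ X)
  have h3 := Nat.mod_lt (F.T1 (w + X) ω) (show 0 < 2 ^ X by positivity)
  rw [← h1] at h2
  unfold tq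
  have h4 : ((F.T1 (w + X) ω : ℕ) : ℤ) = 2 ^ X * (F.T1 w ω : ℕ) +
      ((F.T1 (w + X) ω % 2 ^ X : ℕ) : ℤ) := by
    have := congrArg (Nat.cast (R := ℤ)) h2
    push_cast at this ⊢
    linarith
  have h5 : ((F.T1 (w + X) ω % 2 ^ X : ℕ) : ℤ) < 2 ^ X := by exact_mod_cast h3
  constructor
  · rw [h4]
    have : (0 : ℤ) ≤ ((F.T1 (w + X) ω % 2 ^ X : ℕ) : ℤ) := Nat.cast_nonneg _
    linarith
  · linarith

/-- The time and the first digits of it. -/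
theorem t_T1 (F : Fam m J) {w : ℕ} (hw : w ≤ J) (ω : F.Ω) :
    (F.T1 w ω : ℝ) / 2 ^ w ≤ F.t ω ∧ F.t ω ≤ (F.T1 w ω : ℝ) / 2 ^ w + 1 / 2 ^ w := by
  unfold Fam.T1 Fam.t
  have h1 := Nat.div_add_mod (F.T ω) (2 ^ (J - w))
  have h2 := Nat.mod_lt (F.T ω) (show 0 < 2 ^ (J - w) by positivity)
  obtain ⟨q, hq⟩ : ∃ q, q = F.T ω / 2 ^ (J - w) := ⟨_, rfl⟩
  obtain ⟨r, hr⟩ : ∃ r, r = F.T ω % 2 ^ (J - w) := ⟨_, rfl⟩
  rw [← hq, ← hr] at h1
  rw [← hr] at h2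
  rw [← hq]
  have e1 : (2 : ℝ) ^ J = 2 ^ (J - w) * 2 ^ w := by
    rw [← pow_add]
    congr 1
    omega
  have h3 : (F.T ω : ℝ) = 2 ^ (J - w) * q + r := by exact_mod_cast h1.symm
  have h4 : (r : ℝ) ≤ 2 ^ (J - w) := by exact_mod_cast h2.le
  have h5 : (0 : ℝ) ≤ r := Nat.cast_nonneg r
  have e2 : (0 : ℝ) < 2 ^ (J - w) := by positivity
  have e3 : (0 : ℝ) < 2 ^ w := by positivity
  rw [h3, e1]
  constructor
  · rw [div_le_div_iff₀ e3 (by positivity)]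
    nlinarith [mul_nonneg h5 e3.le]
  · rw [← add_div, div_le_div_iff₀ (by positivity) e3]
    nlinarith [mul_le_mul_of_nonneg_right h4 e3.le]

/-- The time behind the window. -/
theorem t_tq (F : Fam m J) {w X : ℕ} (hw : w + X ≤ J) (ω : F.Ω) :
    0 ≤ F.t ω - (F.T1 w ω : ℝ) / 2 ^ w - (tq F w X ω : ℝ) / 2 ^ (w + X) ∧
    F.t ω - (F.T1 w ω : ℝ) / 2 ^ w - (tq F w X ω : ℝ) / 2 ^ (w + X) ≤ 1 / 2 ^ (w + X) := by
  obtain ⟨h1, h2⟩ := t_T1 F hw ω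
  have e1 : (tq F w X ω : ℝ) / 2 ^ (w + X) = (F.T1 (w + X) ω : ℝ) / 2 ^ (w + X) -
      (F.T1 w ω : ℝ) / 2 ^ w := by
    unfold tq
    push_cast
    rw [pow_add]
    field_simp
  rw [e1]
  constructor <;> linarith

/-! ### Coordinates -/

/-- The start of the path, in the unit `2 ^ (-(w + N))`. -/
noncomputable def aq (F : Fam m J) (w N : ℕ) (h g : F.Ω → ℝ) (ω : F.Ω) : ℝ :=
  2 ^ (w + N) * (h ω - (F.t ω - (F.T1 w ω : ℝ) / 2 ^ w) * g ω)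

theorem aq_det {p : F.Ω → ℝ} (hpA : ∀ ω, 0 < p ω → A ω) (H : Lin F A w h g) :
    Det p (slam F w) (aq F w N h g) := by
  intro ω ω' a b e
  obtain ⟨k1, k2⟩ := H ω ω' (hpA ω a) (hpA ω' b) e
  obtain ⟨-, -, -, k4⟩ := slam_eq e
  unfold aq
  rw [← k1, ← k4]
  congr 1
  linarith

theorem aq_rel (hwX : w + X ≤ J) {C : ℝ} {ω : F.Ω} (hg : |g ω| * 2 ^ N ≤ C * 2 ^ X) :
    |(⌊(2 : ℝ) ^ (w + N) * h ω⌋ : ℝ) - (aq F w N h g ω + tq F w X ω * (2 ^ N * g ω / 2 ^ X))| ≤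
      C + 1 := by
  obtain ⟨t1, t2⟩ := t_tq F hwX ω
  obtain ⟨θ, hθ⟩ : ∃ θ, θ = F.t ω - (F.T1 w ω : ℝ) / 2 ^ w - (tq F w X ω : ℝ) / 2 ^ (w + X) :=
    ⟨_, rfl⟩
  rw [← hθ] at t1 t2
  have hX : (0 : ℝ) < 2 ^ X := by positivity
  have e1 : (2 : ℝ) ^ (w + N) * h ω = aq F w N h g ω + tq F w X ω * (2 ^ N * g ω / 2 ^ X) +
      2 ^ (w + N) * θ * g ω := by
    unfold aq
    rw [hθ, pow_add, pow_add]
    field_simp
    ring
  have e2 : |(2 : ℝ) ^ (w + N) * θ * g ω| ≤ C := by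
    rw [abs_mul, abs_mul, abs_of_pos (by positivity : (0 : ℝ) < 2 ^ (w + N)), abs_of_nonneg t1]
    calc (2 : ℝ) ^ (w + N) * θ * |g ω| ≤ 2 ^ (w + N) * (1 / 2 ^ (w + X)) * |g ω| := by
          gcongr
      _ = |g ω| * 2 ^ N / 2 ^ X := by
          rw [pow_add, pow_add]
          field_simp
      _ ≤ C := by
          rw [div_le_iff₀ hX]
          exact hg
  have f1 := Int.floor_le ((2 : ℝ) ^ (w + N) * h ω)
  have f2 := Int.lt_floor_add_one ((2 : ℝ) ^ (w + N) * h ω)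
  have e3 := abs_le.1 e2
  rw [abs_le]
  constructor <;> linarith

variable {β : Type} {p : F.Ω → ℝ} {B : F.Ω → β}

/-- **The digits of a linear height are a coordinate.** -/
theorem crd_lin (hpA : ∀ ω, 0 < p ω → A ω) (hwX : w + X ≤ J) (H : Lin F A w h g) {C : ℝ}
    (hC : 1 ≤ C) (hg : ∀ ω, A ω → |g ω| * 2 ^ N ≤ C * 2 ^ X)
    (hB : Det p B (fun ω => ⌊(2 : ℝ) ^ (w + N) * h ω⌋)) :
    Crd p B (slam F w) (tq F w X) (fun ω => ⌊(2 : ℝ) ^ (w + N) * h ω⌋)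
      (fun ω => ⌊(2 : ℝ) ^ N * g ω⌋) (aq F w N h g) X (C + 2) where
  da := aq_det hpA H
  dd ω ω' a b e := by
    show ⌊(2 : ℝ) ^ N * g ω⌋ = ⌊(2 : ℝ) ^ N * g ω'⌋
    rw [(H ω ω' (hpA ω a) (hpA ω' b) e).1]
  rel ω hω := by
    have h1 := aq_rel (h := h) hwX (hg ω (hpA ω hω))
    obtain ⟨t1, t2⟩ := tq_bd F hwX ω
    have t1' : (0 : ℝ) ≤ tq F w X ω := by exact_mod_cast t1
    have t2' : (tq F w X ω : ℝ) ≤ 2 ^ X := by exact_mod_cast t2.le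
    have hX : (0 : ℝ) < 2 ^ X := by positivity
    have f1 := Int.floor_le ((2 : ℝ) ^ N * g ω)
    have f2 := Int.lt_floor_add_one ((2 : ℝ) ^ N * g ω)
    have h2 : |(tq F w X ω : ℝ) * (2 ^ N * g ω / 2 ^ X) -
        tq F w X ω * ((⌊(2 : ℝ) ^ N * g ω⌋ : ℝ) / 2 ^ X)| ≤ 1 := by
      rw [← mul_sub, abs_mul, abs_of_nonneg t1', ← sub_div, abs_div, abs_of_pos hX]
      have h3 : |(2 : ℝ) ^ N * g ω - ⌊(2 : ℝ) ^ N * g ω⌋| ≤ 1 := by
        rw [abs_le]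
        constructor <;> linarith
      rw [mul_div_assoc', div_le_one hX]
      calc (tq F w X ω : ℝ) * |(2 : ℝ) ^ N * g ω - ⌊(2 : ℝ) ^ N * g ω⌋| ≤ 2 ^ X * 1 :=
            mul_le_mul t2' h3 (abs_nonneg _) hX.le
        _ = 2 ^ X := mul_one _
    have h4 := abs_le.1 h1
    have h5 := abs_le.1 h2
    rw [abs_le]
    constructor <;> linarith [h4.1, h4.2, h5.1, h5.2]
  ball ω ω' a b e := by
    have h1 := hB ω ω' a b e
    show |((⌊(2 : ℝ) ^ (w + N) * h ω⌋ : ℤ) : ℝ) - ⌊(2 : ℝ) ^ (w + N) * h ω'⌋| ≤ C + 2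
    have h2 : ⌊(2 : ℝ) ^ (w + N) * h ω⌋ = ⌊(2 : ℝ) ^ (w + N) * h ω'⌋ := h1
    rw [h2, sub_self, abs_zero]
    linarith
  siz ω hω := by
    have h1 := hg ω (hpA ω hω)
    have f1 := Int.floor_le ((2 : ℝ) ^ N * g ω)
    have f2 := Int.lt_floor_add_one ((2 : ℝ) ^ N * g ω)
    have hX : (1 : ℝ) ≤ 2 ^ X := one_le_pow₀ (by norm_num)
    have h2 : |(2 : ℝ) ^ N * g ω| ≤ C * 2 ^ X := by
      rw [abs_mul, abs_of_pos (by positivity : (0 : ℝ) < 2 ^ N), mul_comm]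
      exact h1
    have h3 := abs_le.1 h2
    have e1 : (C + 2) * (2 : ℝ) ^ X = C * 2 ^ X + 2 * 2 ^ X := by ring
    show |((⌊(2 : ℝ) ^ N * g ω⌋ : ℤ) : ℝ)| ≤ _
    rw [abs_le, e1]
    constructor <;> linarith [h3.1, h3.2]

/-- **The paths of two lines of one ball are near.** -/
theorem path_lin {ι : Type} (hpA : ∀ ω, 0 < p ω → A ω) (hwX : w + X ≤ J) {h g : ι → F.Ω → ℝ}
    {N mm : ι → ℕ} (H : ∀ j, Lin F A w (h j) (g j)) {C : ℝ} (hC : 2 ≤ C)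
    (hg : ∀ j ω, A ω → |g j ω| * 2 ^ N j ≤ C * 2 ^ X) (hBt : Det p B F.T)
    (hBh : ∀ j ω ω', 0 < p ω → 0 < p ω' → B ω = B ω' →
      |h j ω - h j ω'| * 2 ^ (w + N j) ≤ 2 ^ (X - mm j))
    (hBg : ∀ j ω ω', 0 < p ω → 0 < p ω' → B ω = B ω' →
      |g j ω - g j ω'| * 2 ^ N j ≤ 2 ^ (X - mm j)) :
    PathN p B (slam F w) (tq F w X) (fun j ω => ⌊(2 : ℝ) ^ (w + N j) * h j ω⌋)
      (fun j ω τ => aq F w (N j) (h j) (g j) ω + τ * (2 ^ N j * g j ω / 2 ^ X)) X mm (C + 1) where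
  det j ω ω' a b e := by
    have h1 := aq_det (N := N j) hpA (H j) ω ω' a b e
    have h2 := (H j ω ω' (hpA ω a) (hpA ω' b) e).1
    funext τ
    show aq F w (N j) (h j) (g j) ω + τ * (2 ^ N j * g j ω / 2 ^ X) =
      aq F w (N j) (h j) (g j) ω' + τ * (2 ^ N j * g j ω' / 2 ^ X)
    rw [h1, h2]
  val j ω hω := aq_rel hwX (hg j ω (hpA ω hω))
  near j ω ω' a b e τ t0 t1 := by
    have k1 := hBh j ω ω' a b e
    have k2 := hBg j ω ω' a b e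
    have k3 : F.T ω = F.T ω' := hBt ω ω' a b e
    have k4 : F.t ω = F.t ω' := by
      unfold Fam.t
      rw [k3]
    have k5 : F.T1 w ω = F.T1 w ω' := by
      unfold Fam.T1
      rw [k3]
    have t0' : (0 : ℝ) ≤ τ := by exact_mod_cast t0
    have t1' : (τ : ℝ) ≤ 2 ^ X := by exact_mod_cast t1.le
    obtain ⟨s1, s2⟩ := t_T1 F (show w ≤ J by omega) ω
    obtain ⟨s, hs⟩ : ∃ s, s = F.t ω - (F.T1 w ω : ℝ) / 2 ^ w := ⟨_, rfl⟩
    have hs0 : 0 ≤ s := by rw [hs]; linarith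
    have hs1 : s ≤ 1 / 2 ^ w := by rw [hs]; linarith
    have hX : (0 : ℝ) < 2 ^ X := by positivity
    have hN : (0 : ℝ) < 2 ^ N j := by positivity
    have hwN : (0 : ℝ) < 2 ^ (w + N j) := by positivity
    have e1 : aq F w (N j) (h j) (g j) ω + τ * (2 ^ N j * g j ω / 2 ^ X) -
        (aq F w (N j) (h j) (g j) ω' + τ * (2 ^ N j * g j ω' / 2 ^ X)) =
        2 ^ (w + N j) * (h j ω - h j ω') - 2 ^ (w + N j) * s * (g j ω - g j ω') +
          τ / 2 ^ X * (2 ^ N j * (g j ω - g j ω')) := by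
      unfold aq
      rw [← k4, ← k5, ← hs]
      ring
    have a1 : |(2 : ℝ) ^ (w + N j) * (h j ω - h j ω')| ≤ 2 ^ (X - mm j) := by
      rw [abs_mul, abs_of_pos hwN, mul_comm]
      exact k1
    have a2 : |(2 : ℝ) ^ (w + N j) * s * (g j ω - g j ω')| ≤ 2 ^ (X - mm j) := by
      rw [abs_mul, abs_mul, abs_of_pos hwN, abs_of_nonneg hs0]
      calc (2 : ℝ) ^ (w + N j) * s * |g j ω - g j ω'| ≤
          2 ^ (w + N j) * (1 / 2 ^ w) * |g j ω - g j ω'| := by gcongr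
        _ = |g j ω - g j ω'| * 2 ^ N j := by
            rw [pow_add]
            field_simp
        _ ≤ _ := k2
    have a3 : |(τ : ℝ) / 2 ^ X * (2 ^ N j * (g j ω - g j ω'))| ≤ 2 ^ (X - mm j) := by
      rw [abs_mul, abs_mul, abs_of_pos hN, abs_of_nonneg (by positivity)]
      calc (τ : ℝ) / 2 ^ X * (2 ^ N j * |g j ω - g j ω'|) ≤ 1 * (2 ^ N j * |g j ω - g j ω'|) := by
            refine mul_le_mul_of_nonneg_right ?_ (by positivity)
            rw [div_le_one hX]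
            exact t1'
        _ = |g j ω - g j ω'| * 2 ^ N j := by ring
        _ ≤ _ := k2
    show |aq F w (N j) (h j) (g j) ω + τ * (2 ^ N j * g j ω / 2 ^ X) -
        (aq F w (N j) (h j) (g j) ω' + τ * (2 ^ N j * g j ω' / 2 ^ X))| ≤ _
    rw [e1]
    have hm : (0 : ℝ) < 2 ^ (X - mm j) := by positivity
    have b1 := abs_add_le ((2 : ℝ) ^ (w + N j) * (h j ω - h j ω') -
      2 ^ (w + N j) * s * (g j ω - g j ω')) (τ / 2 ^ X * (2 ^ N j * (g j ω - g j ω')))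
    have b2 := abs_sub ((2 : ℝ) ^ (w + N j) * (h j ω - h j ω'))
      (2 ^ (w + N j) * s * (g j ω - g j ω'))
    nlinarith

end Pool.ONE72
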