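import Pool.Agent.H72.ONE1.Nfr
import Pool.Agent.H97.GAIN.Law

/-!
# The instance of `OneI` for one family

`one_fam`: the hypotheses of one hop for the height of the target, from the independence of its own
velocity, the few bits of the finer digits of the ball and the rows over the matched context.
-/

set_option autoImplicit false

namespace Pool.ONE72

open Finset Real
open Pool.Agent.H49.Ent Pool.Agent.H32.Dense Pool.STK Pool.KA Pool.KSAT Pool.K2S Pool.PB Pool.GEN
open Pool.LPX Pool.ONE17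

variable {m J : ℕ} {F : Fam m J} {A : F.Ω → Prop} {𝒵 𝒵' φ : Type} {p : F.Ω → ℝ}

/-- The digits of a floor. -/
theorem tp_fl {x : ℝ} {ℓ X i : ℕ} (hi : i ≤ X) :
    tp X i ⌊(2 : ℝ) ^ (ℓ + X) * x⌋ = ⌊(2 : ℝ) ^ (ℓ + i) * x⌋ := by
  unfold tp
  have h1 : (2 : ℝ) ^ (ℓ + i) * x = (2 ^ (ℓ + X) * x) / ((2 ^ (X - i) : ℕ) : ℝ) := by
    have h2 : (2 : ℝ) ^ (ℓ + X) = 2 ^ (ℓ + i) * 2 ^ (X - i) := by
      rw [← pow_add]
      congr 1
      omega
    rw [h2]
    push_cast
    field_simp
  rw [h1, Int.floor_div_natCast]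
  push_cast
  rfl

/-- The three heights of the context. -/
noncomputable def h3 (F : Fam m J) (y : Fin m) (hu hv : F.Ω → ℝ) (j : Fin 3) : F.Ω → ℝ :=
  if j = 0 then fun ω => F.x ω y else if j = 1 then hu else hv

/-- Their velocities. -/
noncomputable def g3 (F : Fam m J) (y : Fin m) (gu gv : F.Ω → ℝ) (j : Fin 3) : F.Ω → ℝ :=
  if j = 0 then fun ω => F.d ω y else if j = 1 then gu else gv

/-- Their digits. -/
def l3 (Lu Lv : ℕ) (j : Fin 3) : ℕ := if j = 0 then 0 else if j = 1 then Lu else Lv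

/-- The digits of the context. -/
noncomputable def k3 (F : Fam m J) (y : Fin m) (hu hv : F.Ω → ℝ) (w X Lu Lv mm : ℕ) (ω : F.Ω)
    (j : Fin 3) : ℤ := tp X mm ⌊(2 : ℝ) ^ (w + (l3 Lu Lv j + X)) * h3 F y hu hv j ω⌋

/-- The path of the active coordinate. -/
noncomputable def yy (F : Fam m J) (y : Fin m) (P w : ℕ) (ω : F.Ω) : ℤ × (F.ζ × ℕ) :=
  (F.D P ω y, (F.Z ω, F.T1 w ω))

theorem yy_det {y : Fin m} {P w : ℕ} : Det p (slam F w) (yy F y P w) := by
  intro ω ω' _ _ e
  obtain ⟨-, e2, e3, e4⟩ := slam_eq e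
  have e5 : F.D P ω y = F.D P ω' y := by
    unfold Fam.D
    rw [e2]
  exact Prod.ext e5 (Prod.ext e3 e4)

open Classical in
/-- **The instance.** -/
theorem one_fam (hp : IsLaw p) (hpA : ∀ ω, 0 < p ω → A ω) {w X mm M P Na Lu Lv Ln : ℕ}
    (hwX : w + X ≤ J) (hmX : mm ≤ X) (hMX : M ≤ X) {y : Fin m} {z : F.Ω → 𝒵} {z' : F.Ω → 𝒵'}
    {hu hv hn gu gv gn : F.Ω → ℝ} (lu : Lin F A w hu gu) (lv : Lin F A w hv gv)
    (ln : Lin F A w hn gn) (bu : ∀ ω, A ω → |gu ω| * 2 ^ Lu ≤ 1)
    (bv : ∀ ω, A ω → |gv ω| * 2 ^ Lv ≤ 1) (bn : ∀ ω, A ω → |gn ω| * 2 ^ Ln ≤ 1)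
    (hz : Det p (slam F w) z) {Bf : F.Ω → φ} (bz : Det p Bf z)
    (ba : Det p Bf (fun ω => ⌊(2 : ℝ) ^ Na * gn ω⌋))
    (bU : Det p Bf (fun ω => ⌊(2 : ℝ) ^ (w + (Ln + X)) * hn ω⌋))
    (b0 : Det p Bf (fun ω => ⌊(2 : ℝ) ^ (w + mm) * F.x ω y⌋))
    (b0' : Det p Bf (fun ω => ⌊(2 : ℝ) ^ mm * F.d ω y⌋))
    (b1 : Det p Bf (fun ω => ⌊(2 : ℝ) ^ (w + Lu + mm) * hu ω⌋))
    (b1' : Det p Bf (fun ω => ⌊(2 : ℝ) ^ (Lu + mm) * gu ω⌋))
    (b2 : Det p Bf (fun ω => ⌊(2 : ℝ) ^ (w + Lv + mm) * hv ω⌋))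
    (b2' : Det p Bf (fun ω => ⌊(2 : ℝ) ^ (Lv + mm) * gv ω⌋)) {δ θ θ' ψ d h ϖ : ℝ}
    (few : CH p Bf (fun ω => (F.D P ω y, (z' ω, F.W ω))) ≤ δ)
    (iu : CH p (fun ω => ⌊(2 : ℝ) ^ (Ln + X) * gn ω⌋)
      (fun ω => (⌊(2 : ℝ) ^ Na * gn ω⌋, (z ω, (F.D P ω y, F.W ω)))) ≤ θ)
    (il : θ' ≤ CH p (fun ω => ⌊(2 : ℝ) ^ (Ln + X) * gn ω⌋)
      (fun ω => (⌊(2 : ℝ) ^ Na * gn ω⌋, (z' ω, (z ω, (F.D P ω y, F.W ω))))))
    (hθ : θ - θ' + δ + ψ ≤ d)
    (hT : ((J : ℝ) - w) * Real.log 2 - ψ ≤ CH p F.T (slam F w)) (hψ : ψ ≤ d)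
    (hd3 : 3 * Real.log 33 ≤ d)
    (nf : ∀ i : ℕ, i ≤ M → ∀ G : F.Ω → Prop, ϖ ≤ Pe p G →
      CH (cond p G True) (fun ω => ⌊(2 : ℝ) ^ (w + Ln + M) * hn ω⌋)
        (fun ω => (⌊(2 : ℝ) ^ (w + Ln + i) * hn ω⌋,
          ctxK F y z hu hv w X (w + Lu) (w + Lv) mm ω)) ≤
      (1 - h) * ((M : ℝ) - i) * Real.log 2 + d) :
    OneI p (fun ω => (F.D P ω y, (z' ω, (F.W ω, Bf ω)))) (slam F w) (yy F y P w)
      (fun ω => (yy F y P w ω, tq F w X ω))
      (fun ω => (z ω, k3 F y hu hv w X Lu Lv mm ω)) (tq F w X)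
      (fun ω => ⌊(2 : ℝ) ^ (w + (Ln + X)) * hn ω⌋) (fun ω => ⌊(2 : ℝ) ^ (Ln + X) * gn ω⌋)
      (fun ω => (z ω, ⌊(2 : ℝ) ^ Na * gn ω⌋)) (aq F w (Ln + X) hn gn) (fun q => {q}) X M 3 h ϖ d
      0 := by
  have h0 := hp.nonneg
  obtain ⟨B, hB⟩ : ∃ B : F.Ω → ℤ × (𝒵' × ((ℕ × F.ζ) × φ)), B = fun ω =>
    (F.D P ω y, (z' ω, (F.W ω, Bf ω))) := ⟨_, rfl⟩
  have hψ0 : 0 ≤ d := by
    have : 0 ≤ Real.log 33 := Real.log_nonneg (by norm_num)
    linarith
  have hBf : ∀ ω ω', B ω = B ω' → Bf ω = Bf ω' := fun ω ω' e => by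
    rw [hB] at e
    exact (Prod.mk.inj (Prod.mk.inj (Prod.mk.inj e).2).2).2
  have hBW : ∀ ω ω', B ω = B ω' → F.W ω = F.W ω' := fun ω ω' e => by
    rw [hB] at e
    exact (Prod.mk.inj (Prod.mk.inj (Prod.mk.inj e).2).2).1
  have hBD : ∀ ω ω', B ω = B ω' → F.D P ω y = F.D P ω' y := fun ω ω' e => by
    rw [hB] at e
    exact (Prod.mk.inj e).1
  have hBY : ∀ ω ω', B ω = B ω' → yy F y P w ω = yy F y P w ω' := fun ω ω' e => by
    have e1 := hBW ω ω' e
    have e2 : F.T ω = F.T ω' := congrArg Prod.fst e1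
    have e3 : F.Z ω = F.Z ω' := congrArg Prod.snd e1
    refine Prod.ext (hBD ω ω' e) (Prod.ext e3 ?_)
    show F.T1 w ω = F.T1 w ω'
    unfold Fam.T1
    rw [e2]
  have hXg : ∀ {g : F.Ω → ℝ} {L : ℕ}, (∀ ω, A ω → |g ω| * 2 ^ L ≤ 1) →
      ∀ ω, A ω → |g ω| * 2 ^ (L + X) ≤ 1 * 2 ^ X := by
    intro g L hb ω hω
    rw [pow_add, ← mul_assoc]
    exact mul_le_mul_of_nonneg_right (hb ω hω) (by positivity)
  have hcomp : ∀ {γ : Type} {f : F.Ω → γ}, Det p Bf f → Det p B f := fun hf ω ω' a b e =>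
    hf ω ω' a b (hBf ω ω' e)
  rw [← hB]
  exact
    { ok :=
        { law := hp
          t0 := fun ω _ => tq_bd F hwX ω
          tB := fun ω ω' _ _ e => by
            have e1 := hBW ω ω' e
            have e2 : F.T ω = F.T ω' := congrArg Prod.fst e1
            unfold tq Fam.T1
            rw [e2]
          lY := yy_det
          SY := fun ω ω' _ _ e => e
          tf := by
            -- the time digits given the line
            have a1 : CH p F.T (slam F w) ≤ CH p (tq F w X) (slam F w) +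
                ((J : ℝ) - (w + X)) * Real.log 2 := by
              have b1 := CH_le_add h0 F.T (tq F w X) (slam F w)
              have b2 : CH p F.T (fun ω => (tq F w X ω, slam F w ω)) ≤
                  CH p F.T (slam F (w + X)) := by
                refine CH_mono_cond h0 fun ω ω' _ _ e => ?_
                have e1 : tq F w X ω = tq F w X ω' := (Prod.mk.inj e).1
                obtain ⟨f1, f2, f3, f4⟩ := slam_eq (Prod.mk.inj e).2
                have f5 : F.T1 (w + X) ω = F.T1 (w + X) ω' := by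
                  unfold tq at e1
                  rw [f4] at e1
                  have : ((F.T1 (w + X) ω : ℕ) : ℤ) = (F.T1 (w + X) ω' : ℕ) := by linarith
                  exact_mod_cast this
                unfold slam Fam.l
                rw [f1, f2, f3, f5]
              have b3 := Pool.MM97.T_le hp hwX (slam F (w + X)) (fun ω ω' _ _ e =>
                (slam_eq e).2.2.2)
              push_cast at b3
              linarith
            have e2 : (X : ℝ) * Real.log 2 = ((J : ℝ) - w) * Real.log 2 -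
              ((J : ℝ) - (w + X)) * Real.log 2 := by ring
            linarith
          nb := fun ω ω' _ _ e => by
            rw [Finset.mem_singleton]
            exact (hBY ω ω' e).symm
          card := fun q => by
            rw [Finset.card_singleton, Real.exp_zero, Nat.cast_one]
          full := by
            have := CH_nonneg h0 (yy F y P w) B
            linarith }
      u := by
        have h1 := crd_lin (B := B) hpA hwX ln (C := 1) le_rfl (N := Ln + X) (hXg bn) (hcomp bU)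
        have e1 : (1 : ℝ) + 2 = 3 := by norm_num
        rwa [e1] at h1
      MX := hMX
      natl := fun ω ω' a b e => by
        have e1 := (ln ω ω' (hpA ω a) (hpA ω' b) e).1
        exact Prod.ext (hz ω ω' a b e) (by
          show ⌊(2 : ℝ) ^ Na * gn ω⌋ = ⌊(2 : ℝ) ^ Na * gn ω'⌋
          rw [e1])
      natB := fun ω ω' a b e => Prod.ext (hcomp bz ω ω' a b e) (hcomp ba ω ω' a b e)
      ind := by
        have a1 : CH p (fun ω => ⌊(2 : ℝ) ^ (Ln + X) * gn ω⌋)
            (fun ω => (yy F y P w ω, (z ω, ⌊(2 : ℝ) ^ Na * gn ω⌋))) ≤ θ + ψ := by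
          have b1 := Pool.GN97.time_out hp (show w ≤ J by omega)
            (X := fun ω => ⌊(2 : ℝ) ^ (Ln + X) * gn ω⌋)
            (Y := fun ω => (yy F y P w ω, (z ω, ⌊(2 : ℝ) ^ Na * gn ω⌋)))
            (fun ω ω' a b e => by
              have e1 := (ln ω ω' (hpA ω a) (hpA ω' b) e).1
              show ⌊(2 : ℝ) ^ (Ln + X) * gn ω⌋ = ⌊(2 : ℝ) ^ (Ln + X) * gn ω'⌋
              rw [e1])
            (fun ω ω' a b e => by
              have e1 := (ln ω ω' (hpA ω a) (hpA ω' b) e).1
              refine Prod.ext (yy_det ω ω' a b e) (Prod.ext (hz ω ω' a b e) ?_)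
              show ⌊(2 : ℝ) ^ Na * gn ω⌋ = ⌊(2 : ℝ) ^ Na * gn ω'⌋
              rw [e1])
            (fun ω ω' _ _ e => by
              have e1 : yy F y P w ω = yy F y P w ω' := (Prod.mk.inj e).1
              exact congrArg (fun q => q.2.2) e1)
            (fun ω ω' _ _ e => by
              have e1 : yy F y P w ω = yy F y P w ω' := (Prod.mk.inj e).1
              exact congrArg (fun q => q.2.1) e1) (ψ := ψ) hT
          refine b1.trans (add_le_add ?_ le_rfl)
          refine le_trans (CH_mono_cond h0 fun ω ω' _ _ e => ?_) iu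
          simp only [Prod.mk.injEq] at e ⊢
          obtain ⟨⟨e1, e2, e3⟩, e4⟩ := e
          have e5 : F.D P ω y = F.D P ω' y := congrArg Prod.fst e1
          exact ⟨e3, e2, e5, e4⟩
        have a2 : θ' - δ ≤ CH p (fun ω => ⌊(2 : ℝ) ^ (Ln + X) * gn ω⌋)
            (fun ω => (yy F y P w ω, B ω)) := by
          obtain ⟨Q, hQ⟩ : ∃ Q : F.Ω → ℤ × (𝒵' × (𝒵 × (ℤ × (ℕ × F.ζ)))), Q = fun ω =>
            (⌊(2 : ℝ) ^ Na * gn ω⌋, (z' ω, (z ω, (F.D P ω y, F.W ω)))) := ⟨_, rfl⟩
          rw [← hQ] at il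
          have b1 := CH_le_add h0 (fun ω => ⌊(2 : ℝ) ^ (Ln + X) * gn ω⌋) Bf Q
          have b2 : CH p (fun ω => ⌊(2 : ℝ) ^ (Ln + X) * gn ω⌋) (fun ω => (Bf ω, Q ω)) ≤
              CH p (fun ω => ⌊(2 : ℝ) ^ (Ln + X) * gn ω⌋) (fun ω => (yy F y P w ω, B ω)) := by
            refine CH_mono_cond h0 fun ω ω' _ _ e => ?_
            rw [hQ] at e
            simp only [Prod.mk.injEq] at e
            obtain ⟨e1, e2, e3, e4, e5, e6⟩ := e
            have e7 : B ω = B ω' := by
              rw [hB]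
              simp only [Prod.mk.injEq]
              exact ⟨e5, e3, e6, e1⟩
            exact Prod.ext (hBY ω ω' e7) e7
          have b3 : CH p Bf Q ≤ CH p Bf (fun ω => (F.D P ω y, (z' ω, F.W ω))) := by
            refine CH_mono_cond h0 fun ω ω' _ _ e => ?_
            rw [hQ] at e
            simp only [Prod.mk.injEq] at e ⊢
            obtain ⟨-, e3, -, e5, e6⟩ := e
            exact ⟨e5, e3, e6⟩
          linarith
        linarith
      ctx := by
        have hq := q3_law (B := B) (ln := slam F w) hp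
        have a1 := ctx_path (ι := Fin 3) (p := p) (B := B) (ln := slam F w)
          (Y := yy F y P w) (t := tq F w X) (X := X) (C := 3) hp (fun ω _ => tq_bd F hwX ω)
          (V := fun j ω => ⌊(2 : ℝ) ^ (w + (l3 Lu Lv j + X)) * h3 F y hu hv j ω⌋)
          (m := fun _ => mm)
          (by
            have h1 := path_lin (ι := Fin 3) (p := p) (B := B) hpA hwX
              (h := h3 F y hu hv) (g := g3 F y gu gv)
              (N := fun j => l3 Lu Lv j + X) (mm := fun _ => mm) (C := 2) ?_ le_rfl ?_ ?_ ?_ ?_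
            · have e1 : (2 : ℝ) + 1 = 3 := by norm_num
              rw [e1] at h1
              exact h1
            · intro j
              fin_cases j
              · exact lin_x y
              · exact lu
              · exact lv
            · intro j ω hω
              have key : ∀ {g : F.Ω → ℝ} {L : ℕ}, (∀ ω, A ω → |g ω| * 2 ^ L ≤ 1) →
                  |g ω| * 2 ^ (L + X) ≤ 2 * 2 ^ X := fun hb => by
                have := hXg hb ω hω
                have h2 : (0 : ℝ) < 2 ^ X := by positivity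
                linarith
              fin_cases j
              · exact key (g := fun ω => F.d ω y) (L := 0) (fun ω _ => by
                  rw [pow_zero, mul_one]
                  exact F.dir ω y)
              · exact key bu
              · exact key bv
            · intro ω ω' _ _ e
              exact congrArg Prod.fst (hBW ω ω' e)
            · intro j ω ω' a b e
              have key : ∀ {h : F.Ω → ℝ} {L : ℕ},
                  ⌊(2 : ℝ) ^ (w + L + mm) * h ω⌋ = ⌊(2 : ℝ) ^ (w + L + mm) * h ω'⌋ →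
                  |h ω - h ω'| * 2 ^ (w + (L + X)) ≤ 2 ^ (X - mm) := fun {h} {L} e1 => by
                have h2 := fl_near e1
                have e2 : (2 : ℝ) ^ (w + (L + X)) = 2 ^ (w + L + mm) * 2 ^ (X - mm) := by
                  rw [← pow_add]
                  congr 1
                  omega
                rw [e2, ← mul_assoc]
                exact mul_le_of_le_one_left (by positivity) h2
              fin_cases j
              · exact key (h := fun ω => F.x ω y) (L := 0) (hcomp b0 ω ω' a b e)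
              · exact key (hcomp b1 ω ω' a b e)
              · exact key (hcomp b2 ω ω' a b e)
            · intro j ω ω' a b e
              have key : ∀ {g : F.Ω → ℝ} {L : ℕ},
                  ⌊(2 : ℝ) ^ (L + mm) * g ω⌋ = ⌊(2 : ℝ) ^ (L + mm) * g ω'⌋ →
                  |g ω - g ω'| * 2 ^ (L + X) ≤ 2 ^ (X - mm) := fun {g} {L} e1 => by
                have h2 := fl_near e1
                have e2 : (2 : ℝ) ^ (L + X) = 2 ^ (L + mm) * 2 ^ (X - mm) := by
                  rw [← pow_add]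
                  congr 1
                  omega
                rw [e2, ← mul_assoc]
                exact mul_le_of_le_one_left (by positivity) h2
              fin_cases j
              · refine key (g := fun ω => F.d ω y) (L := 0) ?_
                rw [zero_add]
                exact hcomp b0' ω ω' a b e
              · exact key (hcomp b1' ω ω' a b e)
              · exact key (hcomp b2' ω ω' a b e)) (by norm_num)
          (kd (fun ω => ⌊(2 : ℝ) ^ (Ln + X) * gn ω⌋))
        have e1 : (Fintype.card (Fin 3) : ℝ) * Real.log (11 * 3) = 3 * Real.log 33 := by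
          rw [Fintype.card_fin]
          norm_num
        rw [e1] at a1
        have a2 : CH (q3 p B (slam F w)) (fun q => (z q.2, k3 F y hu hv w X Lu Lv mm q.2))
            (Wq (slam F w) (tq F w X) (yy F y P w)
              (kd (fun ω => ⌊(2 : ℝ) ^ (Ln + X) * gn ω⌋))) ≤
            CH (q3 p B (slam F w)) (fun q j => tp X mm
              ⌊(2 : ℝ) ^ (w + (l3 Lu Lv j + X)) * h3 F y hu hv j q.2⌋)
            (Wq (slam F w) (tq F w X) (yy F y P w)
              (kd (fun ω => ⌊(2 : ℝ) ^ (Ln + X) * gn ω⌋))) := by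
          refine CH_mono_left hq.nonneg fun q q' a b e => ?_
          obtain ⟨e2, e3⟩ := Prod.mk.inj e
          obtain ⟨x1, x2, x3, x4, x5⟩ := q3_pos h0 a
          obtain ⟨y1, y2, y3, y4, y5⟩ := q3_pos h0 b
          have e4 : slam F w q.1.1 = slam F w q'.1.1 := congrArg (fun z => z.1) e3
          refine Prod.ext ?_ e2
          show z q.2 = z q'.2
          rw [← hz _ _ x2 x3 x5, ← hz _ _ y2 y3 y5, ← hcomp bz _ _ x1 x2 x4,
            ← hcomp bz _ _ y1 y2 y4]
          exact hz _ _ x1 y1 e4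
        linarith
      nf := by
        intro i hi G hG
        have hc := cond_nonneg h0 G True
        refine le_trans ?_ (nf i hi G hG)
        have e1 : ∀ j, j ≤ X → ∀ ω, tp X j ⌊(2 : ℝ) ^ (w + (Ln + X)) * hn ω⌋ =
            ⌊(2 : ℝ) ^ (w + Ln + j) * hn ω⌋ := fun j hj ω => by
          rw [← add_assoc]
          exact tp_fl hj
        have e2 : (fun ω => tp X M ⌊(2 : ℝ) ^ (w + (Ln + X)) * hn ω⌋) =
            fun ω => ⌊(2 : ℝ) ^ (w + Ln + M) * hn ω⌋ := funext fun ω => e1 M hMX ω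
        rw [e2]
        refine CH_mono_cond hc fun ω ω' _ _ e => ?_
        simp only [Prod.mk.injEq] at e
        obtain ⟨f1, ⟨f2, f3⟩, f4, f5⟩ := e
        rw [e1 i (hi.trans hMX), e1 i (hi.trans hMX)] at f1
        have k0 := congrFun f3 0
        have k1 := congrFun f3 1
        have k2 := congrFun f3 2
        have g0 : F.X (w + mm) ω y = F.X (w + mm) ω' y := by
          have r : ∀ o : F.Ω, k3 F y hu hv w X Lu Lv mm o 0 = F.X (w + mm) o y := fun o => by
            show tp X mm ⌊(2 : ℝ) ^ (w + (0 + X)) * F.x o y⌋ = _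
            rw [zero_add, tp_fl hmX]
            rfl
          rwa [r, r] at k0
        have g1 : ⌊(2 : ℝ) ^ (w + Lu + mm) * hu ω⌋ = ⌊(2 : ℝ) ^ (w + Lu + mm) * hu ω'⌋ := by
          have r : ∀ o : F.Ω, k3 F y hu hv w X Lu Lv mm o 1 =
              ⌊(2 : ℝ) ^ (w + Lu + mm) * hu o⌋ := fun o => by
            show tp X mm ⌊(2 : ℝ) ^ (w + (Lu + X)) * hu o⌋ = _
            rw [← add_assoc, tp_fl hmX]
          rwa [r, r] at k1
        have g2 : ⌊(2 : ℝ) ^ (w + Lv + mm) * hv ω⌋ = ⌊(2 : ℝ) ^ (w + Lv + mm) * hv ω'⌋ := by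
          have r : ∀ o : F.Ω, k3 F y hu hv w X Lu Lv mm o 2 =
              ⌊(2 : ℝ) ^ (w + Lv + mm) * hv o⌋ := fun o => by
            show tp X mm ⌊(2 : ℝ) ^ (w + (Lv + X)) * hv o⌋ = _
            rw [← add_assoc, tp_fl hmX]
          rwa [r, r] at k2
        have g3' : F.T1 (w + X) ω = F.T1 (w + X) ω' := by
          have r1 : F.T1 w ω = F.T1 w ω' := congrArg (fun q => q.2.2) f4
          unfold tq at f5
          rw [r1] at f5
          have : ((F.T1 (w + X) ω : ℕ) : ℤ) = (F.T1 (w + X) ω' : ℕ) := by linarith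
          exact_mod_cast this
        exact Prod.ext f1 (Prod.ext f2 (Prod.ext g3' (Prod.ext g0 (Prod.ext g1 g2)))) }

end Pool.ONE72
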