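import Pool.Agent.H72.ONE1.Rpc

/-!
# The labels of the three coordinates at three windows

`g3v`, `h3v`: the velocities and the heights of the three coordinates. `LbD`: their labels over the
active coordinate at three windows.
-/

set_option autoImplicit false

namespace Pool.ONE72

open Finset Real
open Pool.Agent.H49.Ent Pool.Agent.H32.Dense Pool.STK Pool.KA Pool.KSAT Pool.K2S Pool.PB Pool.GEN
open Pool.S6C Pool.LA91 Pool.RCD Pool.OWN72

variable {m J : ℕ}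

/-- The velocities of the three coordinates: `u`, `v - f u`, `t - κu u - κv v`. -/
noncomputable def g3v (F : Fam m J) (u v t : Fin m) (f κu κv : PtT F → ℝ) (j : Fin 3)
    (ω : F.Ω) : ℝ :=
  if j = 0 then F.d ω u else if j = 1 then F.d ω v - f (ptr F J ω) * F.d ω u
  else F.d ω t - κu (ptr F J ω) * F.d ω u - κv (ptr F J ω) * F.d ω v

/-- The heights of the three coordinates. -/
noncomputable def h3v (F : Fam m J) (u v t : Fin m) (f κu κv : PtT F → ℝ) (j : Fin 3)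
    (ω : F.Ω) : ℝ :=
  if j = 0 then F.x ω u else if j = 1 then F.x ω v - f (ptr F J ω) * F.x ω u
  else F.x ω t - κu (ptr F J ω) * F.x ω u - κv (ptr F J ω) * F.x ω v

/-- **The labels of the three coordinates** over the active one: `i` is the window, `j` is the
coordinate. -/
structure LbD (F : Fam m J) (A : F.Ω → Prop) (y u v t : Fin m) (f κu κv : PtT F → ℝ)
    (γ γc : Fin 3 → Fin 3 → PtT F → ℝ) (W : Fin 3 → ℕ) (L : Fin 3 → Fin 3 → ℕ) (sz : Fin 3 → ℕ)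
    (se : ℕ) : Prop where
  cf : Cl1 F A (W 0) f
  cu : Cl1 F A (W 0) κu
  cv : Cl1 F A (W 0) κv
  sf : ∀ ω, A ω → |f (ptr F J ω)| ≤ 2 ^ se
  su : ∀ ω, A ω → |κu (ptr F J ω)| ≤ 2 ^ sz 2
  sv : ∀ ω, A ω → |κv (ptr F J ω)| ≤ 2 ^ sz 2
  ca : ∀ i j, Cl1 F A (W i) (γ i j)
  cc : ∀ i j, Cl1 F A (W i) (γc i j)
  rep : ∀ i j ω, A ω → |ov F y (g3v F u v t f κu κv j) (γ i j) (γc i j) ω| * 2 ^ L i j ≤ 1
  siz : ∀ i j ω, A ω → |γ i j (ptr F J ω)| ≤ 2 ^ sz j
  nat : ∀ i j ω, A ω → |γ i j (ptr F J ω) - γ 0 j (ptr F J ω)| * 2 ^ L 0 j ≤ 2 ^ se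

theorem LbD.sub {F : Fam m J} {A B : F.Ω → Prop} {y u v t : Fin m} {f κu κv : PtT F → ℝ}
    {γ γc : Fin 3 → Fin 3 → PtT F → ℝ} {W : Fin 3 → ℕ} {L : Fin 3 → Fin 3 → ℕ} {sz : Fin 3 → ℕ}
    {se : ℕ} (h : LbD F A y u v t f κu κv γ γc W L sz se) (hB : Sub B A) :
    LbD F B y u v t f κu κv γ γc W L sz se :=
  ⟨h.cf.sub hB, h.cu.sub hB, h.cv.sub hB, fun ω x => h.sf ω (hB ω x), fun ω x => h.su ω (hB ω x),
    fun ω x => h.sv ω (hB ω x), fun i j => (h.ca i j).sub hB, fun i j => (h.cc i j).sub hB,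
    fun i j ω x => h.rep i j ω (hB ω x), fun i j ω x => h.siz i j ω (hB ω x),
    fun i j ω x => h.nat i j ω (hB ω x)⟩

end Pool.ONE72
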