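import Pool.Agent.H72.ONE1.Cns
import Pool.Agent.H62.ONE1.Nfu
import Pool.Agent.H62.ONE1.Lbl
import Pool.Agent.H91.ONE.Low
import Pool.Agent.H28.ONE.Gn

/-!
# A window with a tie above the target is impossible

`rate_loc`: the rate near a point. `one_loc0`: the classes with a label of the target at a window
near a window with a tie in the base above the slope of the target do not exist.
-/

set_option autoImplicit false

namespace Pool.ONE72

open Finset Real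
open Pool.Agent.H49.Ent Pool.Agent.H32.Dense Pool.STK Pool.KA Pool.KSAT Pool.K2S Pool.PB Pool.GEN
open Pool.S6C Pool.LA91 Pool.RCD Pool.OWN72 Pool.MM97
open Pool.LBT (ThrOf)
open Pool.ONE (tgs)
open Pool.ONE91 (BxN Cst cst_ex v_lad t_low)
open Pool.ONE62 (lbl_cls NfB nf_use_of)
open Pool.ONE28 (gain_void)
open Pool.PRC54 (IprI)

/-- **The rate near a point.** -/
theorem rate_loc {rr : ℝ → ℝ} {Q h ε : ℝ} (hd : DifferentiableAt ℝ rr Q)
    (hD : deriv rr Q < 1 - h) (hε : 0 < ε) : ∃ δ : ℝ, 0 < δ ∧ ∀ r : ℝ, 0 < r → 8 * r ≤ δ →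
      ∀ a b : ℝ, |a - Q| ≤ 4 * r → |b - Q| ≤ 4 * r → a ≤ b →
        rr b - rr a ≤ (1 - h) * (b - a) + ε * r := by
  have h3 := (hasDerivAt_iff_isLittleO.1 hd.hasDerivAt).def (c := ε / 8) (by positivity)
  obtain ⟨δ, hδ, h4⟩ := Metric.eventually_nhds_iff.1 h3
  have hb : ∀ z : ℝ, |z - Q| < δ → |rr z - rr Q - deriv rr Q * (z - Q)| ≤ ε / 8 * |z - Q| := by
    intro z hz
    have h5 := h4 (y := z) (by rw [Real.dist_eq]; exact hz)
    rwa [Real.norm_eq_abs, Real.norm_eq_abs, smul_eq_mul, mul_comm (z - Q)] at h5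
  refine ⟨δ, hδ, fun r hr hrd a b ha hb' hab => ?_⟩
  have k1 := (hb a (by linarith)).trans (mul_le_mul_of_nonneg_left ha (by positivity))
  have k2 := (hb b (by linarith)).trans (mul_le_mul_of_nonneg_left hb' (by positivity))
  have k3 := (abs_le.1 k1).1
  have k4 := (abs_le.1 k2).2
  have k5 : deriv rr Q * (b - a) ≤ (1 - h) * (b - a) :=
    mul_le_mul_of_nonneg_right hD.le (by linarith)
  have e1 : deriv rr Q * (b - a) = deriv rr Q * (b - Q) - deriv rr Q * (a - Q) := by ring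
  linarith

/-- The label of the slope itself. -/
theorem lab_self {S : PCl 4} {y u v : Fin 4} (hyu : y ≠ u) {b₀ N₀ : ℝ} :
    ∀ e h : ℝ, 0 < e → 0 < h → ∃ e₀ > 0, Bas S (fun J F A =>
      ∀ (n : ℕ) (a' : PtT F → Fin 4 → ℝ) (c' : PtT F → ℝ),
        ClA F A {y, u} v ⌊b₀ * J⌋₊ n ⌊(N₀ - e₀) * J⌋₊ a' c' →
        ∃ B : F.Ω → Prop, Sub B A ∧ (1 - h) * Pe F.p A ≤ Pe F.p B ∧ ∃ γ γc : PtT F → ℝ,
          MLb F B y (fun ω => F.d ω v - a' (ptr F J ω) u * F.d ω u) ⌊b₀ * J⌋₊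
            ⌊(N₀ - e) * J⌋₊ γ γc) := by
  intro e h he hh
  refine ⟨e, he, 1, one_pos, 0, ?_⟩
  intro J _ F A _ n a' c' H
  refine ⟨A, fun _ h => h, ?_, fun p => a' p y, c', H.ca y (by simp), H.cc, fun ω hω => ?_⟩
  · have h1 : 0 ≤ Pe F.p A := Pe_nonneg F.isLaw A
    nlinarith
  · have h1 := (H.dp ω hω).2.2
    rw [Finset.sum_pair hyu] at h1
    refine le_trans (le_of_eq ?_) h1
    unfold ov
    congr 1
    ring

/-- The threshold is positive near the window. -/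
theorem npos_ex {g n3 K₀ ρ₀ a₀ e₁ σ ε : ℝ} {Pt : ℝ → ℝ → ℝ} {N : ℚ → ℝ}
    (hn3 : n3 = Pt g g - g) (n30 : 0 < n3) (hag : a₀ < g) (hK1 : 1 ≤ K₀) (hρ₀ : 0 < ρ₀)
    (hone : g + ρ₀ ≤ 1)
    (hlin : ∀ w, |w - g| ≤ ρ₀ → |Pt w w - Pt g g - σ * (w - g)| ≤ e₁ * |w - g|)
    (he11 : e₁ ≤ 1) (hσ2 : σ ≤ 2) (hε1 : ε ≤ 1)
    (hNlo : ∀ r : ℝ, 0 < r → 8 * K₀ * r ≤ g - a₀ → 2 * K₀ * r ≤ ρ₀ → ∀ w : ℚ,
      |(w : ℝ) - g| ≤ K₀ * r → (w : ℝ) < 1 → Pt w w - w - ε * r ≤ N w) :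
    ∃ w : ℚ, a₀ < w ∧ (w : ℝ) < g ∧ 0 < N w := by
  have hK0 : 0 < K₀ := by linarith
  obtain ⟨r₁, hr₁, hs⟩ := small_ex [(g - a₀) / (8 * K₀), ρ₀ / (2 * K₀), n3 / (8 * K₀)] (by
    intro m hm
    simp only [List.mem_cons, List.not_mem_nil, or_false] at hm
    rcases hm with rfl | rfl | rfl
    · exact div_pos (by linarith) (by linarith)
    · positivity
    · positivity)
  have s1 := hs ((g - a₀) / (8 * K₀)) (by simp)
  have s2 := hs (ρ₀ / (2 * K₀)) (by simp)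
  have s3 := hs (n3 / (8 * K₀)) (by simp)
  rw [le_div_iff₀ (by linarith)] at s1 s2 s3
  obtain ⟨q, hq⟩ : ∃ q, q = K₀ * r₁ := ⟨_, rfl⟩
  have hrK : r₁ ≤ q := by
    rw [hq]
    exact le_mul_of_one_le_left hr₁.le hK1
  have e1 : 8 * K₀ * r₁ = 8 * q := by rw [hq]; ring
  have e2 : 2 * K₀ * r₁ = 2 * q := by rw [hq]; ring
  have s1' : 8 * q ≤ g - a₀ := by rw [hq]; linarith
  have s2' : 2 * q ≤ ρ₀ := by rw [hq]; linarith
  have s3' : 8 * q ≤ n3 := by rw [hq]; linarith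
  obtain ⟨w, hw1, hw2⟩ := exists_rat_btwn (show g - q < g by linarith)
  have hwg : |(w : ℝ) - g| ≤ q := by
    rw [abs_le]
    constructor <;> linarith
  refine ⟨w, by linarith, hw2, ?_⟩
  have h1 := hNlo r₁ hr₁ (by rw [e1]; exact s1') (by rw [e2]; exact s2') w (by rw [← hq]; exact hwg)
    (by linarith)
  have h2 := (abs_le.1 (hlin w (by linarith))).1
  have h3 : e₁ * |(w : ℝ) - g| ≤ 1 * q := mul_le_mul he11 hwg (abs_nonneg _) (by norm_num)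
  have h4 : σ * (g - w) ≤ 2 * (g - w) := mul_le_mul_of_nonneg_right hσ2 (by linarith)
  have h5 : ε * r₁ ≤ 1 * r₁ := mul_le_mul_of_nonneg_right hε1 hr₁.le
  have e3 : σ * ((w : ℝ) - g) = -(σ * (g - w)) := by ring
  rw [e3] at h2
  linarith

/-- A linear number near a window. -/
theorem ln_bd {d : ℝ → ℝ} {g s a x w : ℝ} (h : |d w - d g - s * (w - g)| ≤ a / 8)
    (hs1 : 1 ≤ s) (hs2 : s ≤ 2) (h1 : g + x - a ≤ w) (h2 : w ≤ g + x + a) :
    (d g - g) + (s - 1) * x - 2 * a ≤ d w - w ∧ d w - w ≤ (d g - g) + (s - 1) * x + 2 * a := by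
  have ha : 0 ≤ a := by linarith
  have k1 := abs_le.1 h
  have k2 : (s - 1) * (w - g - x) ≤ 1 * a := by
    calc (s - 1) * (w - g - x) ≤ (s - 1) * a :=
          mul_le_mul_of_nonneg_left (by linarith) (by linarith)
      _ ≤ 1 * a := mul_le_mul_of_nonneg_right (by linarith) ha
  have k3 : (s - 1) * -(w - g - x) ≤ 1 * a := by
    calc (s - 1) * -(w - g - x) ≤ (s - 1) * a :=
          mul_le_mul_of_nonneg_left (by linarith) (by linarith)
      _ ≤ 1 * a := mul_le_mul_of_nonneg_right (by linarith) ha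
  have e1 : s * (w - g) = (s - 1) * (w - g - x) + (s - 1) * x + (w - g) := by ring
  have e2 : s * (w - g) = -((s - 1) * -(w - g - x)) + (s - 1) * x + (w - g) := by ring
  constructor
  · linarith [k1.1]
  · linarith [k1.2]

/-- The threshold near a window. -/
theorem nn_bd {Pt : ℝ → ℝ → ℝ} {N : ℚ → ℝ} {g σ a x R E₀ : ℝ} {w : ℚ} (ha : 0 < a)
    (hσ1 : 1 ≤ σ) (hσ2 : σ ≤ 2)
    (hlin : ∀ z, |z - g| ≤ R → |Pt z z - Pt g g - σ * (z - g)| ≤ a / 8)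
    (hlo : Pt w w - w - a ≤ N w)
    (hup : ∀ a' : ℝ, (w : ℝ) < a' → a' ≤ 1 → Pt a' a' + E₀ < 1 → N w ≤ Pt a' a' - w)
    (h1 : g + x ≤ w) (h2 : w ≤ g + x + a) (hx : 0 ≤ x) (hxR : x + 2 * a ≤ R)
    (hR1 : g + R ≤ 1) (hPE : Pt g g + E₀ + 2 * R + a < 1) :
    (Pt g g - g) + (σ - 1) * x - 5 * a ≤ N w ∧ N w ≤ (Pt g g - g) + (σ - 1) * x + 5 * a := by
  have hwR : |(w : ℝ) - g| ≤ R := by
    rw [abs_le]
    constructor <;> linarith
  have haR : |(w : ℝ) + a / 2 - g| ≤ R := by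
    rw [abs_le]
    constructor <;> linarith
  have k1 := (ln_bd (d := fun z => Pt z z) (x := x) (hlin w hwR) hσ1 hσ2 (by linarith) h2).1
  have k2 := abs_le.1 (hlin (w + a / 2) haR)
  have k3 : σ * ((w : ℝ) + a / 2 - g) ≤ 2 * ((w : ℝ) + a / 2 - g) :=
    mul_le_mul_of_nonneg_right hσ2 (by linarith)
  have k4 := hup (w + a / 2) (by linarith) (by linarith) (by linarith [k2.2])
  have k5 : (σ - 1) * ((w : ℝ) - g - x) ≤ 1 * a := by
    calc (σ - 1) * ((w : ℝ) - g - x) ≤ (σ - 1) * a :=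
          mul_le_mul_of_nonneg_left (by linarith) (by linarith)
      _ ≤ 1 * a := mul_le_mul_of_nonneg_right (by linarith) ha.le
  have k6 : σ * (a / 2) ≤ 2 * (a / 2) := mul_le_mul_of_nonneg_right hσ2 (by linarith)
  have e1 : σ * ((w : ℝ) + a / 2 - g) =
      (σ - 1) * ((w : ℝ) - g - x) + (σ - 1) * x + ((w : ℝ) - g) + σ * (a / 2) := by ring
  constructor
  · linarith
  · linarith [k2.2]

/-- The record of the ball does not see the own velocity, at three windows. -/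
theorem ipU_of {S : PCl 4} {y : Fin 4} {g : ∀ (J : ℕ) (F : Fam 4 J), F.Ω → ℝ} {N : ℚ → ℝ}
    {P : ℚ} {θ : ℚ → ℚ → ℝ} {x e : ℝ}
    (hI : IprI S (fun J F => ptr F J) (fun J F => F.W) 0 (dQ y P) (mQ y g N) θ x) (he : 0 < e) :
    ∃ r₀ : ℝ, 0 < r₀ ∧ ∀ r : ℝ, 0 < r → r < r₀ → ∀ w j l : ℚ, x - r ≤ w → w ≤ j → j < l →
      (l : ℝ) ≤ x + r → IpU S y g N w j l P (θ j l) (e * r) := by
  obtain ⟨r₀, hr₀, H⟩ := hI e he
  refine ⟨r₀, hr₀, fun r hr hrr w j l h1 h2 h3 h4 => ?_⟩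
  obtain ⟨k, hk, e₀, he₀, H⟩ := H r hr hrr w j l h1 h2 h3 h4 1 one_pos
  refine ⟨k, hk, e₀, he₀, Bas.mono 0 (H 0) ?_⟩
  intro _ _ _ A h V₁ V₂ z zj mz mj a b ha hb
  refine h V₁ V₂ z zj ?_ ?_ _ a b (fun ω _ => rfl) ha hb A
    (fun _ h => h) (by rw [one_mul])
  · rw [add_zero]
    exact mz
  · rw [add_zero]
    exact mj

/-- **The labels of the class.** -/
theorem lbU_of {S : PCl 4} {C₀ : ℝ} (htm : TmC S C₀) {y u v t : Fin 4}
    (hact : Pool.MIC6.ActF S y) {κ : ∀ (J : ℕ) (F : Fam 4 J), PtT F → Fin 4 → ℝ}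
    {κc : ∀ (J : ℕ) (F : Fam 4 J), PtT F → ℝ} {a₀ E₀ M₀ : ℝ} (hE₀ : 0 ≤ E₀)
    (hκ : Bas S (fun J F A => ClA F A {y, u, v} t ⌊a₀ * J⌋₊ ⌊E₀ * J⌋₊ ⌊M₀ * J⌋₊ (κ J F)
      (κc J F))) {N : ℚ → ℝ}
    (hN : MNum S y (fun J F ω => F.d ω t - κ J F (ptr F J ω) u * F.d ω u -
      κ J F (ptr F J ω) v * F.d ω v) a₀ 1 N)
    {w : Fin 3 → ℚ} (hw0 : a₀ < w 0) (hw1 : w 0 ≤ w 1) (hw2 : w 1 ≤ w 2) (hw3 : (w 2 : ℝ) < 1)
    (hN0 : 0 < N (w 0)) {b : Fin 3 → ℝ} (hb : ∀ i, b i ≤ w i) {Nu Nv : Fin 3 → ℝ}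
    (hNu : ∀ i, Nu 0 ≤ Nu i) (hNv : ∀ i, Nv 0 ≤ Nv i)
    (hu : ∀ i, HasA S {y} u (b i) (Nu i + b i)) (hv : HasA S {y, u} v (b 0) (Nv 0 + b 0))
    (hvl : ∀ i, ∀ e h : ℝ, 0 < e → 0 < h → ∃ e₀ > 0, Bas S (fun J F A =>
      ∀ (n : ℕ) (a' : PtT F → Fin 4 → ℝ) (c' : PtT F → ℝ),
        ClA F A {y, u} v ⌊b 0 * J⌋₊ n ⌊(Nv 0 - e₀) * J⌋₊ a' c' →
        ∃ B : F.Ω → Prop, Sub B A ∧ (1 - h) * Pe F.p A ≤ Pe F.p B ∧ ∃ γ γc : PtT F → ℝ,
          MLb F B y (fun ω => F.d ω v - a' (ptr F J ω) u * F.d ω u) ⌊b i * J⌋₊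
            ⌊(Nv i - e) * J⌋₊ γ γc))
    {e s : ℝ} (he : 0 < e) (hs : 0 < s) :
    LbU S y u v t κ (fun i => (w i : ℝ)) Nu Nv (fun i => N (w i)) E₀ e s := by
  refine Bas.mono 0 (lbl_cls htm hact hE₀ (κ := κ) (A₀ := a₀) (B₀ := 1) ?_ hN hw0 hw1 hw2 hw3
    le_rfl hN0 hb hNu hNv hu hv hvl he hs (h := 1 / 2) (by norm_num)) ?_
  · refine Bas.mono 0 hκ fun _ _ F A h => ⟨fun k hk => h.ca k ?_, fun ω hω k hk =>
      (h.dp ω hω).1 k ?_⟩
    · simp only [Finset.mem_insert, Finset.mem_singleton] at hk ⊢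
      tauto
    · simp only [Finset.mem_insert, Finset.mem_singleton] at hk ⊢
      tauto
  · rintro J - F A ⟨B, h1, h2, f, γ, γc, h3⟩
    exact ⟨B, h1, by linarith, f, γ, γc, h3⟩

/-- **A window with a tie above the target is impossible**, from the row over the context and from
the thresholds from above. -/
theorem one_loc0 {Sl σ h c₀ : ℝ} (hσ : 1 < σ) (hSl : σ < Sl) (hS2 : Sl ≤ 2) (hh : 0 < h)
    (hh1 : h ≤ 1) (hc₀ : 0 < c₀) : ∃ e₁ : ℝ, 0 < e₁ ∧ ∃ ϖ : ℝ, 0 < ϖ ∧ ∀ {S : PCl 4} {C₀ x₀ : ℝ}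
    {y u v t : Fin 4} {Wd : Set ℝ} {d1 d2 : ℝ → ℝ} {Pt : ℝ → ℝ → ℝ} {rr : ℝ → ℝ}
    {g ρ₀ E E₀ a₀ M₀ : ℝ} {κ : ∀ (J : ℕ) (F : Fam 4 J), PtT F → Fin 4 → ℝ}
    {κc : ∀ (J : ℕ) (F : Fam 4 J), PtT F → ℝ} {N : ℚ → ℝ}, S.Ne → TmC S C₀ →
    (∀ (τ : ℝ) (J : ℕ) (F : Fam 4 J) (A : F.Ω → Prop), S.St τ J F A → 0 < Pe F.p A) →
    y ≠ u → y ≠ v → y ≠ t → u ≠ v → u ≠ t → v ≠ t → Pool.MIC6.ActF S y → 0 < x₀ →
    (∀ x : ℝ, 0 < x → x ≤ x₀ → Bas S (fun J F A => c₀ * x * J ≤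
      CH (Pool.Agent.H49.Ent.cond F.p A True) (fun ω => F.D ⌊x * J⌋₊ ω y) (ptr F J))) →
    ThrOf (tgs t) S (fun _ => Pt) → DifferentiableAt ℝ rr (Pt g g) →
    deriv rr (Pt g g) < 1 - h → BxN S y u v t Wd d1 d2 (fun w => Pt w w) g ρ₀ e₁ Sl σ E →
    0 < ρ₀ → g < d1 g → d1 g ≤ d2 g → d2 g < 1 → 0 ≤ E₀ → Pt g g + E₀ < 1 →
    (∀ a ∈ Wd, |a - g| ≤ ρ₀ → ∀ ρ η : ℝ, 0 < ρ → 0 < η → Bas S (fun J F A =>
      NfB F A y u v t rr a (((1 - a) + (1 - d1 a) + (1 - d2 a)) - ρ) ϖ η)) →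
    a₀ ∈ Wd → g - ρ₀ ≤ a₀ → a₀ < g →
    Pt a₀ a₀ - a₀ - (Sl - σ) * (g - a₀) / 4 ≤ M₀ → M₀ < Pt a₀ a₀ - a₀ →
    (∀ (τ : ℝ) (J : ℕ) (F : Fam 4 J) (A : F.Ω → Prop), S.St τ J F A →
      ClA F A {y, u, v} t ⌊a₀ * J⌋₊ ⌊E₀ * J⌋₊ ⌊M₀ * J⌋₊ (κ J F) (κc J F)) →
    MNum S y (fun J F ω => F.d ω t - κ J F (ptr F J ω) u * F.d ω u -
      κ J F (ptr F J ω) v * F.d ω v) a₀ 1 N →
    (∀ (w : ℚ) (a' : ℝ), a₀ < w → (w : ℝ) < 1 → (w : ℝ) < a' → a' ≤ 1 → Pt a' a' + E₀ < 1 →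
      N w ≤ Pt a' a' - w) →
    (∀ w : ℚ, ∃ η, RNum S (fun J F => ptr F J) (vg (w : ℝ)) η) →
    ((∃ w : ℚ, a₀ < w ∧ (w : ℝ) < g ∧ 0 < N w) → ∀ P : ℚ, 0 < P → ∃ θ : ℚ → ℚ → ℝ,
      IprI S (fun J F => ptr F J) (fun J F => F.W) 0 (dQ y P) (mQ y (fun J F ω => F.d ω t -
        κ J F (ptr F J ω) u * F.d ω u - κ J F (ptr F J ω) v * F.d ω v) N) θ g) →
    (∀ e : ℝ, 0 < e → ∃ P : ℚ, 0 < P ∧ ∃ r₀ : ℝ, 0 < r₀ ∧ ∀ r : ℝ, 0 < r → r < r₀ →
      ∀ w l : ℚ, g - r ≤ w → w ≤ l → (l : ℝ) ≤ g + r → FrD S y P w l (e * r)) → False := by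
  -- the constants
  obtain ⟨lam, tau, cr, cm, cM, K⟩ := kn_ex hσ hSl hS2
  have hl0 := K.l0
  have ht0 := K.t0
  have hcr0 := K.cr0
  obtain ⟨b₀, hb₀⟩ : ∃ b₀, b₀ = c₀ * lam / 3200 := ⟨_, rfl⟩
  have hb0 : 0 < b₀ := by rw [hb₀]; positivity
  obtain ⟨κ', ϖ, hκ', hϖ, few⟩ := few_cls h (b₀ / 4) (b₀ / 4) hh hh1 (by positivity)
    (by positivity)
  obtain ⟨β, hβ0, hβ⟩ := small_ex [tau * cr, tau * lam, lam, κ', b₀, 1] (by
    intro m hm
    simp only [List.mem_cons, List.not_mem_nil, or_false] at hm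
    rcases hm with rfl | rfl | rfl | rfl | rfl | rfl
    · positivity
    · positivity
    · exact hl0
    · exact hκ'
    · exact hb0
    · exact one_pos)
  have β1 := hβ (tau * cr) (by simp)
  have β2 := hβ (tau * lam) (by simp)
  have β3 := hβ lam (by simp)
  have β4 := hβ κ' (by simp)
  have β5 := hβ b₀ (by simp)
  have β6 := hβ 1 (by simp)
  obtain ⟨ε, hε⟩ : ∃ ε, ε = β / 2000 := ⟨_, rfl⟩
  have hε0 : 0 < ε := by rw [hε]; positivity
  have hσ1 : 0 < σ - 1 := by linarith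
  have hσ2 : σ - 1 ≤ 1 := by linarith
  obtain ⟨K₀, hK₀⟩ : ∃ K₀, K₀ = 2 / (σ - 1) + 2 := ⟨_, rfl⟩
  have hK2 : 2 ≤ 2 / (σ - 1) := by
    rw [le_div_iff₀ hσ1]
    linarith
  have hK1 : 1 ≤ K₀ := by linarith
  have hK0 : 0 < K₀ := by linarith
  obtain ⟨e', e₂, he₂, hcst⟩ := cst_ex (ε := ε) (K₀ := 2 * K₀) hε0 (by linarith) hσ hSl
  obtain ⟨e₁, he₁⟩ : ∃ e₁, e₁ = min e₂ (ε / (8 * K₀)) := ⟨_, rfl⟩
  have he10 : 0 < e₁ := by
    rw [he₁]
    exact lt_min he₂ (by positivity)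
  have hC2 := hcst e₁ he10 (by rw [he₁]; exact min_le_left _ _)
  have hC1 : Cst ε K₀ Sl σ e' e₁ := hC2.antiK (by linarith) (by linarith)
  have heK : e₁ * K₀ ≤ ε / 8 := by
    have h1 : e₁ ≤ ε / (8 * K₀) := by rw [he₁]; exact min_le_right _ _
    calc e₁ * K₀ ≤ ε / (8 * K₀) * K₀ := mul_le_mul_of_nonneg_right h1 hK0.le
      _ = ε / 8 := by field_simp
  refine ⟨e₁, he10, ϖ, hϖ, ?_⟩
  intro S C₀ x₀ y u v t Wd d1 d2 Pt rr g ρ₀ E E₀ a₀ M₀ κ κc N hS htm hpos hyu hyv hyt huv hut hvt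
    hactF hx₀ hact hT hrd hrD hX hρ₀ hd1 hd12 hd2 hE₀ hPE hnf ha₀ haρ hag hM₀ hM₁ hκ hN hup hR
    hI hF
  have hlow := hX.low g (by rw [sub_self, abs_zero]; exact hρ₀.le)
  obtain ⟨n3, hn3⟩ : ∃ n3, n3 = Pt g g - g := ⟨_, rfl⟩
  have n30 : 0 < n3 := by linarith [hlow.2.2.1]
  have haρ' : |a₀ - g| ≤ ρ₀ := by
    rw [abs_le]
    constructor <;> linarith
  have hκb : Bas S (fun J F A => ClA F A {y, u, v} t ⌊a₀ * J⌋₊ ⌊E₀ * J⌋₊ ⌊M₀ * J⌋₊ (κ J F)
      (κc J F)) := ⟨1, one_pos, 0, fun J _ F A hA => hκ 1 J F A hA⟩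
  -- the thresholds from below
  have hNlo : ∀ r : ℝ, 0 < r → 8 * K₀ * r ≤ g - a₀ → 2 * K₀ * r ≤ ρ₀ → ∀ w : ℚ,
      |(w : ℝ) - g| ≤ K₀ * r → (w : ℝ) < 1 → Pt w w - w - ε * r ≤ N w := by
    intro r hr h1 h2 w hw hw1
    have h3 := (abs_le.1 hw).1
    have h4 : 0 < K₀ * r := mul_pos hK0 hr
    exact t_low hX hC2 hS hyu hyv huv hε0 hK1 hσ hSl ha₀ haρ' hM₀ hM₁ hκb hN hr h1 h2 hw
      (by linarith) hw1
  have hg0 : 0 < g := by linarith [hX.pos]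
  have hK4 : 4 ≤ K₀ := by linarith
  have he11 : e₁ ≤ 1 := by
    have h1 : e₁ * 1 ≤ e₁ * K₀ := mul_le_mul_of_nonneg_left hK1 he10.le
    linarith
  have hNpos := npos_ex hn3 n30 hag hK1 hρ₀ hX.one hX.lin3 he11 (by linarith)
    (by linarith) hNlo
  obtain ⟨P, hP, rF, hrF, hFr⟩ := hF (b₀ / K₀) (by positivity)
  obtain ⟨θ, hθ⟩ := hI hNpos P hP
  obtain ⟨rI, hrI, hIp⟩ := ipU_of hθ (e := ε / K₀) (by positivity)
  obtain ⟨δ, hδ, hrate⟩ := rate_loc hrd hrD hε0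
  have hP' : (0 : ℝ) < P := by exact_mod_cast hP
  -- the scale
  obtain ⟨r, hr, hs⟩ := small_ex [rF / (2 * K₀), rI / (2 * K₀), δ / 8, (g - a₀) / (8 * K₀),
      ρ₀ / (2 * K₀), x₀, P / 4, (d1 g - g), n3, (1 - d2 g) / 8, (1 - Pt g g - E₀) / (8 * K₀)] (by
    intro m hm
    simp only [List.mem_cons, List.not_mem_nil, or_false] at hm
    rcases hm with rfl | rfl | rfl | rfl | rfl | rfl | rfl | rfl | rfl | rfl | rfl
    · positivity
    · positivity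
    · positivity
    · exact div_pos (by linarith) (by linarith)
    · positivity
    · exact hx₀
    · positivity
    · linarith
    · exact n30
    · linarith
    · exact div_pos (by linarith) (by linarith))
  have s1 := hs (rF / (2 * K₀)) (by simp)
  have s2 := hs (rI / (2 * K₀)) (by simp)
  have s3 := hs (δ / 8) (by simp)
  have s4 := hs ((g - a₀) / (8 * K₀)) (by simp)
  have s5 := hs (ρ₀ / (2 * K₀)) (by simp)
  have s6 := hs x₀ (by simp)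
  have s7 := hs (P / 4) (by simp)
  have s8 := hs (d1 g - g) (by simp)
  have s9 := hs n3 (by simp)
  have s10 := hs ((1 - d2 g) / 8) (by simp)
  have s11 := hs ((1 - Pt g g - E₀) / (8 * K₀)) (by simp)
  clear hs
  rw [le_div_iff₀ (by linarith)] at s1 s2 s4 s5 s11
  obtain ⟨R, hR'⟩ : ∃ R, R = K₀ * r := ⟨_, rfl⟩
  have hR0 : 0 < R := by rw [hR']; positivity
  have s1' : 2 * R ≤ rF := by rw [hR']; linarith
  have s2' : 2 * R ≤ rI := by rw [hR']; linarith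
  have s4' : 8 * R ≤ g - a₀ := by rw [hR']; linarith
  have s5' : 2 * R ≤ ρ₀ := by rw [hR']; linarith
  have s11' : 8 * R ≤ 1 - Pt g g - E₀ := by rw [hR']; linarith
  have hR4 : 4 * r ≤ R := by
    rw [hR']
    exact mul_le_mul_of_nonneg_right hK4 hr.le
  clear s1 s2 s4 s5 s11
  obtain ⟨a, ha⟩ : ∃ a, a = ε * r := ⟨_, rfl⟩
  have ha0 : 0 < a := by rw [ha]; positivity
  have har : 2000 * a = β * r := by rw [ha, hε]; ring
  have m1 : β * r ≤ tau * cr * r := mul_le_mul_of_nonneg_right β1 hr.le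
  have m2 : β * r ≤ tau * lam * r := mul_le_mul_of_nonneg_right β2 hr.le
  have m3 : β * r ≤ lam * r := mul_le_mul_of_nonneg_right β3 hr.le
  have m4 : β * r ≤ κ' * r := mul_le_mul_of_nonneg_right β4 hr.le
  have m5 : β * r ≤ b₀ * r := mul_le_mul_of_nonneg_right β5 hr.le
  have m6 : β * r ≤ 1 * r := mul_le_mul_of_nonneg_right β6 hr.le
  have heR : e₁ * R ≤ a / 8 := by
    rw [hR', ha]
    calc e₁ * (K₀ * r) = e₁ * K₀ * r := by ring
      _ ≤ ε / 8 * r := mul_le_mul_of_nonneg_right heK hr.le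
      _ = ε * r / 8 := by ring
  have hl1 : ∀ z, |z - g| ≤ R → |d1 z - d1 g - Sl * (z - g)| ≤ a / 8 := fun z hz =>
    (hX.lin1 z (by linarith)).trans ((mul_le_mul_of_nonneg_left hz he10.le).trans heR)
  have hl2 : ∀ z, |z - g| ≤ R → |d2 z - d2 g - Sl * (z - g)| ≤ a / 8 := fun z hz =>
    (hX.lin2 z (by linarith)).trans ((mul_le_mul_of_nonneg_left hz he10.le).trans heR)
  have hl3 : ∀ z, |z - g| ≤ R → |Pt z z - Pt g g - σ * (z - g)| ≤ a / 8 := fun z hz =>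
    (hX.lin3 z (by linarith)).trans ((mul_le_mul_of_nonneg_left hz he10.le).trans heR)
  have hgR : g + R < 1 := by linarith [hX.one]
  have hNb : ∀ (w : ℚ) (x : ℝ), g + x ≤ w → (w : ℝ) ≤ g + x + a → 0 ≤ x → x + 2 * a ≤ R →
      (Pt g g - g) + (σ - 1) * x - 5 * a ≤ N w ∧
        N w ≤ (Pt g g - g) + (σ - 1) * x + 5 * a := by
    intro w x h1 h2 h3 h4
    have h5 : |(w : ℝ) - g| ≤ R := by
      rw [abs_le]
      constructor <;> linarith
    refine nn_bd ha0 hσ.le (by linarith) hl3 ?_ (fun a' k1 k2 k3 => hup w a' (by linarith)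
      (by linarith) k1 k2 k3) h1 h2 h3 h4 hgR.le (by linarith)
    rw [ha]
    refine hNlo r hr ?_ ?_ w (by rw [← hR']; exact h5) (by linarith)
    · calc 8 * K₀ * r = 8 * R := by rw [hR']; ring
        _ ≤ g - a₀ := s4'
    · calc 2 * K₀ * r = 2 * R := by rw [hR']; ring
        _ ≤ ρ₀ := s5'
  -- the windows
  have hcr1 : cr ≤ 1 := by linarith [K.rM, K.mM, K.m1]
  have hc1 : cr * r ≤ 1 * r := mul_le_mul_of_nonneg_right hcr1 hr.le
  have q1 : cm * r - cr * r = tau * cr * r := by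
    rw [← K.scr, K.ht]
    ring
  have q2 : cm * r = tau * r - tau * lam * r / 2 := by
    rw [K.cme]
    ring
  have q3 : cm * r ≤ (1 - lam / 2) * r := mul_le_mul_of_nonneg_right K.m1 hr.le
  have q4 : cM * r ≤ cm * r := mul_le_mul_of_nonneg_right K.mM hr.le
  have q5 : (σ - 1 + lam / 2) * r ≤ cM * r := mul_le_mul_of_nonneg_right K.gain hr.le
  have q6 : cr * r ≤ cM * r := mul_le_mul_of_nonneg_right K.rM hr.le
  have q7 : tau * cr * r ≤ 1 * (cr * r) := by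
    rw [mul_assoc]
    exact mul_le_mul_of_nonneg_right K.t1 (by positivity)
  have q8 : tau * lam * r ≤ 1 * (lam * r) := by
    rw [mul_assoc]
    exact mul_le_mul_of_nonneg_right K.t1 (by positivity)
  have q9 : tau * r ≤ 1 * r := mul_le_mul_of_nonneg_right K.t1 hr.le
  have q10 : 0 < lam * r := by positivity
  have q11 : 0 < cr * r := by positivity
  have q12 : (σ - 1) * r ≤ 1 * r := mul_le_mul_of_nonneg_right hσ2 hr.le
  have q13 : (0 : ℝ) < tau * cr * r := by positivity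
  obtain ⟨x, hx⟩ : ∃ x : Fin 3 → ℝ, x = ![0, cr * r, r] := ⟨_, rfl⟩
  have x0 : x 0 = 0 := by rw [hx]; rfl
  have x1 : x 1 = cr * r := by rw [hx]; rfl
  have x2 : x 2 = r := by rw [hx]; rfl
  have hall : ∀ {Q : Fin 3 → Prop}, Q 0 → Q 1 → Q 2 → ∀ i, Q i := by
    intro Q a b c i
    fin_cases i
    · exact a
    · exact b
    · exact c
  have hxn : ∀ i, 0 ≤ x i := hall x0.ge (by rw [x1]; exact q11.le) (by rw [x2]; exact hr.le)
  have hxr : ∀ i, x i ≤ r := hall (by rw [x0]; exact hr.le) (by rw [x1]; linarith)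
    (by rw [x2])
  obtain ⟨w, b, av, hw, hb, havW, hav1, hav2⟩ := win_ex hX.den ha0 he10.le (R := R - 2 * a)
    (by linarith) (by linarith) (by rw [sub_add_cancel]; linarith) hxn
    (fun i => (hxr i).trans (by linarith))
  obtain ⟨xl, hxl⟩ : ∃ xl, xl = (1 - lam / 4) * r / (σ - 1) := ⟨_, rfl⟩
  obtain ⟨xW, hxW⟩ : ∃ xW, xW = 2 * r / (σ - 1) := ⟨_, rfl⟩
  have exl : (σ - 1) * xl = (1 - lam / 4) * r := by
    rw [hxl]
    field_simp
  have exW : (σ - 1) * xW = 2 * r := by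
    rw [hxW]
    field_simp
  have exR : xW + 2 * r = R := by
    rw [hxW, hR', hK₀]
    ring
  have hxlW : xl ≤ xW := by
    rw [hxl, hxW]
    refine div_le_div_of_nonneg_right ?_ hσ1.le
    linarith
  have hrl : r + a ≤ xl := by
    rw [hxl, le_div_iff₀ hσ1]
    have h1 : a * (σ - 1) ≤ a * 1 := mul_le_mul_of_nonneg_left hσ2 ha0.le
    linarith
  obtain ⟨l, hl1', hl2'⟩ := exists_rat_btwn (show g + xl < g + xl + a by linarith)
  obtain ⟨W', hW1, hW2⟩ := exists_rat_btwn (show g + xW < g + xW + a by linarith)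
  have hbR : ∀ i, |b i - g| ≤ R := by
    intro i
    rw [abs_le]
    constructor <;> linarith [(hb i).2.1, (hb i).2.2, (hw i).1, (hw i).2, hxn i, hxr i]
  have hub : ∀ i, (d1 g - g) + (Sl - 1) * x i - 5 * a ≤ d1 (b i) - b i ∧
      d1 (b i) - b i ≤ (d1 g - g) + (Sl - 1) * x i + 5 * a := by
    intro i
    have h1 := ln_bd (x := x i) (hl1 (b i) (hbR i)) (by linarith) hS2
      (by linarith [(hb i).2.1, (hw i).1]) (by linarith [(hb i).2.2, (hw i).2])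
    constructor <;> linarith [h1.1, h1.2]
  have hvb : ∀ i, (d2 g - g) + (Sl - 1) * x i - 2 * a ≤ d2 (b i) - b i ∧
      d2 (b i) - b i ≤ (d2 g - g) + (Sl - 1) * x i + 2 * a := fun i =>
    ln_bd (x := x i) (hl2 (b i) (hbR i)) (by linarith) hS2
      (by linarith [(hb i).2.1, (hw i).1]) (by linarith [(hb i).2.2, (hw i).2])
  obtain ⟨Nv, hNv⟩ : ∃ Nv : Fin 3 → ℝ, Nv = fun i => if i = 0 then d2 (b 0) - b 0
    else d2 (b i) - b i - a := ⟨_, rfl⟩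
  have v0 : Nv 0 = d2 (b 0) - b 0 := by rw [hNv]; rfl
  have v1 : Nv 1 = d2 (b 1) - b 1 - a := by rw [hNv]; rfl
  have v2 : Nv 2 = d2 (b 2) - b 2 - a := by rw [hNv]; rfl
  have hvb' : ∀ i, (d2 g - g) + (Sl - 1) * x i - 5 * a ≤ Nv i ∧
      Nv i ≤ (d2 g - g) + (Sl - 1) * x i + 5 * a := by
    refine hall ?_ ?_ ?_
    · rw [v0]
      constructor <;> linarith [(hvb 0).1, (hvb 0).2]
    · rw [v1]
      constructor <;> linarith [(hvb 1).1, (hvb 1).2]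
    · rw [v2]
      constructor <;> linarith [(hvb 2).1, (hvb 2).2]
  have hNi : ∀ i, (Pt g g - g) + (σ - 1) * x i - 5 * a ≤ N (w i) ∧
      N (w i) ≤ (Pt g g - g) + (σ - 1) * x i + 5 * a := fun i =>
    hNb (w i) (x i) (hw i).1.le (hw i).2.le (hxn i) (by linarith [hxr i])
  have hNl := hNb l xl hl1'.le hl2'.le (by linarith) (by linarith)
  have hNW := hNb W' xW hW1.le hW2.le (by linarith) (by linarith)
  rw [exl] at hNl
  rw [exW] at hNW
  have hw01 : (w 0 : ℝ) ≤ w 1 := by linarith [(hw 0).2, (hw 1).1]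
  have hw12 : (w 1 : ℝ) ≤ w 2 := by linarith [(hw 1).2, (hw 2).1]
  have hw0i : ∀ i, w 0 ≤ w i := hall le_rfl (by exact_mod_cast hw01)
    (by exact_mod_cast hw01.trans hw12)
  have hwR : ∀ i, (w i : ℝ) ≤ g + R := fun i => by linarith [(hw i).2, hxr i]
  have haw : a₀ < w 0 := by linarith [(hw 0).1]
  have hwg : ∀ i, g ≤ w i := fun i => by linarith [(hw i).1, hxn i]
  have hm : ∀ i, N (w 0) ≤ N (w i) := fun i => hN.mono (w 0) (w i) haw (hw0i i)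
    (by linarith [hwR i])
  have hNi0 := hNi 0
  have hNi1 := hNi 1
  have hNi2 := hNi 2
  rw [x0] at hNi0
  rw [x1] at hNi1
  rw [x2] at hNi2
  have hxi : ∀ i, 0 ≤ (Sl - 1) * x i := fun i => mul_nonneg (by linarith) (hxn i)
  -- the numbers
  have hn : NumC (fun i => (w i : ℝ)) (fun i => d1 (b i) - b i) Nv (fun i => N (w i)) (N l) P E₀
      (cm * r) (cM * r) (N (w 0) + cM * r - 2 * a) a (24 * a) (a / 2) (a / 8) av := by
    have hav3 : av ≤ 1 := by linarith [hwR 1]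
    have e2 : (Sl - 1) * r = tau * r := by rw [K.ht]
    exact numC_ok (x := x) (xs := fun i => (Sl - 1) * x i) (ys := fun i => (σ - 1) * x i)
      (g := g) (n1 := d1 g - g) (n2 := d2 g - g) (n3 := Pt g g - g) (r := r) (ρ₁ := cr * r)
      (tr := tau * r) (sr := (σ - 1) * r) (Lr := (1 - lam / 4) * r) ha0 x0 x1 x2
      (by simp only [x0, mul_zero]) (by simp only [x1]; rw [q1, K.ht]; ring)
      (by simp only [x2]; rw [K.ht]) (by simp only [x0, mul_zero])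
      (by simp only [x1]; rw [← K.σcr]; ring) (by simp only [x2])
      (fun i => ⟨(hw i).1.le, (hw i).2.le⟩) hub hvb' hNi hNl hm hav1.le hav3
      (by linarith) (by linarith) (by linarith) (by linarith) (by linarith) (by linarith)
      (by linarith) (by linarith) (by linarith) (by linarith) (by linarith) (by linarith)
      hg0 (by linarith) (by linarith) (by linarith) (by linarith) hE₀ (by linarith)
  have hN0 : 0 < N (w 0) := by linarith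
  have hRρ : ∀ i, |b i - g| ≤ ρ₀ := fun i => (hbR i).trans (by linarith)
  have hKρ : K₀ * r ≤ ρ₀ := by rw [← hR']; linarith
  have hbK : ∀ i, |b i - g| ≤ K₀ * r := fun i => by rw [← hR']; exact hbR i
  have hb01 : b 0 ≤ b 1 := by linarith [(hb 0).2.2, (hw 0).2, (hb 1).2.1, (hw 1).1]
  have hb02 : b 0 ≤ b 2 := by linarith [(hb 0).2.2, (hw 0).2, (hb 2).2.1, (hw 2).1]
  -- the labels
  have hlb : ∀ e'' : ℝ, 0 < e'' → e'' ≤ a → LbU S y u v t κ (fun i => (w i : ℝ))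
      (fun i => d1 (b i) - b i) Nv (fun i => N (w i)) E₀ e'' (a / 2) := by
    intro e'' h1 _
    refine lbU_of htm hactF hE₀ hκb hN haw (by exact_mod_cast hw01) (by exact_mod_cast hw12)
      (by linarith [hwR 2]) hN0 (b := b) (fun i => (hb i).2.2.le) hn.lu hn.lv ?_ ?_ ?_ h1
      (by linarith)
    · intro i
      have h2 := hX.labu (b i) (hb i).1 (hRρ i)
      have e3 : d1 (b i) - b i + b i = d1 (b i) := by ring
      rw [e3]
      exact h2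
    · have h2 := hX.labv (b 0) (hb 0).1 (hRρ 0)
      have e3 : Nv 0 + b 0 = d2 (b 0) := by rw [v0]; ring
      rw [e3]
      exact h2
    · refine hall ?_ ?_ ?_
      · exact lab_self hyu
      · intro e₃ h₃ he₃ hh₃
        rw [v0, v1, ha]
        exact v_lad hX hC1 hyu hε0 hK1 hσ hSl hr hKρ (hb 0).1 (hb 1).1 hb01 (hbK 0) (hbK 1) he₃ hh₃
      · intro e₃ h₃ he₃ hh₃
        rw [v0, v2, ha]
        exact v_lad hX hC1 hyu hε0 hK1 hσ hSl hr hKρ (hb 0).1 (hb 2).1 hb02 (hbK 0) (hbK 2) he₃ hh₃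
  -- the record of the ball
  have hIu : IpU S y (gk u v t κ) N (w 0) (w 2) l P (θ (w 2) l) a := by
    have h1 := hIp R hR0 (by linarith) (w 0) (w 2) l (by linarith [hwg 0]) (hw0i 2) (by
      have : (w 2 : ℝ) < l := by linarith [(hw 2).2, x2]
      exact_mod_cast this) (by linarith)
    have e3 : ε / K₀ * R = a := by
      rw [hR', ha]
      field_simp
    rw [e3] at h1
    exact h1
  -- the row
  have havR : |av - g| ≤ R := by
    rw [abs_le]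
    constructor <;> linarith [hwg 1, (hw 1).2, hxr 1]
  have hnfu : ∀ e'' : ℝ, 0 < e'' → e'' ≤ a → NfU S y u v t κ (fun i => (w i : ℝ))
      (fun i => d1 (b i) - b i) Nv (fun i => N (w i)) (N l) E₀ (cm * r) (cM * r) e'' (a / 2) h ϖ
      (400 * a) := by
    intro e'' h1 h2
    have k1 := (abs_le.1 (hl1 av havR)).2
    have k2 := (abs_le.1 (hl2 av havR)).2
    have k3 : Sl * (av - g - cr * r) ≤ Sl * (2 * a) :=
      mul_le_mul_of_nonneg_left (by linarith [(hw 1).2, x1]) (by linarith)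
    have k4 : Sl * (2 * a) ≤ 2 * (2 * a) := mul_le_mul_of_nonneg_right hS2 (by linarith)
    have k5 : Sl * (av - g) = Sl * (av - g - cr * r) + cm * r := by
      rw [← K.scr]
      ring
    have k6 := hub 0
    have k7 := hvb' 0
    rw [x0] at k6 k7
    refine nf_use_of hn (rr := rr) (EE := (1 - av) + (1 - d1 av) + (1 - d2 av)) (ηr := a)
      (ηt := 100 * a) (fun ρ η hρ hη => hnf av havW (by linarith) ρ η hρ hη) ?_ ?_
      (by linarith) hh1 ha0.le (by linarith) (by linarith) h1 h2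
    · linarith [hwg 0, k6.1, k7.1]
    · intro a' b' k8 k9 k10
      have k11 := hrate r hr (by linarith) a' b' (by
        rw [abs_le]
        constructor <;> linarith [hwg 0, (hw 0).2, x0]) (by
        rw [abs_le]
        constructor <;> linarith [hwg 0, (hw 0).2, x0]) k9
      rw [← ha] at k11
      exact k11
  -- one hop
  obtain ⟨ηw, hηw⟩ := hR (w 0)
  obtain ⟨ηw', hηw'⟩ := hR (w 2)
  obtain ⟨ηW, hηW⟩ := hR W'
  have hbb : 0 < b₀ * r := by positivity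
  have hNll : N l - N (w 0) + a ≤ r := by linarith
  have hNlr : r / 2 ≤ N l - N (w 0) := by
    have : lam * r ≤ 1 / 2 * r := mul_le_mul_of_nonneg_right K.l1 hr.le
    linarith
  have hcMr : cM * r ≤ r := by linarith
  have hfew := few htm hn hlb hηw hηw' ha0 hIu hnfu (by linarith) (by linarith) (b := b₀ * r) (by
      have h1 : κ' * (r / 2) ≤ κ' * (N l - N (w 0)) := mul_le_mul_of_nonneg_left hNlr hκ'.le
      linarith) (by
      have h1 : b₀ / 4 * (N l - N (w 0) + a) ≤ b₀ / 4 * r :=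
        mul_le_mul_of_nonneg_left hNll (by positivity)
      have h2 : b₀ / 4 * (cM * r) ≤ b₀ / 4 * r := mul_le_mul_of_nonneg_left hcMr (by positivity)
      linarith)
  -- the contradiction
  have hxx : 0 < lam / 16 * r := by positivity
  have hact1 := hact (lam / 16 * r) hxx (by
    have h1 : lam / 16 * r ≤ 1 * r := mul_le_mul_of_nonneg_right (by linarith [K.l1]) hr.le
    linarith)
  have hfr := hFr R hR0 (by linarith) (w 2) W' (by linarith [hwg 2]) (by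
    have : (w 2 : ℝ) ≤ W' := by linarith [(hw 2).2, x2]
    exact_mod_cast this) (by linarith)
  have efr : b₀ / K₀ * R = b₀ * r := by
    rw [hR']
    field_simp
  rw [efr] at hfr
  have hw2R : |(w 2 : ℝ) + a - g| ≤ R := by
    rw [abs_le]
    constructor <;> linarith [hwg 2, (hw 2).2, x2]
  have j1 := (abs_le.1 (hl3 (w 2 + a) hw2R)).2
  have j2 : (σ - 1) * ((w 2 : ℝ) + a - g - r) ≤ (σ - 1) * (2 * a) :=
    mul_le_mul_of_nonneg_left (by linarith [(hw 2).2, x2]) hσ1.le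
  have j3 : (σ - 1) * (2 * a) ≤ 1 * (2 * a) := mul_le_mul_of_nonneg_right hσ2 (by linarith)
  have j4 : σ * ((w 2 : ℝ) + a - g) = (σ - 1) * ((w 2 : ℝ) + a - g - r) + (σ - 1) * r +
      ((w 2 : ℝ) + a - g) := by ring
  have hw2W : (w 2 : ℝ) < W' := by linarith [(hw 2).2, x2]
  refine gain_void hS htm hyu hyv hyt huv hut hvt hactF hT (κ := κ) (A₀ := a₀) (E := E₀) ?_ hN
    (w' := w 2) (W' := W') (by linarith [hwg 2]) (by linarith [hwg 2]) (by linarith [hwg 2])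
    (by exact_mod_cast hw2W) (by linarith) (by linarith)
    (M := N (w 0) + cM * r - 2 * a) (P := P) (x := lam / 16 * r) (b := b₀ * r)
    (c₁ := c₀ * (lam / 16 * r)) (e := a) (E' := E₀ + a) (a' := w 2 + a) (κ₀ := 1 / (2 * 17 ^ 8))
    (by linarith) (by linarith) ha0.le (by linarith [hm 2]) (by linarith)
    (by linarith [(hw 2).2, x2]) hηw' hηW hxx.le hbb (by rw [hb₀]; linarith) hfr hact1
    (by linarith) hE₀ (by linarith) (by linarith [(hw 2).2, x2]) (by norm_num) hfew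
  refine Bas.mono 0 hκb fun J _ F A h k hk => ⟨h.ca k ?_, fun ω hω => (h.dp ω hω).1 k ?_⟩
  · simp only [Finset.mem_insert, Finset.mem_singleton] at hk ⊢
    tauto
  · simp only [Finset.mem_insert, Finset.mem_singleton] at hk ⊢
    tauto

end Pool.ONE72
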