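import Pool.Agent.H72.ONE1.Law
import Pool.Agent.H72.ONE1.Hts
import Pool.Agent.H97.MM.Cls

/-!
# The row over the matched context, one family

`Tri`: heights which are the coordinates up to functions of the record, the time and the earlier
coordinates. `ctxK`: the context. `cnt_d`: the number of positions over the context. `tim_c`: the
context does not see the time. `row_e`: the row over the exact positions. `nf_fam`: the row of the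
height of the target over the context.
-/

set_option autoImplicit false

namespace Pool.ONE72

open Finset Real
open Pool.Agent.H49.Ent Pool.Agent.H32.Dense Pool.STK Pool.KA Pool.KSAT Pool.K2S Pool.PB Pool.GEN
open Pool.LPX Pool.ONE17

variable {m J : ℕ} {F : Fam m J} {A : F.Ω → Prop} {𝒵 𝒱 : Type}

/-- **Heights over a triangular system.** -/
structure Tri (F : Fam m J) (A : F.Ω → Prop) (y u v t : Fin m) (z : F.Ω → 𝒵)
    (hu hv hn : F.Ω → ℝ) (D : ℝ) (nt : ℕ) : Prop where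
  tu : ∀ ω ω', A ω → A ω' → z ω = z ω' → F.W ω = F.W ω' → F.X J ω y = F.X J ω' y →
    |(hu ω - hu ω') - (F.x ω u - F.x ω' u)| * 2 ^ J ≤ D
  tv : ∀ ω ω', A ω → A ω' → z ω = z ω' → F.W ω = F.W ω' → F.X J ω y = F.X J ω' y →
    F.X J ω u = F.X J ω' u → |(hv ω - hv ω') - (F.x ω v - F.x ω' v)| * 2 ^ J ≤ D
  tn : ∀ ω ω', A ω → A ω' → z ω = z ω' → F.W ω = F.W ω' → F.X J ω y = F.X J ω' y →
    F.X J ω u = F.X J ω' u → F.X J ω v = F.X J ω' v →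
    |(hn ω - hn ω') - (F.x ω t - F.x ω' t)| * 2 ^ nt ≤ D

/-- **The context.** -/
noncomputable def ctxK (F : Fam m J) (y : Fin m) (z : F.Ω → 𝒵) (hu hv : F.Ω → ℝ)
    (w X ℓu ℓv mm : ℕ) (ω : F.Ω) : 𝒵 × (ℕ × (ℤ × (ℤ × ℤ))) :=
  (z ω, (F.T1 (w + X) ω, (F.X (w + mm) ω y,
    (⌊(2 : ℝ) ^ (ℓu + mm) * hu ω⌋, ⌊(2 : ℝ) ^ (ℓv + mm) * hv ω⌋))))

/-- The digits of a coordinate. -/
theorem X_eq (F : Fam m J) (j : ℕ) (ω : F.Ω) (k : Fin m) : F.X j ω k = ⌊(2 : ℝ) ^ j * F.x ω k⌋ :=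
  rfl

theorem x_near {j : ℕ} {ω ω' : F.Ω} {k : Fin m} (e : F.X j ω k = F.X j ω' k) :
    |F.x ω k - F.x ω' k| ≤ 1 / 2 ^ j := by
  have h1 := X_eq F j ω k
  have h2 := X_eq F j ω' k
  rw [e] at h1
  have h3 : ⌊(2 : ℝ) ^ j * F.x ω k⌋ = ⌊(2 : ℝ) ^ j * F.x ω' k⌋ := h1.symm.trans h2
  have h4 := Int.abs_sub_lt_one_of_floor_eq_floor h3
  have hp : (0 : ℝ) < 2 ^ j := by positivity
  rw [← mul_sub, abs_mul, abs_of_pos hp] at h4
  rw [le_div_iff₀ hp, mul_comm]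
  exact h4.le

theorem fl_near {j : ℕ} {x x' : ℝ} (e : ⌊(2 : ℝ) ^ j * x⌋ = ⌊(2 : ℝ) ^ j * x'⌋) :
    |x - x'| * 2 ^ j ≤ 1 := by
  have h4 := Int.abs_sub_lt_one_of_floor_eq_floor e
  have hp : (0 : ℝ) < 2 ^ j := by positivity
  rw [← mul_sub, abs_mul, abs_of_pos hp] at h4
  rw [mul_comm]
  exact h4.le

/-- Floors of near numbers. -/
theorem fl_dist {x x' L : ℝ} (h : |x - x'| ≤ L) : |((⌊x⌋ - ⌊x'⌋ : ℤ) : ℝ)| ≤ L + 1 := by
  have h1 := Int.floor_le x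
  have h2 := Int.lt_floor_add_one x
  have h3 := Int.floor_le x'
  have h4 := Int.lt_floor_add_one x'
  have h5 := abs_le.1 h
  push_cast
  rw [abs_le]
  constructor <;> linarith

section ent

variable {p : F.Ω → ℝ} {α β γ : Type}

/-- Counting. -/
theorem ch_cnt (hp : IsLaw p) (k : Fin m) (W : F.Ω → γ) {j : ℕ} (hj : j ≤ J) {D : ℝ} (hD : 0 ≤ D)
    (h : ∀ ω ω', 0 < p ω → 0 < p ω' → W ω = W ω' →
      |F.x ω k - F.x ω' k| * 2 ^ J ≤ 2 ^ (J - j) + D) :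
    CH p (fun ω => F.X J ω k) W ≤ ((J : ℝ) - j) * Real.log 2 + Real.log (2 * D + 5) := by
  have h1 := CH_few hp (fun ω => F.X J ω k) W (L := 2 ^ (J - j) + D + 1) (by
    intro ω ω' a b e
    rw [X_eq, X_eq]
    refine fl_dist ?_
    rw [← mul_sub, abs_mul, abs_of_pos (by positivity : (0 : ℝ) < 2 ^ J), mul_comm]
    exact h ω ω' a b e)
  refine h1.trans ?_
  have h2 : (1 : ℝ) ≤ 2 ^ (J - j) := one_le_pow₀ (by norm_num)
  have h3 : 2 * ((2 : ℝ) ^ (J - j) + D + 1) + 1 ≤ 2 ^ (J - j) * (2 * D + 5) := by nlinarith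
  have h4 := Real.log_le_log (by positivity) h3
  refine h4.trans (le_of_eq ?_)
  rw [Real.log_mul (by positivity) (by positivity), Real.log_pow]
  have e1 : ((J - j : ℕ) : ℝ) = (J : ℝ) - j := by
    rw [Nat.cast_sub hj]
  rw [e1]

/-- **The number of positions over the context.** -/
theorem cnt_d (hp : IsLaw p) (hpA : ∀ ω, 0 < p ω → A ω) {y u v t : Fin m} {z : F.Ω → 𝒵}
    {hu hv hn : F.Ω → ℝ} {D : ℝ} (hD : 0 ≤ D) {nt : ℕ} (H : Tri F A y u v t z hu hv hn D nt)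
    (hzZ : ∀ ω ω', A ω → A ω' → z ω = z ω' → F.Z ω = F.Z ω') {w X ℓu ℓv mm : ℕ} (hwX : w + X ≤ J)
    (hwm : w + mm ≤ J) (hlu : ℓu + mm ≤ J) (hlv : ℓv + mm ≤ J) (N₀ : F.Ω → α) :
    CH p (fun ω => ((F.X J ω y, (F.X J ω u, F.X J ω v)), F.W ω))
      (fun ω => (N₀ ω, ctxK F y z hu hv w X ℓu ℓv mm ω)) ≤
      (((J : ℝ) - (w + X)) + ((J : ℝ) - (w + mm)) + ((J : ℝ) - (ℓu + mm)) +
        ((J : ℝ) - (ℓv + mm))) * Real.log 2 + (Real.log 5 * 2 + 2 * Real.log (2 * D + 5)) := by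
  have h0 := hp.nonneg
  have hJ : (0 : ℝ) < 2 ^ J := by positivity
  obtain ⟨K, hK⟩ : ∃ K, K = fun ω => (N₀ ω, ctxK F y z hu hv w X ℓu ℓv mm ω) := ⟨_, rfl⟩
  -- the time
  have t1 : CH p F.W K ≤ ((J : ℝ) - (w + X)) * Real.log 2 + Real.log 5 := by
    have a1 : CH p F.W K ≤ CH p (fun ω => ((F.T ω : ℕ) : ℤ)) K := by
      refine CH_mono_left h0 fun ω ω' a b e => ?_
      rw [hK] at e
      simp only [ctxK, Prod.mk.injEq] at e
      have e1 : F.T ω = F.T ω' := by exact_mod_cast e.1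
      exact Prod.ext e1 (hzZ ω ω' (hpA ω a) (hpA ω' b) e.2.2.1)
    have a2 := CH_few hp (fun ω => ((F.T ω : ℕ) : ℤ)) K (L := 2 ^ (J - (w + X))) (by
      intro ω ω' a b e
      rw [hK] at e
      simp only [ctxK, Prod.mk.injEq] at e
      have e1 := e.2.2.1
      unfold Fam.T1 at e1
      have k1 := Nat.div_add_mod (F.T ω) (2 ^ (J - (w + X)))
      have k2 := Nat.div_add_mod (F.T ω') (2 ^ (J - (w + X)))
      have k3 := Nat.mod_lt (F.T ω) (show 0 < 2 ^ (J - (w + X)) by positivity)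
      have k4 := Nat.mod_lt (F.T ω') (show 0 < 2 ^ (J - (w + X)) by positivity)
      rw [e1] at k1
      obtain ⟨q, hq⟩ : ∃ q, q = 2 ^ (J - (w + X)) * (F.T ω' / 2 ^ (J - (w + X))) := ⟨_, rfl⟩
      rw [← hq] at k1 k2
      have k5 : (((F.T ω % 2 ^ (J - (w + X)) : ℕ)) : ℝ) ≤ 2 ^ (J - (w + X)) := by
        exact_mod_cast k3.le
      have k6 : (((F.T ω' % 2 ^ (J - (w + X)) : ℕ)) : ℝ) ≤ 2 ^ (J - (w + X)) := by
        exact_mod_cast k4.le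
      have k7 : (0 : ℝ) ≤ ((F.T ω % 2 ^ (J - (w + X)) : ℕ) : ℝ) := Nat.cast_nonneg _
      have k8 : (0 : ℝ) ≤ ((F.T ω' % 2 ^ (J - (w + X)) : ℕ) : ℝ) := Nat.cast_nonneg _
      have k9 : (F.T ω : ℝ) = q + ((F.T ω % 2 ^ (J - (w + X)) : ℕ) : ℝ) := by
        exact_mod_cast k1.symm
      have k10 : (F.T ω' : ℝ) = q + ((F.T ω' % 2 ^ (J - (w + X)) : ℕ) : ℝ) := by
        exact_mod_cast k2.symm
      push_cast
      rw [k9, k10, abs_le]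
      constructor <;> linarith)
    have a3 : (2 : ℝ) * 2 ^ (J - (w + X)) + 1 ≤ 2 ^ (J - (w + X)) * 5 := by
      have : (1 : ℝ) ≤ 2 ^ (J - (w + X)) := one_le_pow₀ (by norm_num)
      linarith
    have a4 := Real.log_le_log (by positivity) a3
    rw [Real.log_mul (by positivity) (by positivity), Real.log_pow] at a4
    have e1 : ((J - (w + X) : ℕ) : ℝ) = (J : ℝ) - (w + X) := by
      rw [Nat.cast_sub hwX]
      push_cast
      ring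
    rw [e1] at a4
    exact a1.trans (a2.trans a4)
  -- the first coordinate
  have y1 : CH p (fun ω => F.X J ω y) (fun ω => (F.W ω, K ω)) ≤
      ((J : ℝ) - (w + mm : ℕ)) * Real.log 2 + Real.log (2 * 0 + 5) := by
    refine ch_cnt hp y _ hwm le_rfl fun ω ω' a b e => ?_
    rw [hK] at e
    simp only [ctxK, Prod.mk.injEq] at e
    have e1 := x_near e.2.2.2.2.1
    rw [add_zero]
    calc |F.x ω y - F.x ω' y| * 2 ^ J ≤ 1 / 2 ^ (w + mm) * 2 ^ J :=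
          mul_le_mul_of_nonneg_right e1 hJ.le
      _ = 2 ^ (J - (w + mm)) := by
          rw [one_div, inv_mul_eq_div, div_eq_iff (by positivity), ← pow_add]
          congr 1
          omega
  have hlev : ∀ {ℓ : ℕ}, ℓ ≤ J → ∀ {x x' : ℝ}, |x - x'| * 2 ^ ℓ ≤ 1 →
      |x - x'| * 2 ^ J ≤ 2 ^ (J - ℓ) := by
    intro ℓ hℓ x x' h
    have e1 : (2 : ℝ) ^ J = 2 ^ ℓ * 2 ^ (J - ℓ) := by
      rw [← pow_add]
      congr 1
      omega
    rw [e1, ← mul_assoc]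
    exact mul_le_of_le_one_left (by positivity) h
  -- the second coordinate
  have u1 : CH p (fun ω => F.X J ω u) (fun ω => (F.X J ω y, (F.W ω, K ω))) ≤
      ((J : ℝ) - (ℓu + mm : ℕ)) * Real.log 2 + Real.log (2 * D + 5) := by
    refine ch_cnt hp u _ hlu hD fun ω ω' a b e => ?_
    rw [hK] at e
    simp only [ctxK, Prod.mk.injEq] at e
    obtain ⟨e1, e2, -, e3, -, -, e4, -⟩ := e
    have k1 := H.tu ω ω' (hpA ω a) (hpA ω' b) e3 e2 e1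
    have k2 := hlev hlu (fl_near e4)
    have e5 : F.x ω u - F.x ω' u = (hu ω - hu ω') - ((hu ω - hu ω') - (F.x ω u - F.x ω' u)) := by
      ring
    rw [e5]
    have k3 := abs_sub (hu ω - hu ω') ((hu ω - hu ω') - (F.x ω u - F.x ω' u))
    calc _ ≤ (|hu ω - hu ω'| + |(hu ω - hu ω') - (F.x ω u - F.x ω' u)|) * 2 ^ J :=
          mul_le_mul_of_nonneg_right k3 hJ.le
      _ ≤ _ := by linarith
  -- the third coordinate
  have v1 : CH p (fun ω => F.X J ω v) (fun ω => (F.X J ω u, (F.X J ω y, (F.W ω, K ω)))) ≤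
      ((J : ℝ) - (ℓv + mm : ℕ)) * Real.log 2 + Real.log (2 * D + 5) := by
    refine ch_cnt hp v _ hlv hD fun ω ω' a b e => ?_
    rw [hK] at e
    simp only [ctxK, Prod.mk.injEq] at e
    obtain ⟨e0, e1, e2, -, e3, -, -, -, e4⟩ := e
    have k1 := H.tv ω ω' (hpA ω a) (hpA ω' b) e3 e2 e1 e0
    have k2 := hlev hlv (fl_near e4)
    have e5 : F.x ω v - F.x ω' v = (hv ω - hv ω') - ((hv ω - hv ω') - (F.x ω v - F.x ω' v)) := by
      ring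
    rw [e5]
    have k3 := abs_sub (hv ω - hv ω') ((hv ω - hv ω') - (F.x ω v - F.x ω' v))
    calc _ ≤ (|hv ω - hv ω'| + |(hv ω - hv ω') - (F.x ω v - F.x ω' v)|) * 2 ^ J :=
          mul_le_mul_of_nonneg_right k3 hJ.le
      _ ≤ _ := by linarith
  -- the sum
  have s1 := CH_chain h0 (fun ω => (F.X J ω y, (F.X J ω u, F.X J ω v))) F.W K
  have s2 := CH_congr h0 (X := fun ω => (F.X J ω y, (F.X J ω u, F.X J ω v)))
    (X' := fun ω => ((F.X J ω v, F.X J ω u), F.X J ω y)) (W := fun ω => (F.W ω, K ω))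
    (W' := fun ω => (F.W ω, K ω))
    (fun ω ω' _ _ h => by simp only [Prod.mk.injEq] at h ⊢; tauto)
    (fun ω ω' _ _ h => by simp only [Prod.mk.injEq] at h ⊢; tauto)
    (fun ω ω' _ _ h => h) (fun ω ω' _ _ h => h)
  have s3 := CH_chain h0 (fun ω => (F.X J ω v, F.X J ω u)) (fun ω => F.X J ω y)
    (fun ω => (F.W ω, K ω))
  have s4 := CH_chain h0 (fun ω => F.X J ω v) (fun ω => F.X J ω u)
    (fun ω => (F.X J ω y, (F.W ω, K ω)))
  rw [← hK]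
  push_cast at y1 u1 v1
  have e5 : Real.log (2 * 0 + 5) = Real.log 5 := by norm_num
  rw [e5] at y1
  rw [s1, s2, s3, s4]
  linarith

/-- **The context does not see the time** behind its time digits. -/
theorem tim_c (hp : IsLaw p) (hpA : ∀ ω, 0 < p ω → A ω) {y : Fin m} {z : F.Ω → 𝒵}
    {hu hv hn gu gv gn : F.Ω → ℝ} {w X ℓu ℓv ℓn mm M : ℕ} (hwX : w + X ≤ J) (hmX : mm ≤ X)
    (hMX : M ≤ X) (hz : Det p (slam F (w + X)) z) (lu : Lin F A w hu gu) (lv : Lin F A w hv gv)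
    (ln : Lin F A w hn gn) (bu : ∀ ω, A ω → |gu ω| * 2 ^ ℓu ≤ 2 ^ w)
    (bv : ∀ ω, A ω → |gv ω| * 2 ^ ℓv ≤ 2 ^ w) (bn : ∀ ω, A ω → |gn ω| * 2 ^ ℓn ≤ 2 ^ w) :
    CH p F.W (slam F (w + X)) ≤ CH p F.W (fun ω => (⌊(2 : ℝ) ^ (ℓn + M) * hn ω⌋,
      ctxK F y z hu hv w X ℓu ℓv mm ω)) + 4 * Real.log 5 := by
  have h0 := hp.nonneg
  have h1 := ch_tr h0 F.W (fun ω => (⌊(2 : ℝ) ^ (ℓn + M) * hn ω⌋,
    ctxK F y z hu hv w X ℓu ℓv mm ω)) (slam F (w + X))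
  refine h1.trans (add_le_add le_rfl ?_)
  -- a height
  have key : ∀ (h g : F.Ω → ℝ) (ℓ mm : ℕ), mm ≤ X → Lin F A w h g →
      (∀ ω, A ω → |g ω| * 2 ^ ℓ ≤ 2 ^ w) →
      CH p (fun ω => ⌊(2 : ℝ) ^ (ℓ + mm) * h ω⌋) (slam F (w + X)) ≤ Real.log 5 := by
    intro h g ℓ mm hmm hl hb
    have k1 := CH_few hp (fun ω => ⌊(2 : ℝ) ^ (ℓ + mm) * h ω⌋) (slam F (w + X)) (L := 2) (by
      intro ω ω' a b e
      have e1 := slam_win (F := F) (show w ≤ w + X by omega) hwX e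
      obtain ⟨-, e2⟩ := hl ω ω' (hpA ω a) (hpA ω' b) e1
      have e3 := hb ω (hpA ω a)
      obtain ⟨-, -, -, e4⟩ := slam_eq e
      obtain ⟨t1, t2⟩ := t_T1 F hwX ω
      obtain ⟨t3, t4⟩ := t_T1 F hwX ω'
      rw [← e4] at t3 t4
      have t5 : |F.t ω' - F.t ω| ≤ 1 / 2 ^ (w + X) := by
        rw [abs_le]
        constructor <;> linarith
      have e5 : |(2 : ℝ) ^ (ℓ + mm) * h ω - 2 ^ (ℓ + mm) * h ω'| ≤ 1 := by
        rw [← mul_sub, abs_mul, abs_of_pos (by positivity : (0 : ℝ) < 2 ^ (ℓ + mm)), abs_sub_comm,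
          e2, abs_mul]
        calc (2 : ℝ) ^ (ℓ + mm) * (|F.t ω' - F.t ω| * |g ω|) ≤
            2 ^ (ℓ + mm) * (1 / 2 ^ (w + X) * |g ω|) := by gcongr
          _ = |g ω| * 2 ^ ℓ * (2 ^ mm / 2 ^ (w + X)) := by
              rw [pow_add]
              ring
          _ ≤ 2 ^ w * (2 ^ mm / 2 ^ (w + X)) :=
              mul_le_mul_of_nonneg_right e3 (by positivity)
          _ = 2 ^ mm / 2 ^ X := by
              rw [pow_add]
              field_simp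
          _ ≤ 1 := by
              rw [div_le_one (by positivity)]
              exact pow_le_pow_right₀ (by norm_num) hmm
      have e6 := fl_dist e5
      linarith)
    have e7 : (2 : ℝ) * 2 + 1 = 5 := by norm_num
    rwa [e7] at k1
  -- the first coordinate
  have hy : CH p (fun ω => F.X (w + mm) ω y) (slam F (w + X)) ≤ Real.log 5 := by
    refine key (fun ω => F.x ω y) (fun ω => F.d ω y) w mm hmX (lin_x y) fun ω _ => ?_
    exact mul_le_of_le_one_left (by positivity) (F.dir ω y)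
  have s1 := CH_subadd h0 (fun ω => ⌊(2 : ℝ) ^ (ℓn + M) * hn ω⌋)
    (ctxK F y z hu hv w X ℓu ℓv mm) (slam F (w + X))
  have s2 : CH p (ctxK F y z hu hv w X ℓu ℓv mm) (slam F (w + X)) ≤
      CH p (fun ω => (F.X (w + mm) ω y,
        (⌊(2 : ℝ) ^ (ℓu + mm) * hu ω⌋, ⌊(2 : ℝ) ^ (ℓv + mm) * hv ω⌋))) (slam F (w + X)) := by
    refine CH_mono_left h0 fun ω ω' a b e => ?_
    simp only [Prod.mk.injEq] at e
    obtain ⟨-, -, -, e4⟩ := slam_eq e.2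
    exact Prod.ext (hz ω ω' a b e.2) (Prod.ext e4 (Prod.ext e.1.1 (Prod.ext e.1.2.1 e.1.2.2)))
  have s3 := CH_subadd h0 (fun ω => F.X (w + mm) ω y)
    (fun ω => (⌊(2 : ℝ) ^ (ℓu + mm) * hu ω⌋, ⌊(2 : ℝ) ^ (ℓv + mm) * hv ω⌋)) (slam F (w + X))
  have s4 := CH_subadd h0 (fun ω => ⌊(2 : ℝ) ^ (ℓu + mm) * hu ω⌋)
    (fun ω => ⌊(2 : ℝ) ^ (ℓv + mm) * hv ω⌋) (slam F (w + X))
  have k1 := key hn gn ℓn M hMX ln bn
  have k2 := key hu gu ℓu mm hmX lu bu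
  have k3 := key hv gv ℓv mm hmX lv bv
  linarith

/-- **The row over the exact positions.** -/
theorem row_e (hp : IsLaw p) (hpA : ∀ ω, 0 < p ω → A ω) {y u v t : Fin m} {z : F.Ω → 𝒵}
    {hu hv hn : F.Ω → ℝ} {D : ℝ} (_hD : 0 ≤ D) {nt : ℕ} (H : Tri F A y u v t z hu hv hn D nt)
    {w X ℓu ℓv mm n₀ n₁ : ℕ} (h01 : n₀ ≤ n₁) (hn₁ : n₁ ≤ nt) :
    CH p (fun ω => ⌊(2 : ℝ) ^ n₁ * hn ω⌋) (fun ω => (⌊(2 : ℝ) ^ n₀ * hn ω⌋,
      ((F.X J ω y, (F.X J ω u, F.X J ω v)), (F.W ω, ctxK F y z hu hv w X ℓu ℓv mm ω)))) ≤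
      CH p (fun ω => F.X n₁ ω t) (fun ω => ((F.X J ω y, (F.X J ω u, F.X J ω v)), F.W ω)) -
      CH p (fun ω => F.X n₀ ω t) (fun ω => ((F.X J ω y, (F.X J ω u, F.X J ω v)), F.W ω)) +
      2 * Real.log (2 * D + 5) := by
  have h0 := hp.nonneg
  have hJ : (0 : ℝ) < 2 ^ J := by positivity
  obtain ⟨E, hE⟩ : ∃ E, E = fun ω => ((F.X J ω y, (F.X J ω u, F.X J ω v)), F.W ω) := ⟨_, rfl⟩
  obtain ⟨K, hK⟩ : ∃ K, K = ctxK F y z hu hv w X ℓu ℓv mm := ⟨_, rfl⟩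
  obtain ⟨C, hC⟩ : ∃ C, C = fun ω => (⌊(2 : ℝ) ^ n₀ * hn ω⌋, ((F.X J ω y, (F.X J ω u, F.X J ω v)),
    (F.W ω, K ω))) := ⟨_, rfl⟩
  have hCW : ∀ ω ω', C ω = C ω' → E ω = E ω' ∧ z ω = z ω' ∧
      ⌊(2 : ℝ) ^ n₀ * hn ω⌋ = ⌊(2 : ℝ) ^ n₀ * hn ω'⌋ := by
    intro ω ω' e
    rw [hC] at e
    rw [hE]
    rw [hK] at e
    simp only [ctxK, Prod.mk.injEq] at e ⊢
    tauto
  have hdif : ∀ ω ω', A ω → A ω' → E ω = E ω' → z ω = z ω' → ∀ n ≤ nt,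
      |(hn ω - hn ω') - (F.x ω t - F.x ω' t)| * 2 ^ n ≤ D := by
    intro ω ω' a b e ez n hn'
    rw [hE] at e
    simp only [Prod.mk.injEq] at e
    have k1 := H.tn ω ω' a b ez e.2 e.1.1 e.1.2.1 e.1.2.2
    refine le_trans (mul_le_mul_of_nonneg_left (pow_le_pow_right₀ (by norm_num) hn')
      (abs_nonneg _)) k1
  -- the fine digits
  have a1 : CH p (fun ω => ⌊(2 : ℝ) ^ n₁ * hn ω⌋) C ≤
      CH p (fun ω => F.X n₁ ω t) C + Real.log (2 * D + 5) := by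
    have b1 := CH_le_add h0 (fun ω => ⌊(2 : ℝ) ^ n₁ * hn ω⌋) (fun ω => F.X n₁ ω t) C
    have b2 := CH_few hp (fun ω => ⌊(2 : ℝ) ^ n₁ * hn ω⌋) (fun ω => (F.X n₁ ω t, C ω))
      (L := D + 2) (by
        intro ω ω' a b e
        simp only [Prod.mk.injEq] at e
        obtain ⟨e1, e2, -⟩ := hCW ω ω' e.2
        have k1 := hdif ω ω' (hpA ω a) (hpA ω' b) e1 e2 n₁ hn₁
        have k2 := fl_near (j := n₁) e.1
        have k3 : |(2 : ℝ) ^ n₁ * hn ω - 2 ^ n₁ * hn ω'| ≤ D + 1 := by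
          rw [← mul_sub, abs_mul, abs_of_pos (by positivity : (0 : ℝ) < 2 ^ n₁), mul_comm]
          have e5 : hn ω - hn ω' = (F.x ω t - F.x ω' t) +
            ((hn ω - hn ω') - (F.x ω t - F.x ω' t)) := by ring
          rw [e5]
          have k4 := abs_add_le (F.x ω t - F.x ω' t) ((hn ω - hn ω') - (F.x ω t - F.x ω' t))
          calc _ ≤ (|F.x ω t - F.x ω' t| + |(hn ω - hn ω') - (F.x ω t - F.x ω' t)|) * 2 ^ n₁ :=
                mul_le_mul_of_nonneg_right k4 (by positivity)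
            _ ≤ _ := by linarith
        have k5 := fl_dist k3
        linarith)
    have e1 : 2 * (D + 2) + 1 = 2 * D + 5 := by ring
    rw [e1] at b2
    linarith
  -- the coarse digits
  have a2 : CH p (fun ω => F.X n₁ ω t) C ≤
      CH p (fun ω => F.X n₁ ω t) (fun ω => (F.X n₀ ω t, E ω)) + Real.log (2 * D + 5) := by
    have b1 := ch_tr h0 (fun ω => F.X n₁ ω t) (fun ω => (F.X n₀ ω t, E ω)) C
    have b2 : CH p (fun ω => (F.X n₀ ω t, E ω)) C ≤ CH p (fun ω => F.X n₀ ω t) C := by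
      refine CH_mono_left h0 fun ω ω' a b e => ?_
      simp only [Prod.mk.injEq] at e
      obtain ⟨e1, -⟩ := hCW ω ω' e.2
      exact Prod.ext e.1 e1
    have b3 := CH_few hp (fun ω => F.X n₀ ω t) C (L := D + 2) (by
      intro ω ω' a b e
      obtain ⟨e1, e2, e3⟩ := hCW ω ω' e
      have k1 := hdif ω ω' (hpA ω a) (hpA ω' b) e1 e2 n₀ (h01.trans hn₁)
      have k2 := fl_near e3
      have k3 : |(2 : ℝ) ^ n₀ * F.x ω t - 2 ^ n₀ * F.x ω' t| ≤ D + 1 := by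
        rw [← mul_sub, abs_mul, abs_of_pos (by positivity : (0 : ℝ) < 2 ^ n₀), mul_comm]
        have e5 : F.x ω t - F.x ω' t = (hn ω - hn ω') -
          ((hn ω - hn ω') - (F.x ω t - F.x ω' t)) := by ring
        rw [e5]
        have k4 := abs_sub (hn ω - hn ω') ((hn ω - hn ω') - (F.x ω t - F.x ω' t))
        calc _ ≤ (|hn ω - hn ω'| + |(hn ω - hn ω') - (F.x ω t - F.x ω' t)|) * 2 ^ n₀ :=
              mul_le_mul_of_nonneg_right k4 (by positivity)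
          _ ≤ _ := by linarith
      have k5 := fl_dist k3
      rw [X_eq, X_eq]
      linarith)
    have e1 : 2 * (D + 2) + 1 = 2 * D + 5 := by ring
    rw [e1] at b3
    linarith
  -- the row
  have a3 := CH_chain h0 (fun ω => F.X n₁ ω t) (fun ω => F.X n₀ ω t) E
  have a4 : CH p (fun ω => (F.X n₁ ω t, F.X n₀ ω t)) E = CH p (fun ω => F.X n₁ ω t) E := by
    refine CH_congr h0 (fun ω ω' _ _ h => by simp only [Prod.mk.injEq] at h ⊢; tauto)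
      (fun ω ω' _ _ h => ?_) (fun ω ω' _ _ h => h) (fun ω ω' _ _ h => h)
    simp only [Prod.mk.injEq] at h ⊢
    exact ⟨h.1, by
      rw [X_eq, X_eq]
      exact Pool.MM97.fl_coarse h01 h.1⟩
  rw [← hE]
  rw [← hK, ← hC]
  linarith

/-- **The row of the height of the target** over the context. -/
theorem nf_fam (hp : IsLaw p) (hpA : ∀ ω, 0 < p ω → A ω) {y u v t : Fin m} {z : F.Ω → 𝒵}
    {hu hv hn gu gv gn : F.Ω → ℝ} {D : ℝ} (hD : 0 ≤ D) {nt : ℕ} (H : Tri F A y u v t z hu hv hn D nt)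
    (hzZ : ∀ ω ω', A ω → A ω' → z ω = z ω' → F.Z ω = F.Z ω') {w X ℓu ℓv ℓn mm M n₀ : ℕ}
    (hwX : w + X ≤ J) (hmX : mm ≤ X) (hMX : M ≤ X) (hlu : ℓu + mm ≤ J) (hlv : ℓv + mm ≤ J)
    (hln : ℓn + M ≤ nt) (hn₀ : n₀ ≤ ℓn + M) (hz : Det p (slam F (w + X)) z)
    (lu : Lin F A w hu gu) (lv : Lin F A w hv gv) (ln : Lin F A w hn gn)
    (bu : ∀ ω, A ω → |gu ω| * 2 ^ ℓu ≤ 2 ^ w) (bv : ∀ ω, A ω → |gv ω| * 2 ^ ℓv ≤ 2 ^ w)
    (bn : ∀ ω, A ω → |gn ω| * 2 ^ ℓn ≤ 2 ^ w) {Zv : F.Ω → 𝒱} (hzv : Det p Zv z)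
    {Ex₀ δ s τ row : ℝ}
    (ha : Ex₀ ≤ CH p (fun ω => (F.X J ω y, (F.X J ω u, F.X J ω v)))
      (fun ω => (Zv ω, F.W ω)))
    (hbu : CH p (fun ω => ⌊(2 : ℝ) ^ (ℓu + mm) * hu ω⌋)
      (fun ω => (F.X (w + mm) ω y, (Zv ω, F.W ω))) ≤ δ)
    (hbv : CH p (fun ω => ⌊(2 : ℝ) ^ (ℓv + mm) * hv ω⌋)
      (fun ω => (F.X (w + mm) ω y, (Zv ω, F.W ω))) ≤ δ)
    (hbn : CH p (fun ω => ⌊(2 : ℝ) ^ (ℓn + M) * hn ω⌋)
      (fun ω => (F.X (w + mm) ω y, (Zv ω, F.W ω))) ≤ δ)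
    (hs : CH p (fun ω => F.X (w + mm) ω y) (fun ω => (Zv ω, F.W ω)) ≤ s)
    (hc : τ ≤ CH p F.W (slam F (w + X)))
    (he : CH p (fun ω => F.X (ℓn + M) ω t)
        (fun ω => ((F.X J ω y, (F.X J ω u, F.X J ω v)), F.W ω)) -
      CH p (fun ω => F.X n₀ ω t) (fun ω => ((F.X J ω y, (F.X J ω u, F.X J ω v)), F.W ω)) ≤ row) :
    CH p (fun ω => ⌊(2 : ℝ) ^ (ℓn + M) * hn ω⌋)
      (fun ω => (⌊(2 : ℝ) ^ n₀ * hn ω⌋, ctxK F y z hu hv w X ℓu ℓv mm ω)) ≤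
      (row + 2 * Real.log (2 * D + 5)) +
      ((((J : ℝ) - (w + X)) + ((J : ℝ) - (w + mm)) + ((J : ℝ) - (ℓu + mm)) +
        ((J : ℝ) - (ℓv + mm))) * Real.log 2 + (Real.log 5 * 2 + 2 * Real.log (2 * D + 5))) -
      (τ - 4 * Real.log 5) - (Ex₀ - s - 3 * δ) := by
  have h0 := hp.nonneg
  obtain ⟨K, hK⟩ : ∃ K, K = ctxK F y z hu hv w X ℓu ℓv mm := ⟨_, rfl⟩
  have k1 := row_e hp hpA hD H (w := w) (X := X) (ℓu := ℓu) (ℓv := ℓv) (mm := mm) hn₀ hln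
  have k2 := cnt_d hp hpA hD H hzZ (w := w) (X := X) (ℓu := ℓu) (ℓv := ℓv) (mm := mm) hwX
    (by omega) hlu hlv (fun ω => ⌊(2 : ℝ) ^ n₀ * hn ω⌋)
  have k3 := tim_c hp hpA (y := y) (z := z) (M := M) hwX hmX hMX hz lu lv ln bu bv bn
  rw [← hK] at k3
  have e1 : (fun ω => (⌊(2 : ℝ) ^ n₀ * hn ω⌋,
      ((F.X J ω y, (F.X J ω u, F.X J ω v)), (F.W ω, ctxK F y z hu hv w X ℓu ℓv mm ω)))) =
      fun ω => (⌊(2 : ℝ) ^ n₀ * hn ω⌋, ((F.X J ω y, (F.X J ω u, F.X J ω v)), (F.W ω, K ω))) := by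
    rw [hK]
  rw [e1] at k1
  have e2 : (fun ω => (⌊(2 : ℝ) ^ n₀ * hn ω⌋, ctxK F y z hu hv w X ℓu ℓv mm ω)) =
      fun ω => (⌊(2 : ℝ) ^ n₀ * hn ω⌋, K ω) := by
    rw [hK]
  rw [e2] at k2 ⊢
  have h01 : Det p (fun ω => ⌊(2 : ℝ) ^ (ℓn + M) * hn ω⌋) (fun ω => ⌊(2 : ℝ) ^ n₀ * hn ω⌋) :=
    fun ω ω' _ _ e => Pool.MM97.fl_coarse hn₀ e
  have hb : CH p (fun ω => (⌊(2 : ℝ) ^ (ℓn + M) * hn ω⌋, K ω))
      (fun ω => (F.X (w + mm) ω y, (Zv ω, F.W ω))) ≤ 3 * δ := by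
    have s1 := CH_subadd h0 (fun ω => ⌊(2 : ℝ) ^ (ℓn + M) * hn ω⌋) K
      (fun ω => (F.X (w + mm) ω y, (Zv ω, F.W ω)))
    have s2 : CH p K (fun ω => (F.X (w + mm) ω y, (Zv ω, F.W ω))) ≤
        CH p (fun ω => (⌊(2 : ℝ) ^ (ℓu + mm) * hu ω⌋, ⌊(2 : ℝ) ^ (ℓv + mm) * hv ω⌋))
          (fun ω => (F.X (w + mm) ω y, (Zv ω, F.W ω))) := by
      refine CH_mono_left h0 fun ω ω' a b e => ?_
      rw [hK]
      simp only [ctxK, Prod.mk.injEq] at e ⊢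
      obtain ⟨⟨f1, f2⟩, f3, f4, f5⟩ := e
      refine ⟨hzv ω ω' a b f4, ?_, f3, f1, f2⟩
      have f6 : F.T ω = F.T ω' := congrArg Prod.fst f5
      unfold Fam.T1
      rw [f6]
    have s3 := CH_subadd h0 (fun ω => ⌊(2 : ℝ) ^ (ℓu + mm) * hu ω⌋)
      (fun ω => ⌊(2 : ℝ) ^ (ℓv + mm) * hv ω⌋) (fun ω => (F.X (w + mm) ω y, (Zv ω, F.W ω)))
    linarith
  exact row_law hp (fun ω => ⌊(2 : ℝ) ^ n₀ * hn ω⌋) (fun ω => ⌊(2 : ℝ) ^ (ℓn + M) * hn ω⌋)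
    (fun ω => (F.X J ω y, (F.X J ω u, F.X J ω v))) F.W K Zv (fun ω => F.X (w + mm) ω y)
    h01 ha hb hs (by linarith) k2 (by linarith)

end ent

end Pool.ONE72
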