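import Pool.Agent.H72.ONE1.Evf

/-!
# The numbers of one hop

`NumC`: the numbers of one hop of a class. `WJ`, `LJ`, `sJ`: the numbers of digits of a family.
`NumN`: the inequalities between the numbers of digits. `numN_of`: they hold for large families.
-/

set_option autoImplicit false

namespace Pool.ONE72

open Finset Real

/-- **The numbers of one hop.** -/
structure NumC (w Nu Nv Nn : Fin 3 → ℝ) (Nl P E mr Mr M' e e2 s q av : ℝ) : Prop where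
  q0 : 0 < q
  e0 : 0 < e
  s0 : 0 < s
  w0 : 0 < w 0
  w01 : w 0 ≤ w 1
  w12 : w 1 ≤ w 2
  w21 : w 2 + q ≤ 1
  wX : w 0 + Nl + e + q ≤ w 2 + Nn 0
  mX : mr + q + Nn 0 ≤ Nl
  MX : Mr + q + Nn 0 ≤ Nl
  m0 : 0 ≤ mr
  M0 : 0 ≤ Mr
  M'0 : 0 ≤ M'
  E0 : 0 ≤ E
  mP : mr + q ≤ P
  MP : Mr + s + q ≤ P
  se : s + q ≤ e2
  su : s + e + q ≤ Nu 0
  sv : s + e + q ≤ Nv 0
  sn : s + e + q ≤ Nn 0
  lu : ∀ i, Nu 0 ≤ Nu i
  lv : ∀ i, Nv 0 ≤ Nv i
  ln : ∀ i, Nn 0 ≤ Nn i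
  na : e + q ≤ e2
  na2 : Nn 2 + e + q ≤ Nn 0 + P
  u3 : Nu 0 + mr + q ≤ Nu 2 + e2
  v3 : Nv 0 + mr + q ≤ Nv 2 + e2
  mm' : M' + e + q ≤ Nn 0 + Mr
  ru : ∀ i, w i + Nu i + s + q ≤ 1
  rv : ∀ i, w i + Nv i + s + q ≤ 1
  rn : ∀ i, w i + Nn i + E + s + q ≤ 1
  tn : w 0 + Nn 0 + Mr + E + s + q ≤ 1
  tu : w 0 + Nu 0 + mr + q ≤ 1
  tv : w 0 + Nv 0 + mr + q ≤ 1
  fu : w 0 + Nu 0 + mr + q ≤ w 1 + Nu 1 + e2
  fv : w 0 + Nv 0 + mr + q ≤ w 1 + Nv 1 + e2
  fn : w 0 + Nn 0 + Mr + q ≤ w 1 + Nn 1 + e2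
  av0 : w 1 ≤ av
  av1 : av ≤ 1
  vm : w 1 + q ≤ w 0 + mr

/-- The numbers of one hop for a smaller loss. -/
theorem NumC.loss {w Nu Nv Nn : Fin 3 → ℝ} {Nl P E mr Mr M' e e2 s q av : ℝ}
    (h : NumC w Nu Nv Nn Nl P E mr Mr M' e e2 s q av) {e' : ℝ} (h0 : 0 < e') (h1 : e' ≤ e) :
    NumC w Nu Nv Nn Nl P E mr Mr M' e' e2 s q av where
  q0 := h.q0
  e0 := h0
  s0 := h.s0
  w0 := h.w0
  w01 := h.w01
  w12 := h.w12
  w21 := h.w21
  wX := by linarith [h.wX]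
  mX := h.mX
  MX := h.MX
  m0 := h.m0
  M0 := h.M0
  M'0 := h.M'0
  E0 := h.E0
  mP := h.mP
  MP := h.MP
  se := h.se
  su := by linarith [h.su]
  sv := by linarith [h.sv]
  sn := by linarith [h.sn]
  lu := h.lu
  lv := h.lv
  ln := h.ln
  na := by linarith [h.na]
  na2 := by linarith [h.na2]
  u3 := h.u3
  v3 := h.v3
  mm' := by linarith [h.mm']
  ru := h.ru
  rv := h.rv
  rn := h.rn
  tn := h.tn
  tu := h.tu
  tv := h.tv
  fu := h.fu
  fv := h.fv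
  fn := h.fn
  av0 := h.av0
  av1 := h.av1
  vm := h.vm

/-- The windows. -/
noncomputable def WJ (w : Fin 3 → ℝ) (J : ℕ) (i : Fin 3) : ℕ := ⌊w i * J⌋₊

/-- The precisions of the labels. -/
noncomputable def LJ (Nu Nv Nn : Fin 3 → ℝ) (e : ℝ) (J : ℕ) (i j : Fin 3) : ℕ :=
  if j = 0 then ⌊(Nu i - e) * J⌋₊ else if j = 1 then ⌊(Nv i - e) * J⌋₊ else ⌊(Nn i - e) * J⌋₊

/-- The sizes of the labels. -/
noncomputable def sJ (E s : ℝ) (J : ℕ) (j : Fin 3) : ℕ :=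
  if j = 2 then ⌊(E + s) * J⌋₊ else ⌊s * J⌋₊

/-- **The inequalities between the numbers of digits.** -/
structure NumN (J : ℕ) (W : Fin 3 → ℕ) (L : Fin 3 → Fin 3 → ℕ) (sz : Fin 3 → ℕ)
    (se X mm M P Na n' e wa : ℕ) : Prop where
  w01 : W 0 ≤ W 1
  w02 : W 0 ≤ W 2
  w1J : W 1 ≤ J
  w2J : W 2 ≤ J
  wX : W 0 + X ≤ W 2
  mX : mm ≤ X
  MX : M ≤ X
  mP : mm ≤ P
  MP : M + se ≤ P
  see : se + 4 ≤ e
  seL : ∀ j, se ≤ L 0 j
  LL : ∀ j, L 0 j ≤ L 2 j
  na : Na + 4 ≤ L 2 2 + e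
  na2 : Na ≤ L 0 2 + P
  u3 : L 0 0 + mm + 4 ≤ L 2 0 + e
  v3 : L 0 1 + mm + 4 ≤ L 2 1 + e
  nn : n' ≤ L 0 2 + M
  r1 : ∀ j, W 1 + L 1 j + sz j ≤ J
  r2 : ∀ j, W 2 + L 2 j + sz j ≤ J
  ss : se ≤ sz 1
  s0 : sz 0 ≤ sz 1
  tn : W 0 + L 0 2 + M + sz 2 ≤ J
  tu : W 0 + L 0 0 + mm ≤ J
  tv : W 0 + L 0 1 + mm ≤ J
  fu : W 0 + L 0 0 + mm + 4 ≤ W 1 + L 1 0 + e
  fv : W 0 + L 0 1 + mm + 4 ≤ W 1 + L 1 1 + e
  fn : W 0 + L 0 2 + M + 4 ≤ W 1 + L 1 2 + e
  av : W 1 ≤ wa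
  vm : W 1 ≤ W 0 + mm

theorem fl_two {x : ℝ} (hx : 0 ≤ x) (J : ℕ) :
    ((⌊x * J⌋₊ : ℕ) : ℝ) ≤ x * J ∧ x * J < (⌊x * J⌋₊ : ℕ) + 1 :=
  ⟨Nat.floor_le (by positivity), Nat.lt_floor_add_one _⟩

/-- **The inequalities hold** for large families. -/
theorem numN_of {w Nu Nv Nn : Fin 3 → ℝ} {Nl P E mr Mr M' e e2 s q av : ℝ}
    (h : NumC w Nu Nv Nn Nl P E mr Mr M' e e2 s q av) {J : ℕ} (hJ : 12 ≤ q * J)
    {X : ℕ} (hX : X = ⌊Nl * J⌋₊ - LJ Nu Nv Nn e J 0 2) :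
    NumN J (WJ w J) (LJ Nu Nv Nn e J) (sJ E s J) ⌊s * J⌋₊ X ⌊mr * J⌋₊ ⌊Mr * J⌋₊ ⌊P * J⌋₊
      ⌊Nn 2 * J⌋₊ ⌊M' * J⌋₊ ⌊e2 * J⌋₊ ⌊av * J⌋₊ ∧
      ⌊Nl * J⌋₊ = LJ Nu Nv Nn e J 0 2 + X ∧ (Nl - Nn 0) * J ≤ X + 1 ∧
      (X : ℝ) ≤ (Nl - Nn 0 + e) * J + 1 := by
  have hJ0 : (0 : ℝ) ≤ J := Nat.cast_nonneg J
  have q0 := h.q0
  have e0 := h.e0
  have s0 := h.s0
  have w0 := h.w0
  have w01 := h.w01
  have w12 := h.w12
  have w21 := h.w21
  have wX := h.wX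
  have mX := h.mX
  have MX := h.MX
  have m0 := h.m0
  have M0 := h.M0
  have M'0 := h.M'0
  have E0 := h.E0
  have mP := h.mP
  have MP := h.MP
  have se := h.se
  have su := h.su
  have sv := h.sv
  have sn := h.sn
  have lu1 := h.lu 1
  have lu2 := h.lu 2
  have lv1 := h.lv 1
  have lv2 := h.lv 2
  have ln1 := h.ln 1
  have ln2 := h.ln 2
  have na := h.na
  have na2 := h.na2
  have u3 := h.u3
  have v3 := h.v3
  have mm' := h.mm'
  have ru0 := h.ru 0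
  have ru1 := h.ru 1
  have ru2 := h.ru 2
  have rv0 := h.rv 0
  have rv1 := h.rv 1
  have rv2 := h.rv 2
  have rn0 := h.rn 0
  have rn1 := h.rn 1
  have rn2 := h.rn 2
  have tn := h.tn
  have tu := h.tu
  have tv := h.tv
  have fu := h.fu
  have fv := h.fv
  have fn := h.fn
  have av0 := h.av0
  have av1 := h.av1
  have vm := h.vm
  -- multiply by `J`
  have M : ∀ {a b : ℝ}, a ≤ b → a * J ≤ b * J := fun hab => mul_le_mul_of_nonneg_right hab hJ0
  obtain ⟨a1, a2⟩ := fl_two (x := w 0) w0.le J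
  obtain ⟨b1, b2⟩ := fl_two (x := w 1) (by linarith) J
  obtain ⟨c1, c2⟩ := fl_two (x := w 2) (by linarith) J
  obtain ⟨d1, d2⟩ := fl_two (x := Nl) (by linarith) J
  obtain ⟨f1, f2⟩ := fl_two (x := Nu 0 - e) (by linarith) J
  obtain ⟨g1, g2⟩ := fl_two (x := Nv 0 - e) (by linarith) J
  obtain ⟨h1, h2⟩ := fl_two (x := Nn 0 - e) (by linarith) J
  obtain ⟨i1, i2⟩ := fl_two (x := Nu 1 - e) (by linarith) J
  obtain ⟨j1, j2⟩ := fl_two (x := Nv 1 - e) (by linarith) J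
  obtain ⟨k1, k2⟩ := fl_two (x := Nn 1 - e) (by linarith) J
  obtain ⟨l1, l2⟩ := fl_two (x := Nu 2 - e) (by linarith) J
  obtain ⟨m1, m2⟩ := fl_two (x := Nv 2 - e) (by linarith) J
  obtain ⟨n1, n2⟩ := fl_two (x := Nn 2 - e) (by linarith) J
  obtain ⟨o1, o2⟩ := fl_two (x := mr) m0 J
  obtain ⟨p1, p2⟩ := fl_two (x := Mr) M0 J
  obtain ⟨q1, q2⟩ := fl_two (x := P) (by linarith) J
  obtain ⟨r1, r2⟩ := fl_two (x := s) s0.le J
  obtain ⟨s1, s2⟩ := fl_two (x := E + s) (by linarith) J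
  obtain ⟨t1, t2⟩ := fl_two (x := Nn 2) (by linarith) J
  obtain ⟨u1, u2⟩ := fl_two (x := M') M'0 J
  obtain ⟨v1, v2⟩ := fl_two (x := e2) (by linarith) J
  have eL00 : LJ Nu Nv Nn e J 0 0 = ⌊(Nu 0 - e) * J⌋₊ := rfl
  have eL01 : LJ Nu Nv Nn e J 0 1 = ⌊(Nv 0 - e) * J⌋₊ := rfl
  have eL02 : LJ Nu Nv Nn e J 0 2 = ⌊(Nn 0 - e) * J⌋₊ := rfl
  have eL10 : LJ Nu Nv Nn e J 1 0 = ⌊(Nu 1 - e) * J⌋₊ := rfl
  have eL11 : LJ Nu Nv Nn e J 1 1 = ⌊(Nv 1 - e) * J⌋₊ := rfl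
  have eL12 : LJ Nu Nv Nn e J 1 2 = ⌊(Nn 1 - e) * J⌋₊ := rfl
  have eL20 : LJ Nu Nv Nn e J 2 0 = ⌊(Nu 2 - e) * J⌋₊ := rfl
  have eL21 : LJ Nu Nv Nn e J 2 1 = ⌊(Nv 2 - e) * J⌋₊ := rfl
  have eL22 : LJ Nu Nv Nn e J 2 2 = ⌊(Nn 2 - e) * J⌋₊ := rfl
  have es0 : sJ E s J 0 = ⌊s * J⌋₊ := rfl
  have es1 : sJ E s J 1 = ⌊s * J⌋₊ := rfl
  have es2 : sJ E s J 2 = ⌊(E + s) * J⌋₊ := rfl
  have eW0 : WJ w J 0 = ⌊w 0 * J⌋₊ := rfl
  have eW1 : WJ w J 1 = ⌊w 1 * J⌋₊ := rfl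
  have eW2 : WJ w J 2 = ⌊w 2 * J⌋₊ := rfl
  have hNl : ⌊(Nn 0 - e) * J⌋₊ ≤ ⌊Nl * J⌋₊ :=
    Nat.floor_le_floor (M (by linarith))
  have hX1 : ⌊Nl * J⌋₊ = LJ Nu Nv Nn e J 0 2 + X := by
    rw [hX, eL02]
    omega
  have hX2 : (⌊Nl * J⌋₊ : ℝ) = (⌊(Nn 0 - e) * J⌋₊ : ℕ) + X := by
    rw [eL02] at hX1
    exact_mod_cast hX1
  have z1 := M wX
  have z2 := M mX
  have z3 := M MX
  have z4 := M mP
  have z5 := M MP
  have z6 := M se
  have z7 := M su
  have z8 := M sv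
  have z9 := M sn
  have z10 := M na
  have z11 := M na2
  have z12 := M u3
  have z13 := M v3
  have z14 := M mm'
  have z15 := M ru1
  have z16 := M ru2
  have z17 := M rv1
  have z18 := M rv2
  have z19 := M rn1
  have z20 := M rn2
  have z21 := M tn
  have z22 := M tu
  have z23 := M tv
  have z24 := M fu
  have z25 := M fv
  have z26 := M fn
  have z27 := M vm
  have z28 := M w21
  have z29 := mul_nonneg E0 hJ0
  have heJ : 0 ≤ e * J := mul_nonneg e0.le hJ0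
  refine ⟨?_, hX1, ?_, ?_⟩
  · exact
      { w01 := by
          rw [eW0, eW1]
          exact Nat.floor_le_floor (M w01)
        w02 := by
          rw [eW0, eW2]
          exact Nat.floor_le_floor (M (w01.trans w12))
        w1J := by
          rw [eW1, ← Nat.cast_le (α := ℝ)]
          have z31 := M (show w 1 ≤ 1 by linarith)
          linarith only [b1, z31]
        w2J := by
          rw [eW2, ← Nat.cast_le (α := ℝ)]
          linarith only [c1, z28, hJ]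
        wX := by
          rw [eW0, eW2, ← Nat.cast_le (α := ℝ)]
          push_cast
          linarith only [a1, c2, d1, h2, hX2, z1, hJ]
        mX := by
          rw [← Nat.cast_le (α := ℝ)]
          linarith only [o1, d2, h1, hX2, z2, hJ, heJ]
        MX := by
          rw [← Nat.cast_le (α := ℝ)]
          linarith only [p1, d2, h1, hX2, z3, hJ, heJ]
        mP := by
          rw [← Nat.cast_le (α := ℝ)]
          linarith only [o1, q2, z4, hJ]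
        MP := by
          rw [← Nat.cast_le (α := ℝ)]
          push_cast
          linarith only [p1, r1, q2, z5, hJ]
        see := by
          rw [← Nat.cast_le (α := ℝ)]
          push_cast
          linarith only [r1, v2, z6, hJ]
        seL := by
          intro j
          fin_cases j
          · show ⌊s * J⌋₊ ≤ ⌊(Nu 0 - e) * J⌋₊
            rw [← Nat.cast_le (α := ℝ)]
            linarith only [r1, f2, z7, hJ]
          · show ⌊s * J⌋₊ ≤ ⌊(Nv 0 - e) * J⌋₊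
            rw [← Nat.cast_le (α := ℝ)]
            linarith only [r1, g2, z8, hJ]
          · show ⌊s * J⌋₊ ≤ ⌊(Nn 0 - e) * J⌋₊
            rw [← Nat.cast_le (α := ℝ)]
            linarith only [r1, h2, z9, hJ]
        LL := by
          intro j
          fin_cases j
          · exact Nat.floor_le_floor (M (show Nu 0 - e ≤ Nu 2 - e by linarith))
          · exact Nat.floor_le_floor (M (show Nv 0 - e ≤ Nv 2 - e by linarith))
          · exact Nat.floor_le_floor (M (show Nn 0 - e ≤ Nn 2 - e by linarith))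
        na := by
          rw [eL22, ← Nat.cast_le (α := ℝ)]
          push_cast
          linarith only [t1, n2, v2, z10, hJ]
        na2 := by
          rw [eL02, ← Nat.cast_le (α := ℝ)]
          push_cast
          linarith only [t1, h2, q2, z11, hJ]
        u3 := by
          rw [eL00, eL20, ← Nat.cast_le (α := ℝ)]
          push_cast
          linarith only [f1, o1, l2, v2, z12, hJ]
        v3 := by
          rw [eL01, eL21, ← Nat.cast_le (α := ℝ)]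
          push_cast
          linarith only [g1, o1, m2, v2, z13, hJ]
        nn := by
          rw [eL02, ← Nat.cast_le (α := ℝ)]
          push_cast
          linarith only [u1, h2, p2, z14, hJ]
        r1 := by
          intro j
          fin_cases j
          · show ⌊w 1 * J⌋₊ + ⌊(Nu 1 - e) * J⌋₊ + ⌊s * J⌋₊ ≤ J
            rw [← Nat.cast_le (α := ℝ)]
            push_cast
            linarith only [b1, i1, r1, z15, hJ, heJ]
          · show ⌊w 1 * J⌋₊ + ⌊(Nv 1 - e) * J⌋₊ + ⌊s * J⌋₊ ≤ J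
            rw [← Nat.cast_le (α := ℝ)]
            push_cast
            linarith only [b1, j1, r1, z17, hJ, heJ]
          · show ⌊w 1 * J⌋₊ + ⌊(Nn 1 - e) * J⌋₊ + ⌊(E + s) * J⌋₊ ≤ J
            rw [← Nat.cast_le (α := ℝ)]
            push_cast
            linarith only [b1, k1, s1, z19, hJ, heJ]
        r2 := by
          intro j
          fin_cases j
          · show ⌊w 2 * J⌋₊ + ⌊(Nu 2 - e) * J⌋₊ + ⌊s * J⌋₊ ≤ J
            rw [← Nat.cast_le (α := ℝ)]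
            push_cast
            linarith only [c1, l1, r1, z16, hJ, heJ]
          · show ⌊w 2 * J⌋₊ + ⌊(Nv 2 - e) * J⌋₊ + ⌊s * J⌋₊ ≤ J
            rw [← Nat.cast_le (α := ℝ)]
            push_cast
            linarith only [c1, m1, r1, z18, hJ, heJ]
          · show ⌊w 2 * J⌋₊ + ⌊(Nn 2 - e) * J⌋₊ + ⌊(E + s) * J⌋₊ ≤ J
            rw [← Nat.cast_le (α := ℝ)]
            push_cast
            linarith only [c1, n1, s1, z20, hJ, heJ]
        ss := by rw [es1]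
        s0 := by rw [es0, es1]
        tn := by
          rw [eW0, eL02, es2, ← Nat.cast_le (α := ℝ)]
          push_cast
          linarith only [a1, h1, p1, s1, z21, hJ, heJ]
        tu := by
          rw [eW0, eL00, ← Nat.cast_le (α := ℝ)]
          push_cast
          linarith only [a1, f1, o1, z22, hJ, heJ]
        tv := by
          rw [eW0, eL01, ← Nat.cast_le (α := ℝ)]
          push_cast
          linarith only [a1, g1, o1, z23, hJ, heJ]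
        fu := by
          rw [eW0, eL00, eW1, eL10, ← Nat.cast_le (α := ℝ)]
          push_cast
          linarith only [a1, f1, o1, b2, i2, v2, z24, hJ]
        fv := by
          rw [eW0, eL01, eW1, eL11, ← Nat.cast_le (α := ℝ)]
          push_cast
          linarith only [a1, g1, o1, b2, j2, v2, z25, hJ]
        fn := by
          rw [eW0, eL02, eW1, eL12, ← Nat.cast_le (α := ℝ)]
          push_cast
          linarith only [a1, h1, p1, b2, k2, v2, z26, hJ]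
        av := by
          rw [eW1]
          exact Nat.floor_le_floor (M av0)
        vm := by
          rw [eW0, eW1, ← Nat.cast_le (α := ℝ)]
          push_cast
          linarith only [b1, a2, o2, z27, hJ] }
  · linarith only [d2, h1, hX2, heJ]
  · linarith only [d1, h2, hX2]

end Pool.ONE72
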