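import Pool.Agent.H72.ONE1.Fcl

/-!
# The numbers near a window

`numC_ok`: the numbers of one hop, from numbers which are linear up to a multiple of `a`.
-/

set_option autoImplicit false

namespace Pool.ONE72

open Finset Real

/-- **The numbers of one hop**, from numbers which are linear up to a multiple of `a`. -/
theorem numC_ok {w Nu Nv Nn x xs ys : Fin 3 → ℝ}
    {Nl P E mr Mr av g n1 n2 n3 r a ρ₁ tr sr Lr : ℝ} (ha : 0 < a)
    (x0 : x 0 = 0) (x1 : x 1 = ρ₁) (x2 : x 2 = r)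
    (s0 : xs 0 = 0) (s1 : xs 1 = mr - ρ₁) (s2 : xs 2 = tr)
    (t0 : ys 0 = 0) (t1 : ys 1 = Mr - ρ₁) (t2 : ys 2 = sr)
    (hw : ∀ i, g + x i ≤ w i ∧ w i ≤ g + x i + a)
    (hu : ∀ i, n1 + xs i - 5 * a ≤ Nu i ∧ Nu i ≤ n1 + xs i + 5 * a)
    (hv : ∀ i, n2 + xs i - 5 * a ≤ Nv i ∧ Nv i ≤ n2 + xs i + 5 * a)
    (hn : ∀ i, n3 + ys i - 5 * a ≤ Nn i ∧ Nn i ≤ n3 + ys i + 5 * a)
    (hl : n3 + Lr - 5 * a ≤ Nl ∧ Nl ≤ n3 + Lr + 5 * a)
    (hm : ∀ i, Nn 0 ≤ Nn i) (av0 : w 1 ≤ av) (av1 : av ≤ 1)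
    (k1 : 100 * a ≤ ρ₁) (k2 : 100 * a ≤ mr - ρ₁)
    (k4 : mr + 100 * a ≤ tr) (k5 : mr + 100 * a ≤ Lr) (k6 : Mr + 100 * a ≤ Lr)
    (k7 : Lr + 100 * a ≤ r) (k8 : Mr + 100 * a ≤ P) (k9 : mr + 100 * a ≤ P)
    (k10 : sr + 100 * a ≤ P) (k11 : 100 * a ≤ n1) (k12 : 100 * a ≤ n2) (k13 : 100 * a ≤ n3)
    (k14 : 0 < g) (k16 : g + n1 + tr + r + 100 * a ≤ 1)
    (k17 : g + n2 + tr + r + 100 * a ≤ 1) (k18 : g + n3 + 2 * r + E + 100 * a ≤ 1)
    (k19 : sr ≤ r) (k21 : 0 ≤ E) (k22 : ρ₁ ≤ Mr) :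
    NumC w Nu Nv Nn Nl P E mr Mr (Nn 0 + Mr - 2 * a) a (24 * a) (a / 2) (a / 8) av := by
  have w0 := hw 0
  have w1 := hw 1
  have w2 := hw 2
  have u0 := hu 0
  have u1 := hu 1
  have u2 := hu 2
  have v0 := hv 0
  have v1 := hv 1
  have v2 := hv 2
  have n0 := hn 0
  have n1' := hn 1
  have n2' := hn 2
  rw [x0] at w0
  rw [x1] at w1
  rw [x2] at w2
  rw [s0] at u0 v0
  rw [s1] at u1 v1
  rw [s2] at u2 v2
  rw [t0] at n0
  rw [t1] at n1'
  rw [t2] at n2'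
  obtain ⟨w0a, w0b⟩ := w0
  obtain ⟨w1a, w1b⟩ := w1
  obtain ⟨w2a, w2b⟩ := w2
  obtain ⟨u0a, u0b⟩ := u0
  obtain ⟨u1a, u1b⟩ := u1
  obtain ⟨u2a, u2b⟩ := u2
  obtain ⟨v0a, v0b⟩ := v0
  obtain ⟨v1a, v1b⟩ := v1
  obtain ⟨v2a, v2b⟩ := v2
  obtain ⟨n0a, n0b⟩ := n0
  obtain ⟨n1a, n1b⟩ := n1'
  obtain ⟨n2a, n2b⟩ := n2'
  obtain ⟨la, lb⟩ := hl
  have m1 := hm 1
  have m2 := hm 2
  have hall : ∀ {Q : Fin 3 → Prop}, Q 0 → Q 1 → Q 2 → ∀ i, Q i := by
    intro Q a b c i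
    fin_cases i
    · exact a
    · exact b
    · exact c
  exact {
    q0 := by linarith
    e0 := ha
    s0 := by linarith
    w0 := by linarith
    w01 := by linarith
    w12 := by linarith
    w21 := by linarith
    wX := by linarith
    mX := by linarith
    MX := by linarith
    m0 := by linarith
    M0 := by linarith
    M'0 := by linarith
    E0 := k21
    mP := by linarith
    MP := by linarith
    se := by linarith
    su := by linarith
    sv := by linarith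
    sn := by linarith
    lu := hall le_rfl (by linarith) (by linarith)
    lv := hall le_rfl (by linarith) (by linarith)
    ln := hm
    na := by linarith
    na2 := by linarith
    u3 := by linarith
    v3 := by linarith
    mm' := by linarith
    ru := hall (by linarith) (by linarith) (by linarith)
    rv := hall (by linarith) (by linarith) (by linarith)
    rn := hall (by linarith) (by linarith) (by linarith)
    tn := by linarith
    tu := by linarith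
    tv := by linarith
    fu := by linarith
    fv := by linarith
    fn := by linarith
    av0 := av0
    av1 := av1
    vm := by linarith }

end Pool.ONE72
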