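import Pool.Agent.H72.ONE1.Ins
import Pool.Agent.H45.RPL.Hyp

/-!
# Two copies of the ball; few bits

`near_few`: if two copies of the ball have near values then the value is few bits given the ball.
`few_x`: a floor of a number which is known up to `2 ^ k`. `ch_part`: few bits on a part.
-/

set_option autoImplicit false

namespace Pool.ONE72

open Finset Real
open Pool.Agent.H49.Ent Pool.Agent.H32.Dense Pool.STK Pool.KA Pool.KSAT Pool.K2S Pool.PB Pool.GEN
open Pool.LPX Pool.ONE17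
open Pool.BFL (Pb)
open Pool.S6C (cnt)
open Pool.JVE (pe_sum pair_sel)

section law

variable {Ω β γ : Type} [Fintype Ω] {p : Ω → ℝ}

/-- **Near for two copies, so few bits.** -/
theorem near_few (hp : IsLaw p) (B : Ω → β) (V : Ω → ℤ) {R c M : ℝ} (hR : 0 ≤ R) (hM : 0 ≤ M)
    (hc : Ex (dbl p B) (fun w => if |(V w.1 : ℝ) - V w.2| ≤ R then 0 else 1) ≤ c)
    (hcnt : (cnt p V (fun _ => True) : ℝ) ≤ Real.exp M) :
    CH p V B ≤ Real.log 2 + Real.log (2 * R + 1) + c * M := by
  classical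
  have hne : Nonempty Ω := by
    by_contra hcon
    rw [not_nonempty_iff] at hcon
    have h2 := hp.sum_one
    rw [Finset.univ_eq_empty, Finset.sum_empty] at h2
    exact zero_ne_one h2
  obtain ⟨sel, hsel⟩ := pair_sel hp.nonneg B (fun a b => |(V a : ℝ) - V b| ≤ R)
  have hl : IsLaw (dbl p B) := Pool.KM7.P2_isLaw hp B
  have h1 : 1 - c ≤ Pe (Pool.KM7.P2 p B) (fun x => |(V x.1 : ℝ) - V x.2| ≤ R) := by
    have e1 : Pe (Pool.KM7.P2 p B) (fun x => |(V x.1 : ℝ) - V x.2| ≤ R) =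
        1 - Ex (dbl p B) (fun w => if |(V w.1 : ℝ) - V w.2| ≤ R then 0 else 1) := by
      rw [pe_sum]
      have e2 : Pool.KM7.P2 p B = dbl p B := rfl
      rw [e2]
      unfold Ex
      have e3 : ∑ w, dbl p B w = 1 := hl.sum_one
      have e4 : (∑ w, if |(V w.1 : ℝ) - V w.2| ≤ R then dbl p B w else 0) +
          ∑ w, dbl p B w * (if |(V w.1 : ℝ) - V w.2| ≤ R then (0 : ℝ) else 1) =
            ∑ w, dbl p B w := by
        rw [← Finset.sum_add_distrib]
        refine Finset.sum_congr rfl fun w _ => ?_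
        by_cases h : |(V w.1 : ℝ) - V w.2| ≤ R
        · rw [if_pos h, if_pos h]
          ring
        · rw [if_neg h, if_neg h]
          ring
      linarith
    rw [e1]
    linarith
  have h2 := h1.trans hsel
  refine Pool.LA91.CH_near hp V B (fun b => (V (sel b) : ℝ))
    (fun ω => ¬ |(V ω : ℝ) - V (sel (B ω))| ≤ R) ?_ hM hR hcnt ?_
  · rw [pe_sum] at h2
    have h4 : (∑ ω, if |(V ω : ℝ) - V (sel (B ω))| ≤ R then p ω else 0) +
        Pb p (fun ω => ¬ |(V ω : ℝ) - V (sel (B ω))| ≤ R) = 1 := by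
      unfold Pb
      rw [← hp.sum_one, ← Finset.sum_add_distrib]
      refine Finset.sum_congr rfl fun ω _ => ?_
      by_cases h : |(V ω : ℝ) - V (sel (B ω))| ≤ R
      · rw [if_pos h, if_neg (not_not.2 h), add_zero]
      · rw [if_neg h, if_pos h, zero_add]
    linarith
  · intro ω _ h
    exact not_not.1 h

/-- **A floor of a number which is known** up to `2 ^ k`. -/
theorem few_x (hp : IsLaw p) (x : Ω → ℝ) (W : Ω → γ) (k : ℕ)
    (h : ∀ ω ω', 0 < p ω → 0 < p ω' → W ω = W ω' → |x ω - x ω'| ≤ 2 ^ k) :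
    CH p (fun ω => ⌊x ω⌋) W ≤ ((k : ℝ) + 3) * Real.log 2 := by
  have h1 := CH_few hp (fun ω => ⌊x ω⌋) W (L := 2 ^ k + 1) (fun ω ω' a b e => fl_dist (h ω ω' a b e))
  refine h1.trans ?_
  have h2 : (1 : ℝ) ≤ 2 ^ k := one_le_pow₀ (by norm_num)
  have h3 : 2 * ((2 : ℝ) ^ k + 1) + 1 ≤ 2 ^ (k + 3) := by
    rw [pow_add]
    norm_num
    linarith
  have h4 := Real.log_le_log (by positivity) h3
  rw [Real.log_pow] at h4
  push_cast at h4
  exact h4

/-- **Few bits on a part.** -/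
theorem ch_part (hp : IsLaw p) (X : Ω → β) (W : Ω → γ) (G : Ω → Prop) (hG : 0 < Pe p G) :
    CH (cond p G True) X W ≤ CH p X W / Pe p G := by
  have h1 := Pool.RPL.CH_ev_le hp.nonneg X W G
  rw [le_div_iff₀ hG, mul_comm]
  exact h1

end law

end Pool.ONE72
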