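import Pool.Agent.H72.ONE1.Lbd

/-!
# The records of the three windows

`RcD`: closed records of the second and of the third window over which the own heights at the first
window are affine in the active coordinate. `rcd_ex`: they exist on a large sub-event.
-/

set_option autoImplicit false

namespace Pool.ONE72

open Finset Real
open Pool.Agent.H49.Ent Pool.Agent.H32.Dense Pool.STK Pool.KA Pool.KSAT Pool.K2S Pool.PB Pool.GEN
open Pool.S6C Pool.LA91 Pool.RCD Pool.OWN72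

variable {m J : ℕ} {F : Fam m J} {A : F.Ω → Prop} {y u v t : Fin m} {f κu κv : PtT F → ℝ}

/-- The heights of the three coordinates at the exact point. -/
noncomputable def hp3 (F : Fam m J) (u v t : Fin m) (f κu κv : PtT F → ℝ) (j : Fin 3)
    (x : PtT F) : ℝ :=
  if j = 0 then (x.1 u : ℝ) / 2 ^ J
  else if j = 1 then (x.1 v : ℝ) / 2 ^ J - f x * ((x.1 u : ℝ) / 2 ^ J)
  else (x.1 t : ℝ) / 2 ^ J - κu x * ((x.1 u : ℝ) / 2 ^ J) - κv x * ((x.1 v : ℝ) / 2 ^ J)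

theorem h3v_lin {w : ℕ} (cf : Cl1 F A w f) (cu : Cl1 F A w κu) (cv : Cl1 F A w κv) (j : Fin 3) :
    Lin F A w (h3v F u v t f κu κv j) (g3v F u v t f κu κv j) := by
  fin_cases j
  · exact lin_x u
  · exact (lin_x v).sub' ((lin_x u).mul (cn_cl1 cf))
  · exact ((lin_x t).sub' ((lin_x u).mul (cn_cl1 cu))).sub' ((lin_x v).mul (cn_cl1 cv))

/-- The heights are near those at the exact point. -/
theorem h3v_ap {ω : F.Ω} {se s2 : ℕ} (sf : |f (ptr F J ω)| ≤ 2 ^ se)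
    (su : |κu (ptr F J ω)| ≤ 2 ^ s2) (sv : |κv (ptr F J ω)| ≤ 2 ^ s2) (j : Fin 3) {n : ℕ}
    (h0 : j = 0 → n ≤ J) (h1 : j = 1 → n + se ≤ J) (h2 : j = 2 → n + s2 ≤ J) :
    |h3v F u v t f κu κv j ω - hp3 F u v t f κu κv j (ptr F J ω)| * 2 ^ n ≤ 3 := by
  have hJ : (0 : ℝ) < 2 ^ J := by positivity
  have hn : (0 : ℝ) < 2 ^ n := by positivity
  have ku := x_XJ F ω u
  have kv := x_XJ F ω v
  have kt := x_XJ F ω t
  have hpow : ∀ {a : ℕ}, n + a ≤ J → (1 : ℝ) / 2 ^ J * 2 ^ a * 2 ^ n ≤ 1 := by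
    intro a ha
    have e1 : (1 : ℝ) / 2 ^ J * 2 ^ a * 2 ^ n = 2 ^ (n + a) / 2 ^ J := by
      rw [pow_add]
      ring
    rw [e1, div_le_one hJ]
    exact pow_le_pow_right₀ (by norm_num) ha
  have hmul : ∀ {k x : ℝ} {a : ℕ}, |k| ≤ 2 ^ a → |x| ≤ 1 / 2 ^ J → n + a ≤ J →
      |k * x| * 2 ^ n ≤ 1 := by
    intro k x a hk hx ha
    rw [abs_mul]
    calc |k| * |x| * 2 ^ n ≤ 2 ^ a * (1 / 2 ^ J) * 2 ^ n := by gcongr
      _ = 1 / 2 ^ J * 2 ^ a * 2 ^ n := by ring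
      _ ≤ 1 := hpow ha
  have hone : ∀ {x : ℝ}, |x| ≤ 1 / 2 ^ J → n ≤ J → |x| * 2 ^ n ≤ 1 := by
    intro x hx ha
    have h3 := hmul (k := 1) (a := 0) (by norm_num) hx (by omega)
    rwa [one_mul] at h3
  fin_cases j
  · have e1 : |h3v F u v t f κu κv 0 ω - hp3 F u v t f κu κv 0 (ptr F J ω)| =
        |F.x ω u - (F.X J ω u : ℝ) / 2 ^ J| := rfl
    have := hone ku (h0 rfl)
    show |h3v F u v t f κu κv 0 ω - hp3 F u v t f κu κv 0 (ptr F J ω)| * 2 ^ n ≤ 3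
    rw [e1]
    linarith
  · have e1 : h3v F u v t f κu κv 1 ω - hp3 F u v t f κu κv 1 (ptr F J ω) =
        (F.x ω v - (F.X J ω v : ℝ) / 2 ^ J) -
          f (ptr F J ω) * (F.x ω u - (F.X J ω u : ℝ) / 2 ^ J) := by
      show F.x ω v - f (ptr F J ω) * F.x ω u -
        ((F.X J ω v : ℝ) / 2 ^ J - f (ptr F J ω) * ((F.X J ω u : ℝ) / 2 ^ J)) = _
      ring
    have a1 := hone kv (by have := h1 rfl; omega)
    have a2 := hmul sf ku (h1 rfl)
    show |h3v F u v t f κu κv 1 ω - hp3 F u v t f κu κv 1 (ptr F J ω)| * 2 ^ n ≤ 3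
    rw [e1]
    have a3 := mul_le_mul_of_nonneg_right (abs_sub (F.x ω v - (F.X J ω v : ℝ) / 2 ^ J)
      (f (ptr F J ω) * (F.x ω u - (F.X J ω u : ℝ) / 2 ^ J))) hn.le
    linarith
  · have e1 : h3v F u v t f κu κv 2 ω - hp3 F u v t f κu κv 2 (ptr F J ω) =
        ((F.x ω t - (F.X J ω t : ℝ) / 2 ^ J) -
          κu (ptr F J ω) * (F.x ω u - (F.X J ω u : ℝ) / 2 ^ J)) -
          κv (ptr F J ω) * (F.x ω v - (F.X J ω v : ℝ) / 2 ^ J) := by
      show F.x ω t - κu (ptr F J ω) * F.x ω u - κv (ptr F J ω) * F.x ω v -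
        ((F.X J ω t : ℝ) / 2 ^ J - κu (ptr F J ω) * ((F.X J ω u : ℝ) / 2 ^ J) -
          κv (ptr F J ω) * ((F.X J ω v : ℝ) / 2 ^ J)) = _
      ring
    have a1 := hone kt (by have := h2 rfl; omega)
    have a2 := hmul su ku (h2 rfl)
    have a3 := hmul sv kv (h2 rfl)
    show |h3v F u v t f κu κv 2 ω - hp3 F u v t f κu κv 2 (ptr F J ω)| * 2 ^ n ≤ 3
    rw [e1]
    have a4 := mul_le_mul_of_nonneg_right (abs_sub ((F.x ω t - (F.X J ω t : ℝ) / 2 ^ J) -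
          κu (ptr F J ω) * (F.x ω u - (F.X J ω u : ℝ) / 2 ^ J))
      (κv (ptr F J ω) * (F.x ω v - (F.X J ω v : ℝ) / 2 ^ J))) hn.le
    have a5 := mul_le_mul_of_nonneg_right (abs_sub (F.x ω t - (F.X J ω t : ℝ) / 2 ^ J)
      (κu (ptr F J ω) * (F.x ω u - (F.X J ω u : ℝ) / 2 ^ J))) hn.le
    linarith

/-- **The records of the second and of the third window.** -/
structure RcD (F : Fam m J) (A : F.Ω → Prop) (y u v t : Fin m) (f κu κv : PtT F → ℝ)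
    (γ γc : Fin 3 → Fin 3 → PtT F → ℝ) (w : ℕ) (i : Fin 3) (L : Fin 3 → Fin 3 → ℕ)
    (se : ℕ) {V : Type} (zz : F.Ω → V) : Prop where
  cl : Cl2 (ptr F J) (slam F w) A zz
  dx : ∀ ω ω', A ω → A ω' → zz ω = zz ω' → F.X w ω y = F.X w ω' y
  dz : ∀ ω ω', A ω → A ω' → zz ω = zz ω' → F.Z ω = F.Z ω'
  dl : ∀ ω ω', A ω → A ω' → zz ω = zz ω' → ∀ j, γ 0 j (ptr F J ω) = γ 0 j (ptr F J ω') ∧
    γc 0 j (ptr F J ω) = γc 0 j (ptr F J ω') ∧ γ i j (ptr F J ω) = γ i j (ptr F J ω') ∧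
    γc i j (ptr F J ω) = γc i j (ptr F J ω')
  rp : ∀ j, Rp F A y (oh F y (h3v F u v t f κu κv j) (γ 0 j) (γc 0 j))
    (ov F y (g3v F u v t f κu κv j) (γ 0 j) (γc 0 j)) zz (w + L i j) (L i j) (L 0 j - se) 7

theorem RcD.sub {B : F.Ω → Prop} {γ γc : Fin 3 → Fin 3 → PtT F → ℝ} {w : ℕ} {i : Fin 3}
    {L : Fin 3 → Fin 3 → ℕ} {se : ℕ} {V : Type} {zz : F.Ω → V}
    (h : RcD F A y u v t f κu κv γ γc w i L se zz) (hB : Sub B A) :
    RcD F B y u v t f κu κv γ γc w i L se zz :=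
  ⟨h.cl.sub hB, fun ω ω' a b => h.dx ω ω' (hB ω a) (hB ω' b),
    fun ω ω' a b => h.dz ω ω' (hB ω a) (hB ω' b), fun ω ω' a b => h.dl ω ω' (hB ω a) (hB ω' b),
    fun j => (h.rp j).sub hB⟩

/-- **The record of a window** on a large sub-event. -/
theorem rcd_ex {γ γc : Fin 3 → Fin 3 → PtT F → ℝ} {W : Fin 3 → ℕ} {L : Fin 3 → Fin 3 → ℕ}
    {sz : Fin 3 → ℕ} {se : ℕ} (h : LbD F A y u v t f κu κv γ γc W L sz se) (i : Fin 3)
    (hW : W 0 ≤ W i) (hWJ : W i ≤ J) (hsz : ∀ j, W i + L i j + sz j ≤ J) (hse : se ≤ sz 1)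
    (hL : ∀ j, se ≤ L 0 j) :
    ∃ B : F.Ω → Prop, Sub B A ∧ Pe F.p A ≤ 17 ^ 4 * Pe F.p B ∧ ∃ (V : Type) (zz : F.Ω → V),
      RcD F B y u v t f κu κv γ γc (W i) i L se zz := by
  have hJ : (0 : ℝ) < 2 ^ J := by positivity
  have cf := h.cf.win hW hWJ
  have cu := h.cu.win hW hWJ
  have cv := h.cv.win hW hWJ
  obtain ⟨B, b1, b2, V, zz, b3, b4, b5⟩ := piece1 (F := F) (A := A) (y := y) (ι := Fin 3)
    (w₂ := W i) hWJ (h := h3v F u v t f κu κv) (g := g3v F u v t f κu κv)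
    (hp := hp3 F u v t f κu κv) (γ := γ 0) (γc := γc 0) (γ₂ := γ i) (γc₂ := γc i)
    (L₂ := L i) (Lq := fun j => L 0 j - se) (C := 3) (by norm_num)
    (fun j => h3v_lin cf cu cv j)
    (fun j ω hω => h3v_ap (h.sf ω hω) (h.su ω hω) (h.sv ω hω) j
      (fun hj => by have := hsz j; omega)
      (fun hj => by have := hsz j; rw [hj] at this ⊢; omega)
      (fun hj => by have := hsz j; rw [hj] at this ⊢; omega))
    (fun j => (h.ca 0 j).win hW hWJ) (fun j => (h.cc 0 j).win hW hWJ) (h.ca i) (h.cc i)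
    (h.rep i)
    (fun j ω hω => by
      have h1 := h.siz i j ω hω
      have h2 : (2 : ℝ) ^ sz j * 2 ^ (W i + L i j) ≤ 2 ^ J := by
        rw [← pow_add]
        exact pow_le_pow_right₀ (by norm_num) (by have := hsz j; omega)
      have h3 := mul_le_mul_of_nonneg_right h1 (by positivity : (0 : ℝ) ≤ 2 ^ (W i + L i j))
      linarith)
    (fun j ω hω => by
      have h1 := h.nat i j ω hω
      have h2 : (2 : ℝ) ^ L 0 j = 2 ^ (L 0 j - se) * 2 ^ se := by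
        rw [← pow_add]
        congr 1
        have := hL j
        omega
      rw [h2, ← mul_assoc] at h1
      have h3 : (0 : ℝ) < 2 ^ se := by positivity
      exact le_of_mul_le_mul_right (by rwa [one_mul]) h3)
    (K := 8) (by norm_num)
  refine ⟨B, b1, ?_, V, zz, ⟨b3, fun ω ω' a b e => (b4 ω ω' a b e).1,
    fun ω ω' a b e => (b4 ω ω' a b e).2.1, fun ω ω' a b e => (b4 ω ω' a b e).2.2, fun j => ?_⟩⟩
  · rw [Fintype.card_fin] at b2
    norm_num at b2 ⊢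
    exact b2
  · have := b5 j
    have e1 : (2 : ℝ) * 3 + 1 = 7 := by norm_num
    rwa [e1] at this

end Pool.ONE72
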