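import Pool.Agent.H72.ONE1.Mdf
import Pool.Agent.H72.ONE1.Evt
import Pool.Agent.H91.FR.Mxl
import Pool.Agent.H97.OC.Sel

/-!
# Closed records with own heights

`pig`: a pigeonhole. `Mcd`: a modified coordinate. `oh`: the own height. `piece1`: on a large
sub-event the own heights at a window are affine over the active coordinate with coefficients which
are functions of a closed record of a larger window.
-/

set_option autoImplicit false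

namespace Pool.ONE72

open Finset Real
open Pool.Agent.H49.Ent Pool.Agent.H32.Dense Pool.STK Pool.KA Pool.KSAT Pool.K2S Pool.PB Pool.GEN
open Pool.S6C Pool.LA91 Pool.RCD Pool.OWN72
open Pool.JVE (pe_sum)

section law

variable {Ω ι : Type} [Fintype Ω] [Fintype ι] [DecidableEq ι] {p : Ω → ℝ}

/-- **Pigeonhole** for integer functions with bounded differences. -/
theorem pig (hp : ∀ ω, 0 ≤ p ω) (A : Ω → Prop) (U V : ι → Ω → ℤ) (K : ℕ)
    (h : ∀ j ω, A ω → |U j ω - V j ω| ≤ K) :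
    ∃ k : ι → ℤ, Pe p A ≤ (2 * (K : ℝ) + 1) ^ Fintype.card ι *
      Pe p (fun ω => A ω ∧ ∀ j, U j ω = V j ω + k j) := by
  classical
  obtain ⟨T, hT⟩ : ∃ T, T = Fintype.piFinset (fun _ : ι => Finset.Icc (-(K : ℤ)) K) := ⟨_, rfl⟩
  have hcard : (T.card : ℝ) = (2 * (K : ℝ) + 1) ^ Fintype.card ι := by
    rw [hT, Fintype.card_piFinset]
    simp only [Int.card_Icc, Finset.prod_const, Finset.card_univ]
    have e1 : ((K : ℤ) + 1 - -(K : ℤ)).toNat = 2 * K + 1 := by omega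
    rw [e1]
    push_cast
    ring
  have hTn : T.Nonempty := by
    rw [hT]
    exact ⟨fun _ => 0, by
      rw [Fintype.mem_piFinset]
      intro j
      rw [Finset.mem_Icc]
      constructor <;> omega⟩
  have hc : (0 : ℝ) < T.card := by exact_mod_cast hTn.card_pos
  obtain ⟨k, -, hk⟩ := Pool.K2S.Sel.pigeon hp T A (fun k ω => A ω ∧ ∀ j, U j ω = V j ω + k j)
    (fun ω hA => ⟨fun j => U j ω - V j ω, by
      rw [hT, Fintype.mem_piFinset]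
      intro j
      rw [Finset.mem_Icc]
      exact abs_le.1 (h j ω hA), hA, fun j => by ring⟩) hTn
  refine ⟨k, ?_⟩
  rw [div_le_iff₀ hc, hcard, mul_comm] at hk
  exact hk

end law

variable {m J : ℕ} {F : Fam m J} {A B : F.Ω → Prop} {𝒵 : Type}

/-- The own height. -/
noncomputable def oh (F : Fam m J) (y : Fin m) (h : F.Ω → ℝ) (γ γc : PtT F → ℝ) (ω : F.Ω) : ℝ :=
  h ω - γc (ptr F J ω) * F.t ω - γ (ptr F J ω) * F.x ω y

theorem cn_cl1 {w : ℕ} {γ : PtT F → ℝ} (h : Cl1 F A w γ) :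
    Cn F A w (fun ω => γ (ptr F J ω)) := by
  obtain ⟨f, hf⟩ := h
  intro ω ω' a b e
  show γ (ptr F J ω) = γ (ptr F J ω')
  rw [hf ω a, hf ω' b, e]

/-- **Own heights are linear.** -/
theorem oh_lin {w : ℕ} {y : Fin m} {h g : F.Ω → ℝ} {γ γc : PtT F → ℝ} (H : Lin F A w h g)
    (h1 : Cl1 F A w γ) (h2 : Cl1 F A w γc) : Lin F A w (oh F y h γ γc) (ov F y g γ γc) := by
  have h3 := (H.sub' (lin_t.mul (cn_cl1 h2))).sub' ((lin_x y).mul (cn_cl1 h1))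
  intro ω ω' a b e
  obtain ⟨k1, k2⟩ := h3 ω ω' a b e
  unfold oh ov
  constructor
  · have : g ω - γc (ptr F J ω) * 1 - γ (ptr F J ω) * F.d ω y =
      g ω' - γc (ptr F J ω') * 1 - γ (ptr F J ω') * F.d ω' y := k1
    linarith
  · have : h ω' - γc (ptr F J ω') * F.t ω' - γ (ptr F J ω') * F.x ω' y -
      (h ω - γc (ptr F J ω) * F.t ω - γ (ptr F J ω) * F.x ω y) =
      (F.t ω' - F.t ω) * (g ω - γc (ptr F J ω) * 1 - γ (ptr F J ω) * F.d ω y) := k2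
    rw [this]
    ring

/-- **A modified coordinate**: the height, the velocity, the height at the exact point. -/
structure Mcd (F : Fam m J) (A : F.Ω → Prop) (w : ℕ) (h g : F.Ω → ℝ) (hp : PtT F → ℝ) (n : ℕ)
    (C : ℝ) : Prop where
  lin : Lin F A w h g
  app : ∀ ω, A ω → |h ω - hp (ptr F J ω)| * 2 ^ n ≤ C

theorem Rp.sub {y : Fin m} {h g : F.Ω → ℝ} {z : F.Ω → 𝒵} {ℓ L Lq : ℕ} {C : ℝ}
    (H : Rp F A y h g z ℓ L Lq C) (hB : Sub B A) : Rp F B y h g z ℓ L Lq C := by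
  obtain ⟨a, q, c, e1, e2, e3, e4⟩ := H.ex
  exact ⟨a, q, c, fun ω ω' x x' => e1 ω ω' (hB ω x) (hB ω' x'), fun ω x => e2 ω (hB ω x),
    fun ω x => e3 ω (hB ω x), fun ω x => e4 ω (hB ω x)⟩

theorem Rp.det {𝒱 : Type} {y : Fin m} {h g : F.Ω → ℝ} {z : F.Ω → 𝒵} {z' : F.Ω → 𝒱} {ℓ L Lq : ℕ}
    {C : ℝ} (H : Rp F A y h g z ℓ L Lq C)
    (hz : ∀ ω ω', A ω → A ω' → z' ω = z' ω' → z ω = z ω') : Rp F A y h g z' ℓ L Lq C := by
  obtain ⟨a, q, c, e1, e2, e3, e4⟩ := H.ex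
  exact ⟨a, q, c, fun ω ω' x x' e => e1 ω ω' x x' (hz ω ω' x x' e), e2, e3, e4⟩

/-- The digits of a height near a value at the exact point. -/
theorem fl_ap {x x' C : ℝ} {K : ℕ} (h : |x - x'| ≤ C) (hK : C + 1 ≤ K) : |⌊x⌋ - ⌊x'⌋| ≤ (K : ℤ) := by
  have h1 := fl_dist h
  have h2 : ((|⌊x⌋ - ⌊x'⌋| : ℤ) : ℝ) ≤ ((K : ℤ) : ℝ) := by
    push_cast
    push_cast at h1
    linarith
  exact_mod_cast h2

theorem fam_ne (F : Fam m J) : Nonempty F.Ω := by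
  by_contra hcon
  rw [not_nonempty_iff] at hcon
  have h2 := F.isLaw.sum_one
  rw [Finset.univ_eq_empty, Finset.sum_empty] at h2
  exact zero_ne_one h2

/-- Closed records from the determination. -/
theorem cl2_det {Ω α β V : Type} [Nonempty Ω] {f : Ω → α} {g : Ω → β} {A : Ω → Prop} {z : Ω → V}
    (h1 : ∀ ω ω', A ω → A ω' → f ω = f ω' → z ω = z ω')
    (h2 : ∀ ω ω', A ω → A ω' → g ω = g ω' → z ω = z ω') : Cl2 f g A z := by
  classical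
  obtain ⟨ω₀⟩ := ‹Nonempty Ω›
  refine ⟨⟨fun a => if h : ∃ ω, A ω ∧ f ω = a then z h.choose else z ω₀, fun ω hω => ?_⟩,
    fun a => if h : ∃ ω, A ω ∧ g ω = a then z h.choose else z ω₀, fun ω hω => ?_⟩
  · have h : ∃ ω', A ω' ∧ f ω' = f ω := ⟨ω, hω, rfl⟩
    show z ω = if h : ∃ ω', A ω' ∧ f ω' = f ω then z h.choose else z ω₀
    rw [dif_pos h]
    exact h1 _ _ hω h.choose_spec.1 h.choose_spec.2.symm
  · have h : ∃ ω', A ω' ∧ g ω' = g ω := ⟨ω, hω, rfl⟩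
    show z ω = if h : ∃ ω', A ω' ∧ g ω' = g ω then z h.choose else z ω₀
    rw [dif_pos h]
    exact h2 _ _ hω h.choose_spec.1 h.choose_spec.2.symm

/-- The start of the path is near the height. -/
theorem aq_near {w N : ℕ} (hw : w ≤ J) {h g : F.Ω → ℝ} {ω : F.Ω} {C : ℝ}
    (hg : |g ω| * 2 ^ N ≤ C) : |(2 : ℝ) ^ (w + N) * h ω - aq F w N h g ω| ≤ C := by
  obtain ⟨t1, t2⟩ := t_T1 F hw ω
  obtain ⟨s, hs⟩ : ∃ s, s = F.t ω - (F.T1 w ω : ℝ) / 2 ^ w := ⟨_, rfl⟩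
  have hs0 : 0 ≤ s := by rw [hs]; linarith
  have hs1 : s ≤ 1 / 2 ^ w := by rw [hs]; linarith
  have e1 : (2 : ℝ) ^ (w + N) * h ω - aq F w N h g ω = 2 ^ (w + N) * s * g ω := by
    unfold aq
    rw [← hs]
    ring
  rw [e1, abs_mul, abs_mul, abs_of_pos (by positivity : (0 : ℝ) < 2 ^ (w + N)), abs_of_nonneg hs0]
  calc (2 : ℝ) ^ (w + N) * s * |g ω| ≤ 2 ^ (w + N) * (1 / 2 ^ w) * |g ω| := by gcongr
    _ = |g ω| * 2 ^ N := by
        rw [pow_add]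
        field_simp
    _ ≤ C := hg

/-- The position and its digits. -/
theorem x_XJ (F : Fam m J) (ω : F.Ω) (k : Fin m) :
    |F.x ω k - (F.X J ω k : ℝ) / 2 ^ J| ≤ 1 / 2 ^ J := by
  rw [X_eq]
  have h1 := Int.floor_le ((2 : ℝ) ^ J * F.x ω k)
  have h2 := Int.lt_floor_add_one ((2 : ℝ) ^ J * F.x ω k)
  have hJ : (0 : ℝ) < 2 ^ J := by positivity
  have e1 : F.x ω k - (⌊(2 : ℝ) ^ J * F.x ω k⌋ : ℝ) / 2 ^ J =
      (2 ^ J * F.x ω k - ⌊(2 : ℝ) ^ J * F.x ω k⌋) / 2 ^ J := by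
    field_simp
  rw [e1, abs_div, abs_of_pos hJ, abs_of_nonneg (by linarith)]
  exact div_le_div_of_nonneg_right (by linarith) hJ.le

/-- The height at the exact point. -/
noncomputable def ohp (F : Fam m J) (y : Fin m) (hp γ γc : PtT F → ℝ) (x : PtT F) : ℝ :=
  hp x - γc x * ((x.2.1 : ℝ) / 2 ^ J) - γ x * ((x.1 y : ℝ) / 2 ^ J)

theorem oh_ap {y : Fin m} {h : F.Ω → ℝ} {hp γ γc : PtT F → ℝ} {N : ℕ} {C : ℝ} {ω : F.Ω}
    (app : |h ω - hp (ptr F J ω)| * 2 ^ N ≤ C)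
    (siz : |γ (ptr F J ω)| * 2 ^ N ≤ C * 2 ^ J) :
    |(2 : ℝ) ^ N * oh F y h γ γc ω - 2 ^ N * ohp F y hp γ γc (ptr F J ω)| ≤ 2 * C := by
  have hN : (0 : ℝ) < 2 ^ N := by positivity
  have hJ : (0 : ℝ) < 2 ^ J := by positivity
  have e0 : ((ptr F J ω).2.1 : ℝ) / 2 ^ J = F.t ω := rfl
  have e1 : ((ptr F J ω).1 y : ℝ) = F.X J ω y := rfl
  have e2 : (2 : ℝ) ^ N * oh F y h γ γc ω - 2 ^ N * ohp F y hp γ γc (ptr F J ω) =
      2 ^ N * ((h ω - hp (ptr F J ω)) -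
        γ (ptr F J ω) * (F.x ω y - (F.X J ω y : ℝ) / 2 ^ J)) := by
    unfold oh ohp
    rw [e0, e1]
    ring
  rw [e2, abs_mul, abs_of_pos hN]
  have h1 := abs_sub (h ω - hp (ptr F J ω)) (γ (ptr F J ω) * (F.x ω y - (F.X J ω y : ℝ) / 2 ^ J))
  have h2 : 2 ^ N * |γ (ptr F J ω) * (F.x ω y - (F.X J ω y : ℝ) / 2 ^ J)| ≤ C := by
    rw [abs_mul]
    calc (2 : ℝ) ^ N * (|γ (ptr F J ω)| * |F.x ω y - (F.X J ω y : ℝ) / 2 ^ J|) ≤
        2 ^ N * (|γ (ptr F J ω)| * (1 / 2 ^ J)) := by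
          have := x_XJ F ω y
          gcongr
      _ = |γ (ptr F J ω)| * 2 ^ N / 2 ^ J := by ring
      _ ≤ C := by
          rw [div_le_iff₀ hJ]
          exact siz
  calc (2 : ℝ) ^ N * |h ω - hp (ptr F J ω) -
        γ (ptr F J ω) * (F.x ω y - (F.X J ω y : ℝ) / 2 ^ J)| ≤
      2 ^ N * (|h ω - hp (ptr F J ω)| +
        |γ (ptr F J ω) * (F.x ω y - (F.X J ω y : ℝ) / 2 ^ J)|) :=
        mul_le_mul_of_nonneg_left h1 hN.le
    _ = |h ω - hp (ptr F J ω)| * 2 ^ N +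
        2 ^ N * |γ (ptr F J ω) * (F.x ω y - (F.X J ω y : ℝ) / 2 ^ J)| := by ring
    _ ≤ 2 * C := by linarith

/-- **The piece**: own heights are affine over the active coordinate with coefficients which are
functions of a closed record of the window `w₂`, on a large sub-event. -/
theorem piece1 {ι : Type} [Fintype ι] [DecidableEq ι] {y : Fin m} {w₂ : ℕ} (hw₂ : w₂ ≤ J)
    {h g : ι → F.Ω → ℝ} {hp γ γc γ₂ γc₂ : ι → PtT F → ℝ} {L₂ Lq : ι → ℕ}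
    {C : ℝ} (hC : 0 ≤ C) (lin : ∀ j, Lin F A w₂ (h j) (g j))
    (app : ∀ j ω, A ω → |h j ω - hp j (ptr F J ω)| * 2 ^ (w₂ + L₂ j) ≤ C)
    (c1 : ∀ j, Cl1 F A w₂ (γ j)) (c1' : ∀ j, Cl1 F A w₂ (γc j))
    (c2 : ∀ j, Cl1 F A w₂ (γ₂ j)) (c2' : ∀ j, Cl1 F A w₂ (γc₂ j))
    (rep : ∀ j ω, A ω → |ov F y (g j) (γ₂ j) (γc₂ j) ω| * 2 ^ L₂ j ≤ 1)
    (siz : ∀ j ω, A ω → |γ₂ j (ptr F J ω)| * 2 ^ (w₂ + L₂ j) ≤ C * 2 ^ J)
    (nat : ∀ j ω, A ω → |γ₂ j (ptr F J ω) - γ j (ptr F J ω)| * 2 ^ Lq j ≤ 1)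
    {K : ℕ} (hK : 2 * C + 2 ≤ K) :
    ∃ B : F.Ω → Prop, Sub B A ∧
      Pe F.p A ≤ (2 * (K : ℝ) + 1) ^ (Fintype.card ι + 1) * Pe F.p B ∧
      ∃ (V : Type) (zz : F.Ω → V), Cl2 (ptr F J) (slam F w₂) B zz ∧
        (∀ ω ω', B ω → B ω' → zz ω = zz ω' → F.X w₂ ω y = F.X w₂ ω' y ∧ F.Z ω = F.Z ω' ∧
          ∀ j, γ j (ptr F J ω) = γ j (ptr F J ω') ∧ γc j (ptr F J ω) = γc j (ptr F J ω') ∧
            γ₂ j (ptr F J ω) = γ₂ j (ptr F J ω') ∧ γc₂ j (ptr F J ω) = γc₂ j (ptr F J ω')) ∧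
        ∀ j, Rp F B y (oh F y (h j) (γ j) (γc j)) (ov F y (g j) (γ j) (γc j)) zz (w₂ + L₂ j)
          (L₂ j) (Lq j) (2 * C + 1) := by
  have := fam_ne F
  have hpp := F.isLaw.nonneg
  obtain ⟨U, hU⟩ : ∃ U : Option ι → F.Ω → ℤ, U = fun o ω => match o with
    | none => F.X w₂ ω y
    | some j => ⌊(2 : ℝ) ^ (w₂ + L₂ j) * ohp F y (hp j) (γ₂ j) (γc₂ j) (ptr F J ω)⌋ := ⟨_, rfl⟩
  obtain ⟨V, hV⟩ : ∃ V : Option ι → F.Ω → ℤ, V = fun o ω => match o with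
    | none => ⌊aq F w₂ 0 (fun ω => F.x ω y) (fun ω => F.d ω y) ω⌋
    | some j => ⌊aq F w₂ (L₂ j) (oh F y (h j) (γ₂ j) (γc₂ j))
        (ov F y (g j) (γ₂ j) (γc₂ j)) ω⌋ := ⟨_, rfl⟩
  have hn : ∀ ω, U none ω = F.X w₂ ω y := fun ω => by rw [hU]
  have hs : ∀ j ω, U (some j) ω =
      ⌊(2 : ℝ) ^ (w₂ + L₂ j) * ohp F y (hp j) (γ₂ j) (γc₂ j) (ptr F J ω)⌋ := fun j ω => by rw [hU]
  have hn' : ∀ ω, V none ω = ⌊aq F w₂ 0 (fun ω => F.x ω y) (fun ω => F.d ω y) ω⌋ := fun ω => by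
    rw [hV]
  have hs' : ∀ j ω, V (some j) ω = ⌊aq F w₂ (L₂ j) (oh F y (h j) (γ₂ j) (γc₂ j))
        (ov F y (g j) (γ₂ j) (γc₂ j)) ω⌋ := fun j ω => by rw [hV]
  obtain ⟨k, hk⟩ := pig hpp A U V K (by
    intro o ω hω
    cases o with
    | none =>
      rw [hn, hn', X_eq]
      have h1 := aq_near (N := 0) hw₂ (h := fun ω => F.x ω y) (g := fun ω => F.d ω y) (ω := ω)
        (C := 1) (by rw [pow_zero, mul_one]; exact F.dir ω y)
      rw [add_zero] at h1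
      exact fl_ap h1 (by linarith)
    | some j =>
      rw [hs, hs']
      have h1 := aq_near (N := L₂ j) hw₂ (h := oh F y (h j) (γ₂ j) (γc₂ j))
        (g := ov F y (g j) (γ₂ j) (γc₂ j)) (ω := ω) (rep j ω hω)
      have h2 := oh_ap (y := y) (h := h j) (hp := hp j) (γ := γ₂ j) (γc := γc₂ j) (app j ω hω)
        (siz j ω hω)
      refine fl_ap (C := 2 * C + 1) ?_ (by linarith)
      have e1 : (2 : ℝ) ^ (w₂ + L₂ j) * ohp F y (hp j) (γ₂ j) (γc₂ j) (ptr F J ω) -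
          aq F w₂ (L₂ j) (oh F y (h j) (γ₂ j) (γc₂ j)) (ov F y (g j) (γ₂ j) (γc₂ j)) ω =
          -(2 ^ (w₂ + L₂ j) * oh F y (h j) (γ₂ j) (γc₂ j) ω -
            2 ^ (w₂ + L₂ j) * ohp F y (hp j) (γ₂ j) (γc₂ j) (ptr F J ω)) +
          (2 ^ (w₂ + L₂ j) * oh F y (h j) (γ₂ j) (γc₂ j) ω -
            aq F w₂ (L₂ j) (oh F y (h j) (γ₂ j) (γc₂ j)) (ov F y (g j) (γ₂ j) (γc₂ j)) ω) := by
        ring
      rw [e1]
      refine (abs_add_le _ _).trans ?_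
      rw [abs_neg]
      linarith)
  rw [Fintype.card_option] at hk
  obtain ⟨B, hB⟩ : ∃ B : F.Ω → Prop, B = fun ω => A ω ∧ ∀ o, U o ω = V o ω + k o := ⟨_, rfl⟩
  rw [← hB] at hk
  have hBA : Sub B A := fun ω hω => by
    rw [hB] at hω
    exact hω.1
  have hBU : ∀ ω, B ω → ∀ o, U o ω = V o ω + k o := fun ω hω => by
    rw [hB] at hω
    exact hω.2
  obtain ⟨zz, hzz⟩ : ∃ zz : F.Ω → (ι → ((ℝ × ℝ) × (ℝ × ℝ))) × (F.ζ × (Option ι → ℤ)),
    zz = fun ω => (fun j => ((γ j (ptr F J ω), γc j (ptr F J ω)),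
      (γ₂ j (ptr F J ω), γc₂ j (ptr F J ω))), (F.Z ω, fun o => U o ω)) := ⟨_, rfl⟩
  have hze : ∀ ω ω', zz ω = zz ω' → (∀ j, γ j (ptr F J ω) = γ j (ptr F J ω') ∧
      γc j (ptr F J ω) = γc j (ptr F J ω') ∧ γ₂ j (ptr F J ω) = γ₂ j (ptr F J ω') ∧
      γc₂ j (ptr F J ω) = γc₂ j (ptr F J ω')) ∧ F.Z ω = F.Z ω' ∧ ∀ o, U o ω = U o ω' := by
    intro ω ω' e
    rw [hzz] at e
    obtain ⟨e1, e2⟩ := Prod.mk.inj e
    obtain ⟨e3, e4⟩ := Prod.mk.inj e2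
    refine ⟨fun j => ?_, e3, fun o => congrFun e4 o⟩
    have e5 := congrFun e1 j
    simp only [Prod.mk.injEq] at e5
    obtain ⟨⟨f1, f2⟩, f3, f4⟩ := e5
    exact ⟨f1, f2, f3, f4⟩
  refine ⟨B, hBA, hk, _, zz, ?_, ?_, ?_⟩
  · refine cl2_det (fun ω ω' hω hω' e => ?_) fun ω ω' hω hω' e => ?_
    · have e2 : F.Z ω = F.Z ω' := congrArg (fun x => x.2.2) e
      have e3 : ∀ o, U o ω = U o ω' := by
        intro o
        cases o with
        | none =>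
          rw [hn, hn]
          have e4 : F.X J ω y = F.X J ω' y := congrArg (fun x => x.1 y) e
          rw [X_eq, X_eq] at e4 ⊢
          exact Pool.MM97.fl_coarse hw₂ e4
        | some j =>
          rw [hs, hs, e]
      rw [hzz]
      show ((fun j => ((γ j (ptr F J ω), γc j (ptr F J ω)),
        (γ₂ j (ptr F J ω), γc₂ j (ptr F J ω)))), (F.Z ω, fun o => U o ω)) =
        ((fun j => ((γ j (ptr F J ω'), γc j (ptr F J ω')),
        (γ₂ j (ptr F J ω'), γc₂ j (ptr F J ω')))), (F.Z ω', fun o => U o ω'))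
      rw [e, e2]
      exact Prod.ext rfl (Prod.ext rfl (funext fun o => e3 o))
    · obtain ⟨-, -, e2, -⟩ := slam_eq e
      have e3 : ∀ o, U o ω = U o ω' := by
        intro o
        rw [hBU ω hω o, hBU ω' hω' o]
        congr 1
        cases o with
        | none =>
          rw [hn', hn']
          have := aq_det (p := fun _ => (1 : ℝ)) (A := fun _ : F.Ω => True) (N := 0)
            (fun _ _ => trivial) (lin_x (F := F) (A := fun _ => True) (w := w₂) y) ω ω' one_pos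
            one_pos e
          rw [this]
        | some j =>
          rw [hs', hs']
          have hl := oh_lin (y := y) (lin j) (c2 j) (c2' j)
          obtain ⟨k1, k2⟩ := hl ω ω' (hBA ω hω) (hBA ω' hω') e
          obtain ⟨-, -, -, k4⟩ := slam_eq e
          have : aq F w₂ (L₂ j) (oh F y (h j) (γ₂ j) (γc₂ j)) (ov F y (g j) (γ₂ j) (γc₂ j)) ω =
              aq F w₂ (L₂ j) (oh F y (h j) (γ₂ j) (γc₂ j)) (ov F y (g j) (γ₂ j) (γc₂ j)) ω' := by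
            unfold aq
            rw [← k1, ← k4]
            congr 1
            linarith
          rw [this]
      have e4 : ∀ j, γ j (ptr F J ω) = γ j (ptr F J ω') := fun j =>
        cn_cl1 (c1 j) ω ω' (hBA ω hω) (hBA ω' hω') e
      have e5 : ∀ j, γc j (ptr F J ω) = γc j (ptr F J ω') := fun j =>
        cn_cl1 (c1' j) ω ω' (hBA ω hω) (hBA ω' hω') e
      have e6 : ∀ j, γ₂ j (ptr F J ω) = γ₂ j (ptr F J ω') := fun j =>
        cn_cl1 (c2 j) ω ω' (hBA ω hω) (hBA ω' hω') e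
      have e7 : ∀ j, γc₂ j (ptr F J ω) = γc₂ j (ptr F J ω') := fun j =>
        cn_cl1 (c2' j) ω ω' (hBA ω hω) (hBA ω' hω') e
      rw [hzz]
      exact Prod.ext (funext fun j => Prod.ext (Prod.ext (e4 j) (e5 j))
        (Prod.ext (e6 j) (e7 j))) (Prod.ext e2 (funext fun o => e3 o))
  · intro ω ω' hω hω' e
    obtain ⟨e1, e2, e3⟩ := hze ω ω' e
    refine ⟨?_, e2, e1⟩
    have := e3 none
    rwa [hn, hn] at this
  · intro j
    refine ⟨fun ω => γc₂ j (ptr F J ω) - γc j (ptr F J ω), fun ω => γ₂ j (ptr F J ω) -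
      γ j (ptr F J ω), fun ω => (U (some j) ω : ℝ) / 2 ^ (w₂ + L₂ j), ?_, ?_, ?_, ?_⟩
    · intro ω ω' hω hω' e
      obtain ⟨e1, e2, e3⟩ := hze ω ω' e
      obtain ⟨f1, f2, f3, f4⟩ := e1 j
      refine ⟨?_, ?_, ?_⟩
      · show γc₂ j (ptr F J ω) - γc j (ptr F J ω) = γc₂ j (ptr F J ω') - γc j (ptr F J ω')
        rw [f2, f4]
      · show γ₂ j (ptr F J ω) - γ j (ptr F J ω) = γ₂ j (ptr F J ω') - γ j (ptr F J ω')
        rw [f1, f3]
      · show (U (some j) ω : ℝ) / 2 ^ (w₂ + L₂ j) = (U (some j) ω' : ℝ) / 2 ^ (w₂ + L₂ j)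
        rw [e3]
    · intro ω hω
      have e1 : ov F y (g j) (γ j) (γc j) ω - (γc₂ j (ptr F J ω) - γc j (ptr F J ω)) -
          (γ₂ j (ptr F J ω) - γ j (ptr F J ω)) * F.d ω y = ov F y (g j) (γ₂ j) (γc₂ j) ω := by
        unfold ov
        ring
      show |ov F y (g j) (γ j) (γc j) ω - (γc₂ j (ptr F J ω) - γc j (ptr F J ω)) -
          (γ₂ j (ptr F J ω) - γ j (ptr F J ω)) * F.d ω y| * 2 ^ L₂ j ≤ 2 * C + 1
      rw [e1]
      have := rep j ω (hBA ω hω)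
      linarith
    · intro ω hω
      have hN : (0 : ℝ) < 2 ^ (w₂ + L₂ j) := by positivity
      have e1 : oh F y (h j) (γ j) (γc j) ω - (U (some j) ω : ℝ) / 2 ^ (w₂ + L₂ j) -
          (γ₂ j (ptr F J ω) - γ j (ptr F J ω)) * F.x ω y -
          (γc₂ j (ptr F J ω) - γc j (ptr F J ω)) * F.t ω =
          (2 ^ (w₂ + L₂ j) * oh F y (h j) (γ₂ j) (γc₂ j) ω - U (some j) ω) /
            2 ^ (w₂ + L₂ j) := by
        unfold oh
        field_simp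
        ring
      show |oh F y (h j) (γ j) (γc j) ω - (U (some j) ω : ℝ) / 2 ^ (w₂ + L₂ j) -
          (γ₂ j (ptr F J ω) - γ j (ptr F J ω)) * F.x ω y -
          (γc₂ j (ptr F J ω) - γc j (ptr F J ω)) * F.t ω| * 2 ^ (w₂ + L₂ j) ≤ 2 * C + 1
      rw [e1, abs_div, abs_of_pos hN, div_mul_cancel₀ _ hN.ne', hs]
      have h2 := oh_ap (y := y) (h := h j) (hp := hp j) (γ := γ₂ j) (γc := γc₂ j)
        (app j ω (hBA ω hω)) (siz j ω (hBA ω hω))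
      have f1 := Int.floor_le ((2 : ℝ) ^ (w₂ + L₂ j) * ohp F y (hp j) (γ₂ j) (γc₂ j) (ptr F J ω))
      have f2 := Int.lt_floor_add_one
        ((2 : ℝ) ^ (w₂ + L₂ j) * ohp F y (hp j) (γ₂ j) (γc₂ j) (ptr F J ω))
      have h3 := abs_le.1 h2
      rw [abs_le]
      constructor <;> linarith
    · intro ω hω
      exact nat j ω (hBA ω hω)

end Pool.ONE72
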