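import Pool.Agent.H97.GAIN.RVoid
import Pool.Agent.H27.TOP.Lbt

/-!
# Nearly closed gradients above the threshold of the target

`nlb_tgs`: in a class with the threshold `P` of the coordinate `k` there are no gradients at the
exact points which are nearly functions of the line and of the window, of precision more than the
threshold, on large events.
-/

set_option autoImplicit false

namespace Pool.ONE72

open Finset Real
open Pool.Agent.H49.Ent Pool.Agent.H32.Dense Pool.STK Pool.KA Pool.KSAT Pool.K2S Pool.PB Pool.GEN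
open Pool.S6C Pool.LA91 Pool.RCD Pool.OWN72
open Pool.JVE (DpI lab_grd cI cI_pos)
open Pool.MIC6 (res_of)
open Pool.LBT (ThrOf)
open Pool.ONE (tgs)
open Pool.TOP (tch_of_cls)

variable {m : ℕ}

/-- **No nearly closed gradients above the threshold.** -/
theorem nlb_tgs {S : PCl m} {k : Fin m} {P : ℝ → ℝ → ℝ}
    (hT : ThrOf (tgs k) S (fun _ => P)) {I : Finset (Fin m)} (hkI : k ∉ I)
    {W a' M e κ₀ : ℝ} (hW : 0 < W) (hWa : W < a') (ha' : a' ≤ 1) (hM : P a' a' < W + M)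
    (he : 0 ≤ e) (h1 : W + M + e < 1) (hκ₀ : 0 < κ₀) :
    Bas S (fun J F A => ∀ (B : F.Ω → Prop) (av : PtT F → Fin m → ℝ) (cv : PtT F → ℝ)
      (th : LnT F → Fin m → ℝ), Sub B A → κ₀ * Pe F.p A ≤ Pe F.p B →
      DpI F B I k ⌊e * J⌋₊ ⌊M * J⌋₊ av cv →
      (∀ ω, B ω → ∀ j ∈ I, |th (slam F ⌊W * J⌋₊ ω) j - av (ptr F J ω) j| ≤ 1 / 2 ^ ⌊M * J⌋₊) →
      False) := by
  classical
  have hlow := hT.low () a' a' (hW.le.trans hWa.le) le_rfl ha'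
  have hM0 : 0 < M := by linarith
  obtain ⟨Q', hQ'⟩ : ∃ Q', Q' = (P a' a' + (W + M)) / 2 := ⟨_, rfl⟩
  have q1 : P a' a' < Q' := by rw [hQ']; linarith
  have q2 : Q' < W + M := by rw [hQ']; linarith
  have q3 : Q' ≤ 1 := by linarith
  have hno := hT.no' () 1 hW.le le_rfl hWa hWa le_rfl ha' (h := Q' - P a' a') (by linarith)
    (by linarith)
  have e2 : P a' a' + (Q' - P a' a') = Q' := by ring
  obtain ⟨τ₁, hτ₁, J₁, hb⟩ := hno
  have hc := cI_pos m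
  obtain ⟨C, hC⟩ : ∃ C : ℝ, C = cI m / κ₀ := ⟨_, rfl⟩
  have hC0 : 0 < C := by rw [hC]; positivity
  obtain ⟨J₂, hJ₂⟩ := exists_nat_ge (Real.log C / (τ₁ / 2))
  obtain ⟨J₃, hJ₃⟩ := exists_nat_ge (((m : ℝ) + 5) / (1 - (W + M + e)))
  obtain ⟨J₄, hJ₄⟩ := exists_nat_ge (((m : ℝ) + 5) / (W + M - Q'))
  obtain ⟨J₅, hJ₅⟩ := exists_nat_ge (1 / W)
  refine ⟨τ₁ / 2, by linarith, J₁ + J₂ + J₃ + J₄ + J₅, ?_⟩
  intro J hJ F A hA B av cv th hBA hPB hdp hth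
  have jr : ((J₁ + J₂ + J₃ + J₄ + J₅ : ℕ) : ℝ) ≤ J := by exact_mod_cast hJ
  push_cast at jr
  have n1 : (0 : ℝ) ≤ J₁ := Nat.cast_nonneg _
  have n2 : (0 : ℝ) ≤ J₂ := Nat.cast_nonneg _
  have n3 : (0 : ℝ) ≤ J₃ := Nat.cast_nonneg _
  have n4 : (0 : ℝ) ≤ J₄ := Nat.cast_nonneg _
  have n5 : (0 : ℝ) ≤ J₅ := Nat.cast_nonneg _
  have hJ0 : (0 : ℝ) ≤ J := Nat.cast_nonneg J
  have k2 : Real.log C ≤ τ₁ / 2 * J := by
    have h1 : Real.log C / (τ₁ / 2) ≤ (J : ℝ) := by linarith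
    rw [div_le_iff₀ (by linarith)] at h1
    linarith
  have k3 : (m : ℝ) + 5 ≤ (1 - (W + M + e)) * J := by
    have h1 : ((m : ℝ) + 5) / (1 - (W + M + e)) ≤ (J : ℝ) := by linarith
    rw [div_le_iff₀ (by linarith)] at h1
    linarith
  have k4 : (m : ℝ) + 5 ≤ (W + M - Q') * J := by
    have h1 : ((m : ℝ) + 5) / (W + M - Q') ≤ (J : ℝ) := by linarith
    rw [div_le_iff₀ (by linarith)] at h1
    linarith
  have k5 : 1 ≤ W * J := by
    have h1 : 1 / W ≤ (J : ℝ) := by linarith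
    rw [div_le_iff₀ hW] at h1
    linarith
  have f1 : (⌊W * (J : ℝ)⌋₊ : ℝ) ≤ W * J := Nat.floor_le (by positivity)
  have f2 : (⌊M * (J : ℝ)⌋₊ : ℝ) ≤ M * J := Nat.floor_le (by positivity)
  have f3 : (⌊e * (J : ℝ)⌋₊ : ℝ) ≤ e * J := Nat.floor_le (by positivity)
  have f4 : W * (J : ℝ) - 1 < ⌊W * (J : ℝ)⌋₊ := Nat.sub_one_lt_floor _
  have f5 : M * (J : ℝ) - 1 < ⌊M * (J : ℝ)⌋₊ := Nat.sub_one_lt_floor _
  have hQ0 : 0 ≤ Q' := by linarith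
  have f6 : (⌊Q' * (J : ℝ)⌋₊ : ℝ) ≤ Q' * J := Nat.floor_le (by positivity)
  have hWJ : ⌊W * (J : ℝ)⌋₊ ≤ J := by
    refine Nat.floor_le_of_le ?_
    calc W * J ≤ 1 * J := mul_le_mul_of_nonneg_right (by linarith) hJ0
      _ = J := one_mul _
  have g4 : ⌊W * (J : ℝ)⌋₊ + ⌊M * (J : ℝ)⌋₊ + ⌊e * (J : ℝ)⌋₊ + m + 3 ≤ J := by
    rw [← Nat.cast_le (α := ℝ)]
    push_cast
    linarith
  have g5 : ⌊Q' * (J : ℝ)⌋₊ + m + 3 ≤ ⌊W * (J : ℝ)⌋₊ + ⌊M * (J : ℝ)⌋₊ := by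
    rw [← Nat.cast_le (α := ℝ)]
    push_cast
    linarith
  obtain ⟨B', b1, b2, b3⟩ := lab_grd hWJ hdp hth g4 g5
  have hB'A : Sub B' A := fun ω hω => hBA ω (b1 ω hω)
  have hB'S : S.St τ₁ J F B' := by
    have h2 : Pe F.p A ≤ C * Pe F.p B' := by
      rw [hC, div_mul_eq_mul_div, le_div_iff₀ hκ₀]
      linarith
    have hS' := res_of (by linarith : (0 : ℝ) ≤ τ₁ / 2) hA hB'A hC0 k2 h2
    have e1 : 2 * (τ₁ / 2) = τ₁ := by ring
    rwa [e1] at hS'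
  refine hb J (by omega) F B' hB'S ?_
  obtain ⟨V, z, z', G, h4⟩ := b3 0
  refine ⟨I.toList, I.nodup_toList, fun h => hkI (Finset.mem_toList.1 h), ?_⟩
  rw [e2]
  refine tch_of_cls (fun i hi => Finset.mem_toList.2 hi) ?_ hWJ ?_ (Pool.GRD.LbP.of h4)
  · exact Nat.le_floor (by push_cast; linarith)
  · refine Nat.floor_le_of_le ?_
    calc Q' * J ≤ 1 * J := mul_le_mul_of_nonneg_right q3 hJ0
      _ = J := one_mul _

end Pool.ONE72
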